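import Pool.Agent.H606.OS.Stm

open MeasureTheory Filter Topology Finset
open Pool.Agent.H606.OS

namespace Pool.Agent.H606.OS.P.LO

theorem Fg_mem (u : ℝ) : 0 ≤ Fg u ∧ Fg u ≤ 1 := by
  unfold Fg
  have h : (Real.sin (Real.pi * u) / (Real.pi * u)) ^ 2 ≤ 1 := by
    by_cases h0 : Real.pi * u = 0
    · rw [h0]
      simp
    · rw [div_pow, div_le_one (by positivity)]
      exact Real.sin_sq_le_sq
  exact ⟨by linarith, by linarith [sq_nonneg (Real.sin (Real.pi * u) / (Real.pi * u))]⟩

theorem Fg_cont : ContinuousOn Fg (Set.Ioi 0) := by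
  unfold Fg
  refine continuousOn_const.sub (ContinuousOn.pow (ContinuousOn.div ?_ ?_ ?_) 2)
  · exact (Real.continuous_sin.comp (continuous_const.mul continuous_id)).continuousOn
  · exact (continuous_const.mul continuous_id).continuousOn
  · intro u hu
    exact mul_ne_zero Real.pi_ne_zero (ne_of_gt hu)

theorem Fg_ii {a b : ℝ} (ha : 0 < a) (hb : 0 < b) : IntervalIntegrable Fg volume a b := by
  refine ContinuousOn.intervalIntegrable (Fg_cont.mono fun u hu => ?_)
  have h := Set.mem_uIcc.mp hu
  show 0 < u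
  rcases h with h | h
  · linarith [h.1]
  · linarith [h.1]

theorem fFg_ii {f : ℝ → ℝ} (hf : Continuous f) {a b : ℝ} (ha : 0 < a) (hb : 0 < b) :
    IntervalIntegrable (fun u => f u * Fg u) volume a b := by
  refine ContinuousOn.intervalIntegrable ((hf.continuousOn).mul (Fg_cont.mono fun u hu => ?_))
  have h := Set.mem_uIcc.mp hu
  show 0 < u
  rcases h with h | h
  · linarith [h.1]
  · linarith [h.1]

theorem pc_eq {N : ℕ} (x : Fin N → ℝ) (R a b : ℝ) : pc x R a b =
    (∑ z : Fin N × Fin N, (Set.Icc a b).indicator (fun _ => (1 : ℝ)) (x z.1 - x z.2)) / R := by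
  classical
  unfold pc
  congr 1
  have h1 : {q : Fin N × Fin N | x q.1 - x q.2 ∈ Set.Icc a b} =
      ↑((univ : Finset (Fin N × Fin N)).filter fun q => x q.1 - x q.2 ∈ Set.Icc a b) := by
    ext q
    simp
  rw [h1, Set.ncard_coe_finset, Finset.card_filter]
  push_cast
  refine Finset.sum_congr rfl fun z _ => ?_
  rw [Set.indicator_apply]

theorem claim {C1 : ℝ} (D : Cg C1) (l : Filter ℝ) (hl : l ≤ atTop) {A : ℝ} (hA : 0 < A)
    (hLo : LoA D l A) (f : ℝ → ℝ) (hf : Continuous f) {p q : ℝ} (hAp : A ≤ p) (hpq : p ≤ q)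
    (hf0 : ∀ u ∈ Set.Icc p q, 0 ≤ f u) {η : ℝ} (hη : 0 < η) :
    ∀ᶠ T in l, (∫ u in p..q, f u * Fg u) - η ≤
      (∑ z : Fin (D.N T) × Fin (D.N T),
        (Set.Ioo p q).indicator f (D.x T z.1 - D.x T z.2)) / D.R T := by
  rcases hpq.eq_or_lt with hpq0 | hpq1
  · refine Eventually.of_forall fun T => ?_
    rw [← hpq0, intervalIntegral.integral_same, Set.Ioo_self]
    simp
    linarith
  -- uniform continuity
  have hp0 : 0 < p := by linarith
  have hqp : 0 < q - p := by linarith
  obtain ⟨e1, he1⟩ : ∃ e1 : ℝ, e1 = η / (8 * (q - p)) := ⟨_, rfl⟩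
  have he10 : 0 < e1 := by rw [he1]; positivity
  have huc : UniformContinuousOn f (Set.Icc p q) :=
    isCompact_Icc.uniformContinuousOn_of_continuous hf.continuousOn
  obtain ⟨δ, hδ, hδf⟩ := Metric.uniformContinuousOn_iff.mp huc e1 he10
  obtain ⟨n, hn⟩ := exists_nat_gt ((q - p) / δ)
  have hn0 : (0 : ℝ) < n := lt_trans (by positivity) hn
  obtain ⟨h, hh⟩ : ∃ h : ℝ, h = (q - p) / n := ⟨_, rfl⟩
  have hh0 : 0 < h := by rw [hh]; positivity
  have hhn : h * n = q - p := by rw [hh]; field_simp
  have hhδ : h < δ := by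
    rw [hh, div_lt_iff₀ hn0]
    rw [div_lt_iff₀ hδ] at hn
    linarith
  obtain ⟨t, ht⟩ : ∃ t : ℕ → ℝ, ∀ i, t i = p + i * h := ⟨_, fun _ => rfl⟩
  have ht0 : t 0 = p := by rw [ht]; simp
  have htn : t n = q := by rw [ht]; linarith
  have hts : ∀ i, t (i + 1) = t i + h := fun i => by
    rw [ht, ht]
    push_cast
    ring
  have htmono : ∀ i j, i ≤ j → t i ≤ t j := fun i j hij => by
    rw [ht, ht]
    have : (i : ℝ) ≤ j := by exact_mod_cast hij
    nlinarith
  have htp : ∀ i, p ≤ t i := fun i => by rw [← ht0]; exact htmono 0 i (Nat.zero_le _)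
  have htq : ∀ i, i < n → t (i + 1) ≤ q := fun i hi => by rw [← htn]; exact htmono _ _ hi
  obtain ⟨m, hm⟩ : ∃ m : ℕ → ℝ, ∀ i, m i = max (f (t i) - e1) 0 := ⟨_, fun _ => rfl⟩
  have hm0 : ∀ i, 0 ≤ m i := fun i => by rw [hm]; exact le_max_right _ _
  obtain ⟨Sm, hSm⟩ : ∃ Sm : ℝ, Sm = ∑ i ∈ range n, m i := ⟨_, rfl⟩
  have hSm0 : 0 ≤ Sm := by rw [hSm]; exact Finset.sum_nonneg fun i _ => hm0 i
  obtain ⟨s, hs⟩ : ∃ s : ℝ, s = min (h / 4) (η / (8 * (Sm + 1))) := ⟨_, rfl⟩
  have hs0 : 0 < s := by rw [hs]; exact lt_min (by positivity) (by positivity)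
  have hsh : s ≤ h / 4 := by rw [hs]; exact min_le_left _ _
  have hsS : 2 * s * Sm ≤ η / 4 := by
    have h1 : s ≤ η / (8 * (Sm + 1)) := by rw [hs]; exact min_le_right _ _
    rw [le_div_iff₀ (by positivity)] at h1
    nlinarith
  obtain ⟨e2, he2⟩ : ∃ e2 : ℝ, e2 = η / (4 * (Sm + 1)) := ⟨_, rfl⟩
  have he20 : 0 < e2 := by rw [he2]; positivity
  have he2S : e2 * Sm ≤ η / 4 := by
    have h1 : e2 * (4 * (Sm + 1)) = η := by rw [he2]; field_simp
    nlinarith
  -- closeness of the values
  have hclose : ∀ i, i < n → ∀ u ∈ Set.Icc (t i) (t (i + 1)), m i ≤ f u ∧ f u ≤ m i + 2 * e1 := by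
    intro i hi u hu
    have hup : u ∈ Set.Icc p q := ⟨(htp i).trans hu.1, hu.2.trans (htq i hi)⟩
    have htp' : t i ∈ Set.Icc p q := ⟨htp i, (hu.1.trans hu.2).trans (htq i hi)⟩
    have h1 : dist u (t i) < δ := by
      rw [Real.dist_eq, abs_of_nonneg (by linarith [hu.1])]
      have := hu.2
      rw [hts] at this
      linarith
    have h2 := hδf u hup (t i) htp' h1
    rw [Real.dist_eq] at h2
    have h3 := abs_lt.mp h2
    rw [hm]
    refine ⟨max_le (by linarith) (hf0 u hup), ?_⟩
    have h4 : f (t i) - e1 ≤ max (f (t i) - e1) 0 := le_max_left _ _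
    linarith
  -- the pointwise bound
  have hpoint : ∀ u, ∑ i ∈ range n, m i *
      (Set.Icc (t i + s) (t (i + 1) - s)).indicator (fun _ => (1 : ℝ)) u ≤
      (Set.Ioo p q).indicator f u := by
    intro u
    by_cases hex : ∃ i ∈ range n, u ∈ Set.Icc (t i + s) (t (i + 1) - s)
    · obtain ⟨i, hi, hu⟩ := hex
      have hi' := Finset.mem_range.mp hi
      rw [Finset.sum_eq_single_of_mem i hi]
      · rw [Set.indicator_of_mem hu, mul_one, Set.indicator_of_mem]
        · exact (hclose i hi' u ⟨by linarith [hu.1], by linarith [hu.2]⟩).1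
        · exact ⟨by linarith [hu.1, htp i], by linarith [hu.2, htq i hi']⟩
      · intro j _ hji
        rw [Set.indicator_of_notMem, mul_zero]
        intro hj
        rcases lt_or_gt_of_ne hji with h1 | h1
        · have := htmono (j + 1) i h1
          linarith [hj.2, hu.1]
        · have := htmono (i + 1) j h1
          linarith [hj.1, hu.2]
    · push Not at hex
      rw [Finset.sum_eq_zero]
      · refine Set.indicator_nonneg (fun v hv => hf0 v ⟨hv.1.le, hv.2.le⟩) u
      · intro i hi
        rw [Set.indicator_of_notMem (hex i hi), mul_zero]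
  -- the integral
  have hint : ∫ u in p..q, f u * Fg u ≤
      ∑ i ∈ range n, m i * (∫ u in (t i + s)..(t (i + 1) - s), Fg u) + η / 2 := by
    have h1 : ∑ i ∈ range n, ∫ u in t i..t (i + 1), f u * Fg u = ∫ u in p..q, f u * Fg u := by
      have h2 := intervalIntegral.sum_integral_adjacent_intervals (a := t) (n := n)
        (f := fun u => f u * Fg u) (μ := volume) (fun k _ => fFg_ii hf
          (lt_of_lt_of_le hp0 (htp k)) (lt_of_lt_of_le hp0 (htp (k + 1))))
      rw [ht0, htn] at h2
      exact h2
    rw [← h1]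
    have h3 : ∀ i ∈ range n, ∫ u in t i..t (i + 1), f u * Fg u ≤
        m i * (∫ u in (t i + s)..(t (i + 1) - s), Fg u) + (2 * s * m i + 2 * e1 * h) := by
      intro i hi
      have hi' := Finset.mem_range.mp hi
      have hti0 : 0 < t i := lt_of_lt_of_le hp0 (htp i)
      have hti1 : 0 < t (i + 1) := lt_of_lt_of_le hp0 (htp (i + 1))
      have hle : t i ≤ t (i + 1) := htmono _ _ (Nat.le_succ _)
      have h4 : ∫ u in t i..t (i + 1), f u * Fg u ≤ ∫ u in t i..t (i + 1), (m i * Fg u + 2 * e1) := by
        refine intervalIntegral.integral_mono_on hle (fFg_ii hf hti0 hti1)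
          (((Fg_ii hti0 hti1).const_mul _).add intervalIntegrable_const) fun u hu => ?_
        have h5 := (hclose i hi' u hu).2
        have h6 := Fg_mem u
        nlinarith
      have h5 : ∫ u in t i..t (i + 1), (m i * Fg u + 2 * e1) =
          m i * (∫ u in t i..t (i + 1), Fg u) + 2 * e1 * h := by
        rw [intervalIntegral.integral_add ((Fg_ii hti0 hti1).const_mul _) intervalIntegrable_const,
          intervalIntegral.integral_const_mul, intervalIntegral.integral_const, smul_eq_mul, hts]
        ring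
      have h6 : ∫ u in t i..t (i + 1), Fg u = (∫ u in t i..(t i + s), Fg u) +
          (∫ u in (t i + s)..(t (i + 1) - s), Fg u) + ∫ u in (t (i + 1) - s)..t (i + 1), Fg u := by
        have hs1 : 0 < t i + s := by linarith
        have hs2 : 0 < t (i + 1) - s := by rw [hts]; linarith
        rw [intervalIntegral.integral_add_adjacent_intervals (Fg_ii hti0 hs1) (Fg_ii hs1 hs2),
          intervalIntegral.integral_add_adjacent_intervals (Fg_ii hti0 hs2) (Fg_ii hs2 hti1)]
      have hb : ∀ a b : ℝ, a ≤ b → ∫ u in a..b, Fg u ≤ b - a := by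
        intro a b hab
        have h7 := intervalIntegral.norm_integral_le_of_norm_le_const (a := a) (b := b) (C := 1)
          (f := Fg) (fun u _ => by
            rw [Real.norm_eq_abs, abs_of_nonneg (Fg_mem u).1]
            exact (Fg_mem u).2)
        rw [one_mul, abs_of_nonneg (by linarith)] at h7
        exact (le_abs_self _).trans h7
      have h7 := hb (t i) (t i + s) (by linarith)
      have h8 := hb (t (i + 1) - s) (t (i + 1)) (by linarith)
      have h9 : ∫ u in t i..t (i + 1), Fg u ≤ (∫ u in (t i + s)..(t (i + 1) - s), Fg u) + 2 * s := by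
        rw [h6]
        linarith
      have h10 := mul_le_mul_of_nonneg_left h9 (hm0 i)
      linarith
    refine (Finset.sum_le_sum h3).trans ?_
    rw [Finset.sum_add_distrib, Finset.sum_add_distrib, ← Finset.mul_sum, ← hSm, Finset.sum_const,
      Finset.card_range, nsmul_eq_mul]
    have h4 : (n : ℝ) * (2 * e1 * h) = η / 4 := by
      have h5 : (n : ℝ) * (2 * e1 * h) = 2 * e1 * (h * n) := by ring
      rw [h5, hhn, he1]
      field_simp
      ring
    linarith
  -- the eventual bounds
  have hev : ∀ᶠ T in l, ∀ i ∈ range n,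
      (∫ u in (t i + s)..(t (i + 1) - s), Fg u) - e2 ≤
        pc (D.x T) (D.R T) (t i + s) (t (i + 1) - s) := by
    rw [Filter.eventually_all_finset]
    intro i _
    refine hLo _ _ ?_ ?_ e2 he20
    · linarith [htp i]
    · rw [hts]
      linarith
  filter_upwards [hev, D.hR.filter_mono hl] with T hT hRT
  have h1 : ∑ i ∈ range n, m i * pc (D.x T) (D.R T) (t i + s) (t (i + 1) - s) ≤
      (∑ z : Fin (D.N T) × Fin (D.N T),
        (Set.Ioo p q).indicator f (D.x T z.1 - D.x T z.2)) / D.R T := by
    have h2 : ∑ i ∈ range n, m i * pc (D.x T) (D.R T) (t i + s) (t (i + 1) - s) =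
        (∑ z : Fin (D.N T) × Fin (D.N T), ∑ i ∈ range n, m i *
          (Set.Icc (t i + s) (t (i + 1) - s)).indicator (fun _ => (1 : ℝ))
            (D.x T z.1 - D.x T z.2)) / D.R T := by
      rw [Finset.sum_comm, Finset.sum_div]
      refine Finset.sum_congr rfl fun i _ => ?_
      rw [pc_eq, ← Finset.mul_sum, mul_div_assoc]
    rw [h2]
    exact div_le_div_of_nonneg_right (Finset.sum_le_sum fun z _ => hpoint _) hRT.le
  have h2 : ∑ i ∈ range n, m i * ((∫ u in (t i + s)..(t (i + 1) - s), Fg u) - e2) ≤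
      ∑ i ∈ range n, m i * pc (D.x T) (D.R T) (t i + s) (t (i + 1) - s) :=
    Finset.sum_le_sum fun i hi => mul_le_mul_of_nonneg_left (hT i hi) (hm0 i)
  have h3 : ∑ i ∈ range n, m i * ((∫ u in (t i + s)..(t (i + 1) - s), Fg u) - e2) =
      ∑ i ∈ range n, m i * (∫ u in (t i + s)..(t (i + 1) - s), Fg u) - e2 * Sm := by
    rw [hSm, Finset.mul_sum, ← Finset.sum_sub_distrib]
    refine Finset.sum_congr rfl fun i _ => ?_
    ring
  linarith

theorem t_LO : S_LO := by
  intro C1 D l hC1 hl A hA hLo K B hK hKB α β κ hAα hαβ hκ hκK ε hε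
  have hα0 : 0 < α := by linarith
  have hβ0 : 0 < β := by linarith
  have hB0 : 0 ≤ B := by
    have h1 := hKB 0 le_rfl
    unfold ka at h1
    norm_num at h1
    linarith [h1.1, h1.2]
  have hKn : ∀ u, 0 ≤ u → 0 ≤ K u := fun u hu => (hKB u hu).1
  -- integrability
  have hcont : ContinuousOn (fun u => K u * Fg u) (Set.Ioi 0) := hK.continuousOn.mul Fg_cont
  have hio : IntegrableOn (fun u => K u * Fg u) (Set.Ioi A) := by
    have h1 : IntegrableOn (fun u => B * ka u) (Set.Ioi A) := by
      have h2 : Integrable ka := by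
        have h3 := integrable_inv_one_add_sq
        unfold ka
        simpa [one_div] using h3
      exact (h2.const_mul B).integrableOn
    refine Integrable.mono' h1 ?_ ?_
    · exact (hcont.mono (Set.Ioi_subset_Ioi hA.le)).aestronglyMeasurable measurableSet_Ioi
    · refine (ae_restrict_mem measurableSet_Ioi).mono fun u hu => ?_
      have hu0 : 0 ≤ u := by
        have : A < u := hu
        linarith
      have h3 := hKB u hu0
      have h4 := Fg_mem u
      rw [Real.norm_eq_abs, abs_of_nonneg (mul_nonneg h3.1 h4.1)]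
      calc K u * Fg u ≤ K u * 1 := mul_le_mul_of_nonneg_left h4.2 h3.1
        _ ≤ _ := by rw [mul_one]; exact h3.2
  -- the cut off
  have hlim := intervalIntegral_tendsto_integral_Ioi A hio tendsto_id
  have hcut : ∀ᶠ b : ℝ in atTop, (∫ u in Set.Ioi A, K u * Fg u) - ε / 4 < ∫ u in A..b, K u * Fg u :=
    hlim.eventually (lt_mem_nhds (by linarith))
  obtain ⟨b, hb1, hb2⟩ := (hcut.and (eventually_gt_atTop β)).exists
  have hb0 : 0 < b := by linarith
  have hsplit : ∫ u in A..b, K u * Fg u = (∫ u in A..α, K u * Fg u) +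
      (∫ u in α..β, K u * Fg u) + ∫ u in β..b, K u * Fg u := by
    rw [intervalIntegral.integral_add_adjacent_intervals (fFg_ii hK hA hα0) (fFg_ii hK hα0 hβ0),
      intervalIntegral.integral_add_adjacent_intervals (fFg_ii hK hA hβ0) (fFg_ii hK hβ0 hb0)]
  have hmid : ∫ u in α..β, K u * Fg u = (∫ u in α..β, (K u - κ) * Fg u) +
      κ * ∫ u in α..β, Fg u := by
    have hKc : Continuous fun u => K u - κ := hK.sub continuous_const
    have h1 := intervalIntegral.integral_add (fFg_ii hKc hα0 hβ0) ((Fg_ii hα0 hβ0).const_mul κ)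
    rw [intervalIntegral.integral_const_mul] at h1
    rw [← h1]
    refine intervalIntegral.integral_congr fun u _ => ?_
    show K u * Fg u = (K u - κ) * Fg u + κ * Fg u
    ring
  have ev1 := claim D l hl hA hLo K hK le_rfl hAα (fun u hu => hKn u (by linarith [hu.1]))
    (show 0 < ε / 4 by positivity)
  have ev2 := claim D l hl hA hLo (fun u => K u - κ) (hK.sub continuous_const) hAα hαβ.le
    (fun u hu => by linarith [hκK u hu]) (show 0 < ε / 4 by positivity)
  have ev3 := claim D l hl hA hLo K hK (show A ≤ β by linarith) hb2.le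
    (fun u hu => hKn u (by linarith [hu.1])) (show 0 < ε / 4 by positivity)
  filter_upwards [ev1, ev2, ev3, D.hR.filter_mono hl] with T h1 h2 h3 hRT
  -- the pointwise inequality
  have hpt : ∀ u, κ * (Set.Icc α β).indicator (fun _ => (1 : ℝ)) u + (Set.Ioo A α).indicator K u +
      (Set.Ioo α β).indicator (fun u => K u - κ) u + (Set.Ioo β b).indicator K u ≤
      if A ≤ u then K u else 0 := by
    intro u
    rcases lt_or_ge u A with hu | hu
    · rw [if_neg (not_le.mpr hu), Set.indicator_of_notMem, Set.indicator_of_notMem,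
        Set.indicator_of_notMem, Set.indicator_of_notMem]
      · simp
      · intro h; linarith [h.1]
      · intro h; linarith [h.1]
      · intro h; linarith [h.1]
      · intro h; linarith [h.1]
    · rw [if_pos hu]
      have hKu := hKn u (by linarith)
      rcases lt_or_ge u α with h4 | h4
      · rw [Set.indicator_of_notMem (s := Set.Icc α β) (fun h => by linarith [h.1]),
          Set.indicator_of_notMem (s := Set.Ioo α β) (fun h => by linarith [h.1]),
          Set.indicator_of_notMem (s := Set.Ioo β b) (fun h => by linarith [h.1])]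
        have h5 : (Set.Ioo A α).indicator K u ≤ K u := by
          by_cases h6 : u ∈ Set.Ioo A α
          · rw [Set.indicator_of_mem h6]
          · rw [Set.indicator_of_notMem h6]
            exact hKu
        linarith
      · rw [Set.indicator_of_notMem (s := Set.Ioo A α) (fun h => by linarith [h.2])]
        rcases le_or_gt u β with h5 | h5
        · rw [Set.indicator_of_mem (s := Set.Icc α β) ⟨h4, h5⟩,
            Set.indicator_of_notMem (s := Set.Ioo β b) (fun h => by linarith [h.1])]
          have h6 := hκK u ⟨h4, h5⟩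
          have h7 : (Set.Ioo α β).indicator (fun u => K u - κ) u ≤ K u - κ := by
            by_cases h8 : u ∈ Set.Ioo α β
            · rw [Set.indicator_of_mem h8]
            · rw [Set.indicator_of_notMem h8]
              linarith
          linarith
        · rw [Set.indicator_of_notMem (s := Set.Icc α β) (fun h => by linarith [h.2]),
            Set.indicator_of_notMem (s := Set.Ioo α β) (fun h => by linarith [h.2])]
          have h7 : (Set.Ioo β b).indicator K u ≤ K u := by
            by_cases h8 : u ∈ Set.Ioo β b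
            · rw [Set.indicator_of_mem h8]
            · rw [Set.indicator_of_notMem h8]
              exact hKu
          linarith
  have hks : ks (D.x T) (D.R T) A K =
      (∑ z : Fin (D.N T) × Fin (D.N T),
        if A ≤ D.x T z.1 - D.x T z.2 then K (D.x T z.1 - D.x T z.2) else 0) / D.R T := by
    unfold ks
    rw [Finset.sum_filter]
  have hsum : κ * pc (D.x T) (D.R T) α β +
      (∑ z : Fin (D.N T) × Fin (D.N T),
        (Set.Ioo A α).indicator K (D.x T z.1 - D.x T z.2)) / D.R T +
      (∑ z : Fin (D.N T) × Fin (D.N T),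
        (Set.Ioo α β).indicator (fun u => K u - κ) (D.x T z.1 - D.x T z.2)) / D.R T +
      (∑ z : Fin (D.N T) × Fin (D.N T),
        (Set.Ioo β b).indicator K (D.x T z.1 - D.x T z.2)) / D.R T ≤
      ks (D.x T) (D.R T) A K := by
    rw [hks, pc_eq, ← mul_div_assoc, ← add_div, ← add_div, ← add_div, Finset.mul_sum,
      ← Finset.sum_add_distrib, ← Finset.sum_add_distrib, ← Finset.sum_add_distrib]
    exact div_le_div_of_nonneg_right (Finset.sum_le_sum fun z _ => hpt _) hRT.le
  rw [hsplit, hmid] at hb1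
  have h5 : κ * (pc (D.x T) (D.R T) α β - ∫ u in α..β, Fg u) =
      κ * pc (D.x T) (D.R T) α β - κ * ∫ u in α..β, Fg u := by ring
  linarith

end Pool.Agent.H606.OS.P.LO
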