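import Pool.Agent.H606.OS.Stm

/-!
# Project OS, task B0 (helper168 for helper606): the main identity
-/

open MeasureTheory Filter Topology Finset

namespace Pool.Agent.H606.OS.P.B0

open Pool.Agent.H606.OS

/-- for an even `K` with `K 0 = 0` the sum over the pairs with difference `≥ 0` is half of the sum over all pairs -/
theorem two_ks {N : ℕ} (x : Fin N → ℝ) (R : ℝ) (K : ℝ → ℝ) (h0 : K 0 = 0) (he : ∀ u, K (-u) = K u) :
    2 * ks x R 0 K = (∑ j, ∑ k, K (x j - x k)) / R := by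
  classical
  unfold ks
  have hsplit := Finset.sum_filter_add_sum_filter_not (Finset.univ : Finset (Fin N × Fin N))
    (fun q => 0 ≤ x q.1 - x q.2) (fun q => K (x q.1 - x q.2))
  have hsw : ∑ q ∈ (Finset.univ : Finset (Fin N × Fin N)).filter (fun q => ¬ 0 ≤ x q.1 - x q.2),
      K (x q.1 - x q.2) = ∑ q ∈ (Finset.univ : Finset (Fin N × Fin N)).filter
        (fun q => 0 ≤ x q.1 - x q.2), K (x q.1 - x q.2) := by
    have h1 : ∑ q ∈ (Finset.univ : Finset (Fin N × Fin N)).filter (fun q => ¬ 0 ≤ x q.1 - x q.2),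
        K (x q.1 - x q.2) = ∑ q ∈ (Finset.univ : Finset (Fin N × Fin N)).filter
          (fun q => 0 < x q.1 - x q.2), K (x q.1 - x q.2) := by
      refine Finset.sum_bij (fun q _ => (q.2, q.1)) ?_ ?_ ?_ ?_
      · intro q hq
        simp only [Finset.mem_filter, Finset.mem_univ, true_and] at hq ⊢
        linarith
      · rintro ⟨a, b⟩ _ ⟨c, d⟩ _ h
        simp only [Prod.mk.injEq] at h ⊢
        exact ⟨h.2, h.1⟩
      · rintro ⟨a, b⟩ hq
        refine ⟨(b, a), ?_, rfl⟩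
        simp only [Finset.mem_filter, Finset.mem_univ, true_and] at hq ⊢
        linarith
      · rintro ⟨a, b⟩ _
        show K (x a - x b) = K (x b - x a)
        rw [← he (x b - x a)]
        congr 1
        ring
    rw [h1]
    refine Finset.sum_subset ?_ ?_
    · intro q hq
      simp only [Finset.mem_filter, Finset.mem_univ, true_and] at hq ⊢
      linarith
    · intro q hq hq'
      simp only [Finset.mem_filter, Finset.mem_univ, true_and] at hq hq'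
      have : x q.1 - x q.2 = 0 := by
        push Not at hq'
        linarith
      rw [this, h0]
  rw [hsw] at hsplit
  have hprod : ∑ q ∈ (Finset.univ : Finset (Fin N × Fin N)), K (x q.1 - x q.2) =
      ∑ j, ∑ k, K (x j - x k) := by
    rw [← Finset.univ_product_univ, Finset.sum_product]
  rw [← hprod, ← hsplit]
  ring

theorem sum_Kn {N : ℕ} (x : Fin N → ℝ) (R : ℝ) (n : ℕ) (b0 δ : ℝ) :
    (∑ j, ∑ k, Kn n b0 δ (x j - x k)) / R =
      ∑ i ∈ range n, (ssum x R δ - ssum x R (b0 / 2 ^ i)) / (b0 / 2 ^ i) ^ 2 := by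
  unfold Kn ssum
  have h1 : ∀ j : Fin N, ∑ k, ∑ i ∈ range n, (kk (2 * Real.pi * δ * (x j - x k)) -
      kk (2 * Real.pi * (b0 / 2 ^ i) * (x j - x k))) / (b0 / 2 ^ i) ^ 2 =
      ∑ i ∈ range n, ∑ k, (kk (2 * Real.pi * δ * (x j - x k)) -
      kk (2 * Real.pi * (b0 / 2 ^ i) * (x j - x k))) / (b0 / 2 ^ i) ^ 2 := fun j => Finset.sum_comm
  simp only [h1]
  rw [Finset.sum_comm, Finset.sum_div]
  refine Finset.sum_congr rfl fun i _ => ?_
  rw [← sub_div]
  simp only [← Finset.sum_div, ← Finset.sum_sub_distrib]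
  rw [div_right_comm]

theorem int_Kn (hGUE : S_GUE) (n : ℕ) (b0 δ : ℝ) (hb0 : 0 < b0) (hb1 : b0 ≤ 1) (hδ : 0 < δ)
    (hδ1 : δ ≤ 1) :
    2 * (∫ u in Set.Ioi (0 : ℝ), Kn n b0 δ u * Fg u) =
      ∑ i ∈ range n, ((1 / δ + δ / 6) - (1 / (b0 / 2 ^ i) + b0 / 2 ^ i / 6)) / (b0 / 2 ^ i) ^ 2 := by
  obtain ⟨hI, hE⟩ := hGUE δ hδ hδ1
  have hb : ∀ i : ℕ, 0 < b0 / 2 ^ i ∧ b0 / 2 ^ i ≤ 1 := by
    intro i
    refine ⟨by positivity, ?_⟩
    have h2 : (1 : ℝ) ≤ 2 ^ i := one_le_pow₀ (by norm_num)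
    rw [div_le_one (by positivity)]
    linarith
  have hfun : (fun u : ℝ => Kn n b0 δ u * Fg u) = fun u => ∑ i ∈ range n,
      ((kk (2 * Real.pi * δ * u) * Fg u) / (b0 / 2 ^ i) ^ 2 -
        (kk (2 * Real.pi * (b0 / 2 ^ i) * u) * Fg u) / (b0 / 2 ^ i) ^ 2) := by
    funext u
    unfold Kn
    rw [Finset.sum_mul]
    refine Finset.sum_congr rfl fun i _ => ?_
    ring
  have hint : ∀ i ∈ range n, IntegrableOn (fun u : ℝ =>
      ((kk (2 * Real.pi * δ * u) * Fg u) / (b0 / 2 ^ i) ^ 2 -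
        (kk (2 * Real.pi * (b0 / 2 ^ i) * u) * Fg u) / (b0 / 2 ^ i) ^ 2)) (Set.Ioi 0) := by
    intro i _
    obtain ⟨hIi, _⟩ := hGUE (b0 / 2 ^ i) (hb i).1 (hb i).2
    exact (hI.div_const _).sub (hIi.div_const _)
  rw [hfun, integral_finsetSum _ hint, Finset.mul_sum]
  refine Finset.sum_congr rfl fun i _ => ?_
  obtain ⟨hIi, hEi⟩ := hGUE (b0 / 2 ^ i) (hb i).1 (hb i).2
  rw [integral_sub (hI.div_const _) (hIi.div_const _), integral_div, integral_div, ← hE, ← hEi]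
  ring

theorem t_B0 (hKK : S_KK) (hGUE : S_GUE) (hKN : S_KN) : S_B0 := by
  intro C1 D hC1 n
  obtain ⟨_, _, _, _, hkke, _⟩ := hKK
  set S : ℝ := ∑ i ∈ range n, 1 / ((1 / 12 : ℝ) / 2 ^ i) ^ 2 with hS
  have hS0 : 0 ≤ S := Finset.sum_nonneg fun i _ => by positivity
  have hle : (1 / 12 / 2 ^ n : ℝ) ≤ 1 / 12 := by
    have h2 : (1 : ℝ) ≤ 2 ^ n := one_le_pow₀ (by norm_num)
    exact div_le_self (by norm_num) h2
  refine ⟨min (1 / 12 / 2 ^ n) (1 / (S + 1)), lt_min (by positivity) (by positivity),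
    min_le_left _ _, ?_⟩
  intro δ hδ hδ0
  have hδn : δ ≤ 1 / 12 / 2 ^ n := hδ0.trans (min_le_left _ _)
  have hδS : δ ≤ 1 / (S + 1) := hδ0.trans (min_le_right _ _)
  have hδ12 : δ ≤ 1 / 12 := hδn.trans hle
  have hKn0 : Kn n (1 / 12) δ 0 = 0 := by
    unfold Kn
    simp
  have hKne : ∀ u, Kn n (1 / 12) δ (-u) = Kn n (1 / 12) δ u := by
    intro u
    unfold Kn
    refine Finset.sum_congr rfl fun i _ => ?_
    rw [mul_neg, hkke, mul_neg, hkke]
  have hη : (0 : ℝ) < 1 / (2 * (S + 1)) := by positivity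
  filter_upwards [D.n1 n (1 / 12) (by norm_num) le_rfl, D.n2 δ hδ hδ12 _ hη] with T h1 h2
  rw [two_ks _ _ _ hKn0 hKne, sum_Kn, int_Kn hGUE n (1 / 12) δ (by norm_num) (by norm_num) hδ
    (by linarith)]
  rw [← Finset.sum_sub_distrib]
  have hrew : ∑ i ∈ range n, (((1 / δ + δ / 6) - (1 / ((1 / 12 : ℝ) / 2 ^ i) + 1 / 12 / 2 ^ i / 6)) /
      (1 / 12 / 2 ^ i) ^ 2 - (ssum (D.x T) (D.R T) δ - ssum (D.x T) (D.R T) (1 / 12 / 2 ^ i)) /
        (1 / 12 / 2 ^ i) ^ 2) =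
      ∑ i ∈ range n, (ssum (D.x T) (D.R T) (1 / 12 / 2 ^ i) -
        (1 / (1 / 12 / 2 ^ i) + 1 / 12 / 2 ^ i / 6)) / (1 / 12 / 2 ^ i) ^ 2 +
        (1 / δ + δ / 6 - ssum (D.x T) (D.R T) δ) * S := by
    rw [hS, Finset.mul_sum, ← Finset.sum_add_distrib]
    refine Finset.sum_congr rfl fun i _ => ?_
    ring
  rw [hrew]
  have h3 : (1 / δ + δ / 6 - ssum (D.x T) (D.R T) δ) * S ≤ 1 := by
    have h4 : 1 / δ + δ / 6 - ssum (D.x T) (D.R T) δ ≤ 1 / (2 * (S + 1)) + 1 / (S + 1) / 6 := by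
      linarith
    have h5 : (1 / δ + δ / 6 - ssum (D.x T) (D.R T) δ) * S ≤
        (1 / (2 * (S + 1)) + 1 / (S + 1) / 6) * S := mul_le_mul_of_nonneg_right h4 hS0
    have h6 : (1 / (2 * (S + 1)) + 1 / (S + 1) / 6) * S = (2 / 3) * (S / (S + 1)) := by
      field_simp
      ring
    have h7 : S / (S + 1) ≤ 1 := by
      rw [div_le_one (by positivity)]
      linarith
    rw [h6] at h5
    linarith
  linarith

end Pool.Agent.H606.OS.P.B0
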