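import Pool.Agent.H606.OS.Stm

open MeasureTheory Filter Topology Finset
open Pool.Agent.H606.OS

namespace Pool.Agent.H606.OS.P.B1

/-- the counting quotient as a Finset card -/
lemma pc_eq {N : ℕ} (x : Fin N → ℝ) (R α β : ℝ) : pc x R α β =
    (((univ : Finset (Fin N × Fin N)).filter (fun q => x q.1 - x q.2 ∈ Set.Icc α β)).card : ℝ) / R := by
  unfold pc
  rw [Set.ncard_eq_toFinset_card']
  congr 3
  ext q
  simp

lemma pc_nonneg {N : ℕ} (x : Fin N → ℝ) {R : ℝ} (hR : 0 < R) (α β : ℝ) : 0 ≤ pc x R α β := by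
  unfold pc
  positivity

lemma pc_le {N : ℕ} (x : Fin N → ℝ) {R : ℝ} (hR : 0 < R) {A CB : ℝ} (hA : 0 < A)
    (h : ∀ y : ℝ, pc x R y (y + 1) ≤ CB) : pc x R 0 A ≤ CB * (1 + A) := by
  have hCB : 0 ≤ CB := le_trans (pc_nonneg x hR 0 (0 + 1)) (h 0)
  have h1 : pc x R 0 A ≤ ∑ i ∈ range ⌈A⌉₊, pc x R i (i + 1) := by
    simp only [pc_eq]
    rw [← Finset.sum_div]
    apply div_le_div_of_nonneg_right _ hR.le
    have h2 : ((univ : Finset (Fin N × Fin N)).filter (fun q => x q.1 - x q.2 ∈ Set.Icc 0 A)) ⊆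
        (range ⌈A⌉₊).biUnion (fun i => (univ : Finset (Fin N × Fin N)).filter
          (fun q => x q.1 - x q.2 ∈ Set.Icc (i : ℝ) (i + 1))) := by
      intro q hq
      simp only [mem_filter, mem_univ, true_and, Set.mem_Icc] at hq
      simp only [mem_biUnion, mem_range, mem_filter, mem_univ, true_and, Set.mem_Icc]
      by_cases hd : x q.1 - x q.2 < ⌈A⌉₊
      · refine ⟨⌊x q.1 - x q.2⌋₊, ?_, Nat.floor_le hq.1, (Nat.lt_floor_add_one _).le⟩
        rw [Nat.floor_lt hq.1]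
        exact hd
      · have h3 : A ≤ (⌈A⌉₊ : ℝ) := Nat.le_ceil A
        push Not at hd
        have h4 : 0 < ⌈A⌉₊ := Nat.ceil_pos.mpr hA
        refine ⟨⌈A⌉₊ - 1, by omega, ?_, ?_⟩
        · have : ((⌈A⌉₊ - 1 : ℕ) : ℝ) ≤ (⌈A⌉₊ : ℝ) := by exact_mod_cast Nat.sub_le _ _
          linarith
        · have : ((⌈A⌉₊ - 1 : ℕ) : ℝ) + 1 = (⌈A⌉₊ : ℝ) := by
            rw [Nat.cast_sub (by omega)]
            push_cast
            ring
          rw [this]
          linarith [hq.2]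
    have h3 := (Finset.card_le_card h2).trans Finset.card_biUnion_le
    exact_mod_cast h3
  have h2 : ∑ i ∈ range ⌈A⌉₊, pc x R i (i + 1) ≤ ∑ i ∈ range ⌈A⌉₊, CB :=
    Finset.sum_le_sum fun i _ => h i
  rw [Finset.sum_const, card_range, nsmul_eq_mul] at h2
  have h3 : (⌈A⌉₊ : ℝ) ≤ A + 1 := (Nat.ceil_lt_add_one hA.le).le
  nlinarith

/-- splitting the pair sum -/
lemma ks_split {N : ℕ} (x : Fin N → ℝ) {R : ℝ} (hR : 0 < R) {A M : ℝ} (hA : 0 < A) {K : ℝ → ℝ}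
    (hM : ∀ u, 0 ≤ u → u < A → K u ≤ M) (hM0 : 0 ≤ M) :
    ks x R 0 K ≤ M * pc x R 0 A + ks x R A K := by
  unfold ks
  rw [pc_eq]
  rw [← mul_div_assoc, ← add_div]
  apply div_le_div_of_nonneg_right _ hR.le
  have h1 : ((univ : Finset (Fin N × Fin N)).filter (fun q => 0 ≤ x q.1 - x q.2)) =
      ((univ : Finset (Fin N × Fin N)).filter (fun q => 0 ≤ x q.1 - x q.2 ∧ x q.1 - x q.2 < A)) ∪
      ((univ : Finset (Fin N × Fin N)).filter (fun q => A ≤ x q.1 - x q.2)) := by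
    ext q
    simp only [mem_filter, mem_univ, true_and, mem_union]
    constructor
    · intro h
      by_cases h2 : x q.1 - x q.2 < A
      · exact Or.inl ⟨h, h2⟩
      · exact Or.inr (not_lt.mp h2)
    · rintro (h | h)
      · exact h.1
      · linarith
  have h2 : Disjoint
      ((univ : Finset (Fin N × Fin N)).filter (fun q => 0 ≤ x q.1 - x q.2 ∧ x q.1 - x q.2 < A))
      ((univ : Finset (Fin N × Fin N)).filter (fun q => A ≤ x q.1 - x q.2)) := by
    rw [Finset.disjoint_left]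
    intro q hq hq2
    simp only [mem_filter, mem_univ, true_and] at hq hq2
    linarith
  rw [h1, Finset.sum_union h2]
  apply add_le_add_left
  have h3 : ∑ q ∈ (univ : Finset (Fin N × Fin N)).filter
      (fun q => 0 ≤ x q.1 - x q.2 ∧ x q.1 - x q.2 < A), K (x q.1 - x q.2) ≤
      ∑ q ∈ (univ : Finset (Fin N × Fin N)).filter
      (fun q => 0 ≤ x q.1 - x q.2 ∧ x q.1 - x q.2 < A), M := by
    apply Finset.sum_le_sum
    intro q hq
    simp only [mem_filter, mem_univ, true_and] at hq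
    exact hM _ hq.1 hq.2
  rw [Finset.sum_const, nsmul_eq_mul] at h3
  refine h3.trans ?_
  rw [mul_comm]
  apply mul_le_mul_of_nonneg_left _ hM0
  have h4 : ((univ : Finset (Fin N × Fin N)).filter
      (fun q => 0 ≤ x q.1 - x q.2 ∧ x q.1 - x q.2 < A)) ⊆
      ((univ : Finset (Fin N × Fin N)).filter (fun q => x q.1 - x q.2 ∈ Set.Icc 0 A)) := by
    intro q hq
    simp only [mem_filter, mem_univ, true_and, Set.mem_Icc] at hq ⊢
    exact ⟨hq.1, hq.2.le⟩
  exact_mod_cast Finset.card_le_card h4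

lemma Fg_nonneg (u : ℝ) : 0 ≤ Fg u := by
  unfold Fg
  have h : (Real.sin (Real.pi * u) / (Real.pi * u)) ^ 2 ≤ 1 := by
    rw [div_pow]
    rcases eq_or_ne (Real.pi * u) 0 with h | h
    · rw [h]
      simp
    · rw [div_le_one (by positivity)]
      rw [sq_le_sq]
      exact Real.abs_sin_le_abs
  linarith

lemma Fg_le (u : ℝ) : Fg u ≤ 1 := by
  unfold Fg
  have : 0 ≤ (Real.sin (Real.pi * u) / (Real.pi * u)) ^ 2 := by positivity
  linarith

lemma Fg_meas : Measurable Fg := by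
  unfold Fg
  fun_prop

lemma ka_int : Integrable ka := by
  have h := integrable_inv_one_add_sq
  refine h.congr (Filter.Eventually.of_forall fun x => ?_)
  simp [ka]

lemma int_K {K : ℝ → ℝ} {B : ℝ} (hc : Continuous K) (h : ∀ u, 0 ≤ u → 0 ≤ K u ∧ K u ≤ B * ka u) :
    IntegrableOn (fun u => K u * Fg u) (Set.Ioi 0) := by
  have h1 : IntegrableOn (fun u => B * ka u) (Set.Ioi 0) := (ka_int.const_mul B).integrableOn
  refine Integrable.mono' h1 ((hc.measurable.mul Fg_meas).aestronglyMeasurable) ?_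
  rw [ae_restrict_iff' measurableSet_Ioi]
  refine Filter.Eventually.of_forall fun u hu => ?_
  have hu' : (0:ℝ) ≤ u := le_of_lt hu
  obtain ⟨h2, h3⟩ := h u hu'
  rw [Real.norm_eq_abs, abs_of_nonneg (mul_nonneg h2 (Fg_nonneg u))]
  calc K u * Fg u ≤ K u * 1 := mul_le_mul_of_nonneg_left (Fg_le u) h2
    _ ≤ B * ka u := by rw [mul_one]; exact h3

theorem t_B1 (hKN : S_KN) (hB0 : S_B0) (hNB : S_NB) (hUP : S_UP) : S_B1 := by
  intro C1 hC1
  obtain ⟨Ck, hCk, hk1, hk2⟩ := hKN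
  obtain ⟨CB, hCB, hnb⟩ := hNB C1 hC1
  refine ⟨8 * (Ck * CB), by positivity, ?_⟩
  intro D l hl A hA hup α β hAα hαβ ε hε
  have hα : 0 < α := hA.trans_le hAα
  obtain ⟨n0, hn0⟩ := hk2 α β hα hαβ
  -- choice of n
  obtain ⟨n, hn1, hn2, hn3⟩ : ∃ n : ℕ, n0 ≤ n ∧ 0 < n ∧
      8 * (1 + (C1 * (Real.sqrt n + 1) + 1) / 2) / (n * α ^ 2) ≤ ε := by
    have ht : Tendsto (fun n : ℕ => 8 * (1 + (C1 * (Real.sqrt n + 1) + 1) / 2) / (n * α ^ 2)) atTop
        (𝓝 0) := by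
      have t1 : Tendsto (fun n : ℕ => (Real.sqrt n)⁻¹) atTop (𝓝 0) :=
        tendsto_inv_atTop_zero.comp (Real.tendsto_sqrt_atTop.comp tendsto_natCast_atTop_atTop)
      have t2 : Tendsto (fun n : ℕ => ((n : ℝ))⁻¹) atTop (𝓝 0) :=
        tendsto_inv_atTop_zero.comp tendsto_natCast_atTop_atTop
      have t3 : Tendsto (fun n : ℕ => (8 / α ^ 2) * ((1 + (C1 + 1) / 2) * ((n : ℝ))⁻¹ +
          C1 / 2 * (Real.sqrt n)⁻¹)) atTop (𝓝 0) := by
        have := ((t2.const_mul (1 + (C1 + 1) / 2)).add (t1.const_mul (C1 / 2))).const_mul (8 / α ^ 2)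
        simpa using this
      refine t3.congr' ?_
      filter_upwards [eventually_gt_atTop 0] with n hn
      have hn' : (0:ℝ) < n := by exact_mod_cast hn
      have hs : Real.sqrt n ≠ 0 := (Real.sqrt_pos.mpr hn').ne'
      have hs2 : Real.sqrt n * Real.sqrt n = n := Real.mul_self_sqrt hn'.le
      have e1 : (Real.sqrt n)⁻¹ = Real.sqrt n / n := by
        rw [inv_eq_one_div, div_eq_div_iff hs hn'.ne', one_mul, hs2]
      rw [e1]
      field_simp
      ring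
    have h1 := (ht.eventually (ge_mem_nhds hε)).and ((eventually_ge_atTop n0).and
      (eventually_gt_atTop 0))
    obtain ⟨n, h2, h3, h4⟩ := h1.exists
    exact ⟨n, h3, h4, h2⟩
  obtain ⟨δ1, hδ1, hK1⟩ := hn0 n hn1
  obtain ⟨δ2, hδ2, hδ2', hK2⟩ := hB0 C1 D hC1 n
  obtain ⟨δ, hδ, hδle1, hδle2⟩ : ∃ δ : ℝ, 0 < δ ∧ δ ≤ δ1 ∧ δ ≤ δ2 :=
    ⟨min δ1 δ2, lt_min hδ1 hδ2, min_le_left _ _, min_le_right _ _⟩
  obtain ⟨hKc, hK0, hKe, hKb, B, hKB⟩ := hk1 n (1 / 12) δ (by norm_num) le_rfl hδ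
    (hδle2.trans hδ2')
  have hK3 := hK1 δ hδ hδle1
  have hK4 := hK2 δ hδ hδle2
  set K := Kn n (1 / 12) δ with hKdef
  have hn' : (0:ℝ) < n := by exact_mod_cast hn2
  have hKall : ∀ u, 0 ≤ u → 0 ≤ K u ∧ K u ≤ B * ka u := fun u hu => ⟨(hKb u hu).1, hKB u hu⟩
  have hU := hUP C1 D l hC1 hl A hA hup K B hKc hKall α β (n * α ^ 2 / 8) hAα hαβ (by positivity)
    hK3 1 one_pos
  have hR := hl D.hR
  have hNB' := hl (hnb D)
  have hB := hl hK4
  have hint := int_K hKc hKall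
  have hmono : (∫ u in Set.Ioi A, K u * Fg u) ≤ ∫ u in Set.Ioi (0:ℝ), K u * Fg u := by
    apply setIntegral_mono_set hint
    · rw [EventuallyLE, ae_restrict_iff' measurableSet_Ioi]
      refine Filter.Eventually.of_forall fun u hu => ?_
      exact mul_nonneg (hKall u (le_of_lt hu)).1 (Fg_nonneg u)
    · exact (Set.Ioi_subset_Ioi hA.le).eventuallyLE
  have hM : ∀ u, 0 ≤ u → u < A → K u ≤ Ck * n * A ^ 2 := by
    intro u hu huA
    refine (hKb u hu).2.trans ?_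
    apply mul_le_mul_of_nonneg_left _ (by positivity)
    exact pow_le_pow_left₀ hu huA.le 2
  filter_upwards [hU, hR, hNB', hB] with T h1 h2 h3 h4
  have h5 := ks_split (D.x T) h2 hA hM (by positivity)
  have h6 := pc_le (D.x T) h2 hA h3
  have h7 : Ck * n * A ^ 2 * pc (D.x T) (D.R T) 0 A ≤ Ck * n * A ^ 2 * (CB * (1 + A)) :=
    mul_le_mul_of_nonneg_left h6 (by positivity)
  have h8 : (n * α ^ 2 / 8) * ((∫ u in α..β, Fg u) - pc (D.x T) (D.R T) α β) ≤
      Ck * n * A ^ 2 * (CB * (1 + A)) + (1 + (C1 * (Real.sqrt n + 1) + 1) / 2) := by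
    linarith
  have hκ : (0:ℝ) < n * α ^ 2 / 8 := by positivity
  have h9 : (∫ u in α..β, Fg u) - pc (D.x T) (D.R T) α β ≤
      (Ck * n * A ^ 2 * (CB * (1 + A)) + (1 + (C1 * (Real.sqrt n + 1) + 1) / 2)) /
        (n * α ^ 2 / 8) := by
    rw [le_div_iff₀ hκ]
    linarith
  have h10 : (Ck * n * A ^ 2 * (CB * (1 + A)) + (1 + (C1 * (Real.sqrt n + 1) + 1) / 2)) /
        (n * α ^ 2 / 8) = 8 * (Ck * CB) * A ^ 2 * (1 + A) / α ^ 2 +
        8 * (1 + (C1 * (Real.sqrt n + 1) + 1) / 2) / (n * α ^ 2) := by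
    field_simp
  rw [h10] at h9
  linarith

end Pool.Agent.H606.OS.P.B1
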