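import Pool.Agent.H606.OS.Stm

open MeasureTheory Filter Topology Finset
open Pool.Agent.H606.OS

namespace Pool.Agent.H606.OS.P.CR

/-- the weighted sum of `1 / (1 + a |γ - τ|)` -/
theorem key {C0 : ℝ} (hC : 0 < C0) (D : ZD C0) (b T τ : ℝ) (hb : 0 < b) (hb1 : b ≤ 1) (hT : 10 ≤ T)
    (h0 : 0 ≤ τ) (hτ : τ ≤ T) :
    ∑ s ∈ D.ZG T, D.m s / (1 + b * Real.log T * |s.im - τ|) ≤ 6 * C0 * Real.log T / b := by
  have hL1 : 1 ≤ Real.log T := by
    rw [Real.le_log_iff_exp_le (by linarith)]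
    have := Real.exp_one_lt_d9
    linarith
  set L := Real.log T with hL
  set a := b * L with ha
  have ha0 : 0 < a := by positivity
  set N := ⌊T⌋₊ with hN
  have hmaps : ∀ s ∈ D.ZG T, ⌊|s.im - τ|⌋₊ ∈ range (N + 1) := by
    intro s hs
    obtain ⟨h1, h2, _, _⟩ := D.mem T s hs
    rw [Finset.mem_range, Nat.lt_succ_iff]
    apply Nat.floor_le_floor
    rw [abs_le]
    constructor <;> linarith
  rw [← Finset.sum_fiberwise_of_maps_to hmaps]
  have hbin : ∀ j : ℕ, ∑ s ∈ (D.ZG T).filter (fun s => ⌊|s.im - τ|⌋₊ = j), D.m s ≤ 2 * C0 * L := by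
    intro j
    set A := (D.ZG T).filter (fun s => |s.im - (τ + j)| ≤ 1) with hA
    set B := (D.ZG T).filter (fun s => |s.im - (τ - j)| ≤ 1) with hB
    have hsub : (D.ZG T).filter (fun s => ⌊|s.im - τ|⌋₊ = j) ⊆ A ∪ B := by
      intro s hs
      rw [Finset.mem_filter] at hs
      obtain ⟨hs1, hs2⟩ := hs
      have hfl1 : (j : ℝ) ≤ |s.im - τ| := by
        rw [← hs2]; exact Nat.floor_le (abs_nonneg _)
      have hfl2 : |s.im - τ| < j + 1 := by
        rw [← hs2]; exact Nat.lt_floor_add_one _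
      rw [Finset.mem_union, hA, hB, Finset.mem_filter, Finset.mem_filter]
      rcases le_total 0 (s.im - τ) with h | h
      · rw [abs_of_nonneg h] at hfl1 hfl2
        left
        refine ⟨hs1, ?_⟩
        rw [abs_le]
        constructor <;> linarith
      · rw [abs_of_nonpos h] at hfl1 hfl2
        right
        refine ⟨hs1, ?_⟩
        rw [abs_le]
        constructor <;> linarith
    have h1 := Finset.sum_le_sum_of_subset_of_nonneg (f := D.m) hsub (fun s _ _ => D.hm s)
    have h2 : ∑ s ∈ A ∪ B, D.m s + ∑ s ∈ A ∩ B, D.m s = ∑ s ∈ A, D.m s + ∑ s ∈ B, D.m s :=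
      Finset.sum_union_inter
    have h3 : 0 ≤ ∑ s ∈ A ∩ B, D.m s := Finset.sum_nonneg (fun s _ => D.hm s)
    have h4 := D.loc T hT (τ + j)
    have h5 := D.loc T hT (τ - j)
    have h6 : ∑ s ∈ A, D.m s ≤ C0 * L := h4
    have h7 : ∑ s ∈ B, D.m s ≤ C0 * L := h5
    linarith
  have hstep : ∀ j ∈ range (N + 1),
      ∑ s ∈ (D.ZG T).filter (fun s => ⌊|s.im - τ|⌋₊ = j), D.m s / (1 + a * |s.im - τ|)
        ≤ 2 * C0 * L * (1 / (1 + a * j)) := by
    intro j _
    have h1 : ∑ s ∈ (D.ZG T).filter (fun s => ⌊|s.im - τ|⌋₊ = j), D.m s / (1 + a * |s.im - τ|)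
        ≤ ∑ s ∈ (D.ZG T).filter (fun s => ⌊|s.im - τ|⌋₊ = j), D.m s * (1 / (1 + a * j)) := by
      apply Finset.sum_le_sum
      intro s hs
      rw [Finset.mem_filter] at hs
      have hfl1 : (j : ℝ) ≤ |s.im - τ| := by
        rw [← hs.2]; exact Nat.floor_le (abs_nonneg _)
      rw [div_eq_mul_one_div]
      apply mul_le_mul_of_nonneg_left _ (D.hm s)
      apply one_div_le_one_div_of_le
      · positivity
      · have := mul_le_mul_of_nonneg_left hfl1 ha0.le
        linarith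
    rw [← Finset.sum_mul] at h1
    refine h1.trans ?_
    apply mul_le_mul_of_nonneg_right (hbin j)
    positivity
  refine (Finset.sum_le_sum hstep).trans ?_
  rw [← Finset.mul_sum]
  have hharm : ∑ j ∈ range (N + 1), 1 / (1 + a * (j : ℝ)) ≤ 3 / b := by
    rw [Finset.sum_range_succ']
    have h1 : ∀ j ∈ range N, 1 / (1 + a * ((j + 1 : ℕ) : ℝ)) ≤ 1 / a * ((j : ℝ) + 1)⁻¹ := by
      intro j _
      rw [← one_div, ← mul_div_mul_comm, one_mul]
      apply one_div_le_one_div_of_le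
      · positivity
      · push_cast
        linarith
    have h2 := Finset.sum_le_sum h1
    rw [← Finset.mul_sum] at h2
    have h3 : (∑ j ∈ range N, ((j : ℝ) + 1)⁻¹) = (harmonic N : ℝ) := by
      rw [harmonic]
      push_cast
      rfl
    have h4 := harmonic_le_one_add_log N
    have h5 : Real.log N ≤ L := by
      have hN1 : 1 ≤ N := by
        rw [hN]
        exact Nat.le_floor (by push_cast; linarith)
      apply Real.log_le_log
      · exact_mod_cast hN1
      · exact Nat.floor_le (by linarith)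
    have h6 : (∑ j ∈ range N, ((j : ℝ) + 1)⁻¹) ≤ 2 * L := by
      rw [h3]
      linarith
    have h7 : 1 / a * (∑ j ∈ range N, ((j : ℝ) + 1)⁻¹) ≤ 1 / a * (2 * L) :=
      mul_le_mul_of_nonneg_left h6 (by positivity)
    have h8 : 1 / a * (2 * L) = 2 / b := by
      rw [ha]
      field_simp
    have h9 : 1 / (1 + a * ((0 : ℕ) : ℝ)) = 1 := by simp
    have h10 : (1 : ℝ) ≤ 1 / b := by
      rw [le_div_iff₀ hb]
      linarith
    rw [h9]
    have h11 : 3 / b = 2 / b + 1 / b := by ring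
    rw [h11]
    linarith
  have h12 : 2 * C0 * L * (∑ j ∈ range (N + 1), 1 / (1 + a * (j : ℝ))) ≤ 2 * C0 * L * (3 / b) :=
    mul_le_mul_of_nonneg_left hharm (by positivity)
  refine h12.trans (le_of_eq ?_)
  ring

theorem ka_le (a x y : ℝ) (ha : 0 ≤ a) (hx : 0 ≤ x) (hy : 0 ≤ y) :
    ka (a * (-x - y)) ≤ 2 * (1 / (1 + a * x)) * (1 / (1 + a * y)) := by
  unfold ka
  have h1 : 0 < (1 + a * x) * (1 + a * y) := by positivity
  have h2 : 2 * (1 / (1 + a * x)) * (1 / (1 + a * y)) = 2 / ((1 + a * x) * (1 + a * y)) := by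
    field_simp
  rw [h2, div_le_div_iff₀ (by positivity) h1]
  nlinarith [sq_nonneg (a * (x + y) - 1), sq_nonneg (a * x - a * y), mul_nonneg ha hx,
    mul_nonneg ha hy, sq_nonneg (a * (x + y))]

theorem t_CR : S_CR := by
  intro C0 hC0
  refine ⟨72 * C0 ^ 2, by positivity, ?_⟩
  intro D b hb hb1 T hT τ
  have hL1 : 1 ≤ Real.log T := by
    rw [Real.le_log_iff_exp_le (by linarith)]
    have := Real.exp_one_lt_d9
    linarith
  have hR0 : 0 ≤ 72 * C0 ^ 2 / b ^ 2 * Real.log T ^ 2 := by positivity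
  by_cases h0 : 0 ≤ τ
  swap
  · have hemp : (D.ZG T).filter (fun s => s.im ≤ τ) = ∅ := by
      rw [Finset.filter_eq_empty_iff]
      intro s hs h
      have := (D.mem T s hs).1
      push Not at h0
      linarith
    rw [hemp, Finset.sum_empty]
    exact hR0
  by_cases h1 : τ ≤ T
  swap
  · have hemp : (D.ZG T).filter (fun s => τ < s.im) = ∅ := by
      rw [Finset.filter_eq_empty_iff]
      intro s hs h
      have := (D.mem T s hs).2.1
      push Not at h1
      linarith
    rw [hemp]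
    simp only [Finset.sum_empty, Finset.sum_const_zero]
    exact hR0
  have hkey := key hC0 D b T τ hb hb1 hT h0 h1
  set L := Real.log T with hL
  set a := b * L with ha
  have ha0 : 0 ≤ a := by positivity
  set g : ℂ → ℝ := fun s => D.m s / (1 + a * |s.im - τ|) with hg
  have hg0 : ∀ s, 0 ≤ g s := fun s => div_nonneg (D.hm s) (by positivity)
  have hpair : ∑ s ∈ (D.ZG T).filter (fun s => s.im ≤ τ),
      ∑ s' ∈ (D.ZG T).filter (fun s => τ < s.im), D.m s * D.m s' * ka (a * (s.im - s'.im))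
      ≤ ∑ s ∈ (D.ZG T).filter (fun s => s.im ≤ τ),
      ∑ s' ∈ (D.ZG T).filter (fun s => τ < s.im), 2 * (g s * g s') := by
    apply Finset.sum_le_sum
    intro s hs
    apply Finset.sum_le_sum
    intro s' hs'
    rw [Finset.mem_filter] at hs hs'
    have hx : 0 ≤ τ - s.im := by linarith [hs.2]
    have hy : 0 ≤ s'.im - τ := by linarith [hs'.2]
    have hk := ka_le a (τ - s.im) (s'.im - τ) ha0 hx hy
    have harg : a * (-(τ - s.im) - (s'.im - τ)) = a * (s.im - s'.im) := by ring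
    rw [harg] at hk
    have hm := mul_le_mul_of_nonneg_left hk (mul_nonneg (D.hm s) (D.hm s'))
    refine hm.trans (le_of_eq ?_)
    simp only [hg]
    rw [abs_of_nonneg hy, abs_of_nonpos (by linarith : s.im - τ ≤ 0), neg_sub]
    ring
  refine hpair.trans ?_
  have hsum : ∑ s ∈ (D.ZG T).filter (fun s => s.im ≤ τ),
      ∑ s' ∈ (D.ZG T).filter (fun s => τ < s.im), 2 * (g s * g s')
      = 2 * ((∑ s ∈ (D.ZG T).filter (fun s => s.im ≤ τ), g s) *
        ∑ s' ∈ (D.ZG T).filter (fun s => τ < s.im), g s') := by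
    rw [Finset.sum_mul_sum, Finset.mul_sum]
    refine Finset.sum_congr rfl (fun s _ => ?_)
    rw [Finset.mul_sum]
  rw [hsum]
  have hA : ∑ s ∈ (D.ZG T).filter (fun s => s.im ≤ τ), g s ≤ 6 * C0 * L / b :=
    (Finset.sum_le_sum_of_subset_of_nonneg (Finset.filter_subset _ _) (fun s _ _ => hg0 s)).trans
      hkey
  have hB : ∑ s ∈ (D.ZG T).filter (fun s => τ < s.im), g s ≤ 6 * C0 * L / b :=
    (Finset.sum_le_sum_of_subset_of_nonneg (Finset.filter_subset _ _) (fun s _ _ => hg0 s)).trans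
      hkey
  have hA0 : 0 ≤ ∑ s ∈ (D.ZG T).filter (fun s => s.im ≤ τ), g s :=
    Finset.sum_nonneg (fun s _ => hg0 s)
  have hB0 : 0 ≤ ∑ s ∈ (D.ZG T).filter (fun s => τ < s.im), g s :=
    Finset.sum_nonneg (fun s _ => hg0 s)
  have hprod := mul_le_mul hA hB hB0 (by positivity)
  have : 72 * C0 ^ 2 / b ^ 2 * L ^ 2 = 2 * (6 * C0 * L / b * (6 * C0 * L / b)) := by
    field_simp
    ring
  rw [this]
  linarith

end Pool.Agent.H606.OS.P.CR
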