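import Pool.Agent.H606.OS.Stm
import Pool.Agent.H444.Kern

/-!
# Project OS (helper606): removing the Gaussian factor (task GK, helper115)
-/

open MeasureTheory Filter Topology Finset
open Pool.Agent.H606.OS

namespace Pool.Agent.H606.OS.P.GK

theorem fz_eq_SS (z : ℂ) : fz z = Pool.Agent.H444.SS z := by
  unfold fz Pool.Agent.H444.SS
  refine intervalIntegral.integral_congr fun u hu => ?_
  rw [Set.uIcc_of_le (by norm_num)] at hu
  have h1 : Pool.Agent.H444.tent u = 1 - |u| := by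
    unfold Pool.Agent.H444.tent
    have h2 : |u| ≤ 1 := abs_le.2 ⟨by linarith [hu.1], hu.2⟩
    rw [max_eq_right]
    linarith
  simp only [h1]

theorem cont_int (z : ℂ) :
    Continuous fun u : ℝ => (((1 - |u| : ℝ)) : ℂ) * Complex.exp (Complex.I * u * z) := by
  fun_prop

/-- The real part of the kernel. -/
theorem fc_eq (p q : ℝ) : (fc p q : ℂ) = (fz ((p : ℂ) + Complex.I * q) +
    fz ((p : ℂ) - Complex.I * q)) / 2 := by
  unfold fz
  rw [← intervalIntegral.integral_add ((cont_int _).intervalIntegrable _ _)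
    ((cont_int _).intervalIntegrable _ _), ← intervalIntegral.integral_div]
  have h1 : ∀ u : ℝ, ((((1 - |u| : ℝ)) : ℂ) * Complex.exp (Complex.I * u * ((p : ℂ) + Complex.I * q)) +
      (((1 - |u| : ℝ)) : ℂ) * Complex.exp (Complex.I * u * ((p : ℂ) - Complex.I * q))) / 2 =
      (((1 - |u|) * Real.cos (u * p) * Real.cosh (u * q) : ℝ) : ℂ) +
        (((1 - |u|) * Real.sin (u * p) * Real.cosh (u * q) : ℝ) : ℂ) * Complex.I := by
    intro u
    have e1 : Complex.I * u * ((p : ℂ) + Complex.I * q) = ((u * p : ℝ) : ℂ) * Complex.I +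
        (-((u * q : ℝ) : ℂ)) := by
      push_cast
      linear_combination (u * q : ℂ) * Complex.I_sq
    have e2 : Complex.I * u * ((p : ℂ) - Complex.I * q) = ((u * p : ℝ) : ℂ) * Complex.I +
        ((u * q : ℝ) : ℂ) := by
      push_cast
      linear_combination (-(u * q) : ℂ) * Complex.I_sq
    rw [e1, e2, Complex.exp_add, Complex.exp_add, Complex.exp_mul_I]
    have e3 : ((Real.cosh (u * q) : ℝ) : ℂ) =
        (Complex.exp ((u * q : ℝ) : ℂ) + Complex.exp (-((u * q : ℝ) : ℂ))) / 2 := by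
      rw [Complex.ofReal_cosh, Complex.cosh]
    push_cast at e3 ⊢
    rw [e3]
    ring
  rw [intervalIntegral.integral_congr (g := fun u : ℝ =>
    (((1 - |u|) * Real.cos (u * p) * Real.cosh (u * q) : ℝ) : ℂ) +
        (((1 - |u|) * Real.sin (u * p) * Real.cosh (u * q) : ℝ) : ℂ) * Complex.I)
    (fun u _ => h1 u)]
  have c1 : Continuous fun u : ℝ => (1 - |u|) * Real.cos (u * p) * Real.cosh (u * q) := by fun_prop
  have c2 : Continuous fun u : ℝ => (1 - |u|) * Real.sin (u * p) * Real.cosh (u * q) := by fun_prop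
  have i1 : IntervalIntegrable (fun u : ℝ =>
      (((1 - |u|) * Real.cos (u * p) * Real.cosh (u * q) : ℝ) : ℂ)) volume (-1) 1 :=
    (Complex.continuous_ofReal.comp c1).intervalIntegrable _ _
  have i2 : IntervalIntegrable (fun u : ℝ =>
      (((1 - |u|) * Real.sin (u * p) * Real.cosh (u * q) : ℝ) : ℂ) * Complex.I) volume (-1) 1 :=
    ((Complex.continuous_ofReal.comp c2).mul continuous_const).intervalIntegrable _ _
  rw [intervalIntegral.integral_add i1 i2, intervalIntegral.integral_mul_const, intervalIntegral.integral_ofReal,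
    intervalIntegral.integral_ofReal]
  have h2 : ∫ u in (-1 : ℝ)..1, (1 - |u|) * Real.sin (u * p) * Real.cosh (u * q) = 0 := by
    have h3 : ∫ u in (-1 : ℝ)..1, (1 - |(-u)|) * Real.sin ((-u) * p) * Real.cosh ((-u) * q) =
        ∫ u in (-1 : ℝ)..1, (1 - |u|) * Real.sin (u * p) * Real.cosh (u * q) := by
      rw [intervalIntegral.integral_comp_neg
        (fun u : ℝ => (1 - |u|) * Real.sin (u * p) * Real.cosh (u * q)), neg_neg]
    have h4 : ∫ u in (-1 : ℝ)..1, (1 - |(-u)|) * Real.sin ((-u) * p) * Real.cosh ((-u) * q) =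
        -∫ u in (-1 : ℝ)..1, (1 - |u|) * Real.sin (u * p) * Real.cosh (u * q) := by
      rw [← intervalIntegral.integral_neg]
      refine intervalIntegral.integral_congr fun u _ => ?_
      simp only [abs_neg, neg_mul, Real.sin_neg, Real.cosh_neg]
      ring
    linarith
  rw [h2]
  unfold fc
  simp

theorem fz_bound {a x y : ℝ} (ha : 1 ≤ a) (hz : (x : ℂ) + Complex.I * y ≠ 0) :
    ‖fz ((a : ℂ) * (x + Complex.I * y))‖ ≤ 4 * Real.exp (a * |y|) / (a ^ 2 * (x ^ 2 + y ^ 2)) := by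
  have ha0 : (a : ℂ) ≠ 0 := by
    have : a ≠ 0 := by linarith
    exact_mod_cast this
  have hn : ‖(x : ℂ) + Complex.I * y‖ ^ 2 = x ^ 2 + y ^ 2 := by
    rw [← Complex.normSq_eq_norm_sq, mul_comm Complex.I, Complex.normSq_add_mul_I]
  rw [fz_eq_SS, Pool.Agent.H444.SS_eq (mul_ne_zero ha0 hz), norm_div]
  have h1 : ‖(Complex.I * ((a : ℂ) * (x + Complex.I * y))) ^ 2‖ = a ^ 2 * (x ^ 2 + y ^ 2) := by
    rw [norm_pow, norm_mul, norm_mul, Complex.norm_I, one_mul, mul_pow, hn, Complex.norm_real,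
      Real.norm_eq_abs, sq_abs]
  rw [h1]
  have hpos : 0 ≤ a ^ 2 * (x ^ 2 + y ^ 2) := by positivity
  refine div_le_div_of_nonneg_right ?_ hpos
  have he : Complex.I * ((a : ℂ) * (x + Complex.I * y)) = ((-(a * y) : ℝ) : ℂ) +
      ((a * x : ℝ) : ℂ) * Complex.I := by
    push_cast
    linear_combination (a * y : ℂ) * Complex.I_sq
  have hay : |a * y| = a * |y| := by rw [abs_mul, abs_of_nonneg (by linarith)]
  have h2 : ‖Complex.exp (Complex.I * ((a : ℂ) * (x + Complex.I * y)))‖ ≤ Real.exp (a * |y|) := by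
    rw [he, Complex.norm_exp]
    apply Real.exp_le_exp.2
    simp only [Complex.add_re, Complex.ofReal_re, Complex.mul_re, Complex.I_re, Complex.ofReal_im,
      Complex.I_im, mul_zero, zero_mul, sub_zero, add_zero]
    rw [← hay]
    exact neg_le_abs _
  have h3 : ‖Complex.exp (-(Complex.I * ((a : ℂ) * (x + Complex.I * y))))‖ ≤
      Real.exp (a * |y|) := by
    rw [he, Complex.norm_exp]
    apply Real.exp_le_exp.2
    simp only [Complex.neg_re, Complex.add_re, Complex.ofReal_re, Complex.mul_re, Complex.I_re,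
      Complex.ofReal_im, Complex.I_im, mul_zero, zero_mul, sub_zero, add_zero, neg_neg]
    rw [← hay]
    exact le_abs_self _
  have h4 : 1 ≤ Real.exp (a * |y|) := Real.one_le_exp (by positivity)
  calc ‖Complex.exp (Complex.I * ((a : ℂ) * (x + Complex.I * y))) +
        Complex.exp (-(Complex.I * ((a : ℂ) * (x + Complex.I * y)))) - 2‖
      ≤ ‖Complex.exp (Complex.I * ((a : ℂ) * (x + Complex.I * y)))‖ +
        ‖Complex.exp (-(Complex.I * ((a : ℂ) * (x + Complex.I * y))))‖ + ‖(2 : ℂ)‖ :=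
        (norm_sub_le _ _).trans (add_le_add_left (norm_add_le _ _) _)
    _ ≤ 4 * Real.exp (a * |y|) := by
        have : ‖(2 : ℂ)‖ = 2 := by simp
        rw [this]
        linarith

theorem exp_bound {x y : ℝ} (hy : |y| ≤ 1 / 2) :
    ‖Complex.exp (-((x : ℂ) + Complex.I * y) ^ 2 / 2) - 1‖ ≤
      9 / 2 * (x ^ 2 + y ^ 2) / (1 + x ^ 2) := by
  have hn : ‖(x : ℂ) + Complex.I * y‖ ^ 2 = x ^ 2 + y ^ 2 := by
    rw [← Complex.normSq_eq_norm_sq, mul_comm Complex.I, Complex.normSq_add_mul_I]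
  have hw : ‖-((x : ℂ) + Complex.I * y) ^ 2 / 2‖ = (x ^ 2 + y ^ 2) / 2 := by
    rw [norm_div, norm_neg, norm_pow, hn]
    simp
  have hy2 : y ^ 2 ≤ 1 / 4 := by
    have := abs_le.1 hy
    nlinarith [this.1, this.2]
  rcases le_or_gt (x ^ 2 + y ^ 2) 2 with h | h
  · have h1 := Complex.norm_exp_sub_one_le (x := -((x : ℂ) + Complex.I * y) ^ 2 / 2) (by
      rw [hw]
      linarith)
    rw [hw] at h1
    refine h1.trans ?_
    rw [le_div_iff₀ (by positivity)]
    nlinarith [sq_nonneg x, sq_nonneg y]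
  · have h1 : ‖Complex.exp (-((x : ℂ) + Complex.I * y) ^ 2 / 2)‖ ≤ 2 := by
      have e1 : -((x : ℂ) + Complex.I * y) ^ 2 / 2 = (((y ^ 2 - x ^ 2) / 2 : ℝ) : ℂ) +
          ((-(x * y) : ℝ) : ℂ) * Complex.I := by
        push_cast
        linear_combination (-(y ^ 2) / 2 : ℂ) * Complex.I_sq
      rw [e1, Complex.norm_exp]
      simp only [Complex.add_re, Complex.ofReal_re, Complex.mul_re, Complex.I_re,
        Complex.ofReal_im, Complex.I_im, mul_zero, zero_mul, sub_zero, add_zero]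
      have h2 : Real.exp ((y ^ 2 - x ^ 2) / 2) ≤ Real.exp 0 := by
        apply Real.exp_le_exp.2
        nlinarith
      rw [Real.exp_zero] at h2
      linarith
    have h2 : ‖Complex.exp (-((x : ℂ) + Complex.I * y) ^ 2 / 2) - 1‖ ≤ 3 := by
      refine (norm_sub_le _ _).trans ?_
      rw [norm_one]
      linarith
    refine h2.trans ?_
    rw [le_div_iff₀ (by positivity)]
    nlinarith [sq_nonneg x, sq_nonneg y]

theorem prod_bound {a x y : ℝ} (ha : 1 ≤ a) (hy : |y| ≤ 1 / 2) :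
    ‖fz ((a : ℂ) * (x + Complex.I * y)) *
      (Complex.exp (-((x : ℂ) + Complex.I * y) ^ 2 / 2) - 1)‖ ≤
      18 * Real.exp (a * |y|) / a ^ 2 * ka x := by
  have ha0 : 0 < a := by linarith
  by_cases hz : (x : ℂ) + Complex.I * y = 0
  · rw [hz]
    have : Complex.exp (-(0 : ℂ) ^ 2 / 2) - 1 = 0 := by simp
    rw [this, mul_zero, norm_zero]
    unfold ka
    positivity
  · have hn : ‖(x : ℂ) + Complex.I * y‖ ^ 2 = x ^ 2 + y ^ 2 := by
      rw [← Complex.normSq_eq_norm_sq, mul_comm Complex.I, Complex.normSq_add_mul_I]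
    have hpos : 0 < x ^ 2 + y ^ 2 := by
      rw [← hn]
      have := norm_pos_iff.2 hz
      positivity
    rw [norm_mul]
    refine (mul_le_mul (fz_bound ha hz) (exp_bound hy) (norm_nonneg _) (by positivity)).trans ?_
    unfold ka
    apply le_of_eq
    field_simp
    ring

theorem t_GK : S_GK := by
  refine ⟨18, by norm_num, fun a x y ha hy => ?_⟩
  have h1 : ((a * x : ℝ) : ℂ) + Complex.I * ((a * y : ℝ) : ℂ) = (a : ℂ) * (x + Complex.I * y) := by
    push_cast
    ring
  have h2 : ((a * x : ℝ) : ℂ) - Complex.I * ((a * y : ℝ) : ℂ) = (a : ℂ) * (x - Complex.I * y) := by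
    push_cast
    ring
  rw [fc_eq, h1, h2]
  have h3 : (x : ℂ) - Complex.I * y = (x : ℂ) + Complex.I * ((-y : ℝ) : ℂ) := by
    push_cast
    ring
  have h4 := prod_bound (x := x) ha hy
  have h5 := prod_bound (x := x) (y := -y) ha (by rwa [abs_neg])
  rw [abs_neg, ← h3] at h5
  have h6 : (fz ((a : ℂ) * (x + Complex.I * y)) * Complex.exp (-(x + Complex.I * y) ^ 2 / 2) +
      fz ((a : ℂ) * (x - Complex.I * y)) * Complex.exp (-(x - Complex.I * y) ^ 2 / 2)) / 2 -
      (fz ((a : ℂ) * (x + Complex.I * y)) + fz ((a : ℂ) * (x - Complex.I * y))) / 2 =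
      (fz ((a : ℂ) * (x + Complex.I * y)) *
        (Complex.exp (-((x : ℂ) + Complex.I * y) ^ 2 / 2) - 1) +
      fz ((a : ℂ) * (x - Complex.I * y)) *
        (Complex.exp (-((x : ℂ) - Complex.I * y) ^ 2 / 2) - 1)) / 2 := by
    ring
  rw [h6, norm_div]
  have h7 : ‖(2 : ℂ)‖ = 2 := by simp
  rw [h7]
  have h8 := norm_add_le (fz ((a : ℂ) * (x + Complex.I * y)) *
        (Complex.exp (-((x : ℂ) + Complex.I * y) ^ 2 / 2) - 1))
      (fz ((a : ℂ) * (x - Complex.I * y)) *
        (Complex.exp (-((x : ℂ) - Complex.I * y) ^ 2 / 2) - 1))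
  rw [div_le_iff₀ (by norm_num : (0 : ℝ) < 2)]
  linarith

end Pool.Agent.H606.OS.P.GK
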