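import Pool.Agent.H606.OS.Stm

/-!
# Project OS, task GUE: the pair sum of the sine process
-/

open MeasureTheory Filter Topology Finset
open Pool.Agent.H606.OS
open scoped FourierTransform

namespace Pool.Agent.H606.OS.P.GUE

/-- the tent function -/
noncomputable def tau (v : ℝ) : ℝ := max 0 (1 - |v|)

theorem tau_cont : Continuous tau := by
  unfold tau
  fun_prop

theorem tau_nonneg (v : ℝ) : 0 ≤ tau v := le_max_left _ _

theorem tau_le_one (v : ℝ) : tau v ≤ 1 := by
  unfold tau
  exact max_le zero_le_one (by linarith [abs_nonneg v])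

theorem tau_eq_zero {v : ℝ} (h : 1 ≤ |v|) : tau v = 0 := by
  unfold tau
  exact max_eq_left (by linarith)

theorem tau_eq {v : ℝ} (h : |v| ≤ 1) : tau v = 1 - |v| := by
  unfold tau
  exact max_eq_right (by linarith)

theorem tau_neg (v : ℝ) : tau (-v) = tau v := by
  unfold tau
  rw [abs_neg]

/-- tent squared, complex-valued -/
noncomputable def f (v : ℝ) : ℂ := ((tau v ^ 2 : ℝ) : ℂ)

theorem f_cont : Continuous f := by
  unfold f
  exact Complex.continuous_ofReal.comp (tau_cont.pow 2)

theorem tau_sq_int (g : ℝ → ℝ) (hg : Continuous g) :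
    Integrable (fun v => g v * tau v ^ 2) := by
  apply Continuous.integrable_of_hasCompactSupport
  · exact hg.mul (tau_cont.pow 2)
  · apply HasCompactSupport.intro (isCompact_Icc (a := (-1 : ℝ)) (b := 1))
    intro x hx
    have h1 : 1 ≤ |x| := by
      by_contra hc
      push Not at hc
      exact hx ⟨by linarith [neg_abs_le x], by linarith [le_abs_self x]⟩
    simp [tau_eq_zero h1]

theorem f_int : Integrable f := by
  have h := (tau_sq_int (fun _ => 1) continuous_const).ofReal (𝕜 := ℂ)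
  refine h.congr (Eventually.of_forall fun v => ?_)
  simp [f]

/-- the integral over the line against tent squared is an integral over `[-1,1]` -/
theorem int_tau (g : ℝ → ℝ) :
    ∫ v, g v * tau v ^ 2 = ∫ v in (-1 : ℝ)..1, g v * (1 - |v|) ^ 2 := by
  rw [intervalIntegral.integral_of_le (by norm_num)]
  have h1 : ∫ v in Set.Ioc (-1 : ℝ) 1, g v * (1 - |v|) ^ 2 =
      ∫ v in Set.Ioc (-1 : ℝ) 1, g v * tau v ^ 2 := by
    apply setIntegral_congr_fun measurableSet_Ioc
    intro v hv
    have : |v| ≤ 1 := abs_le.2 ⟨hv.1.le, hv.2⟩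
    simp only [tau_eq this]
  rw [h1]
  symm
  apply setIntegral_eq_integral_of_forall_compl_eq_zero
  intro v hv
  have h2 : 1 ≤ |v| := by
    by_contra hc
    push Not at hc
    exact hv ⟨by linarith [neg_abs_le v], by linarith [le_abs_self v]⟩
  simp [tau_eq_zero h2]

theorem fourier_f (ξ : ℝ) : 𝓕 f ξ = ((kk (2 * Real.pi * ξ) : ℝ) : ℂ) := by
  rw [Real.fourier_real_eq_integral_exp_smul]
  have hI : Integrable (fun v : ℝ =>
      Complex.exp (↑(-2 * Real.pi * v * ξ) * Complex.I) • f v) := by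
    have h := f_int.norm
    refine Integrable.mono' h ?_ (Eventually.of_forall fun v => ?_)
    · apply Continuous.aestronglyMeasurable
      have := f_cont
      fun_prop
    · rw [norm_smul, Complex.norm_exp_ofReal_mul_I, one_mul]
  apply Complex.ext
  · have h1 : (∫ v : ℝ, Complex.exp (↑(-2 * Real.pi * v * ξ) * Complex.I) • f v).re =
        ∫ v : ℝ, (Complex.exp (↑(-2 * Real.pi * v * ξ) * Complex.I) • f v).re := by
      have := Complex.reCLM.integral_comp_comm hI
      simpa using this.symm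
    rw [h1, Complex.ofReal_re]
    unfold kk
    have h2 := int_tau (fun v => Real.cos (v * (2 * Real.pi * ξ)))
    have h3 : ∫ v in (-1 : ℝ)..1, (1 - |v|) ^ 2 * Real.cos (v * (2 * Real.pi * ξ)) =
        ∫ v in (-1 : ℝ)..1, Real.cos (v * (2 * Real.pi * ξ)) * (1 - |v|) ^ 2 := by
      congr 1
      ext v
      ring
    rw [h3, ← h2]
    congr 1
    ext v
    rw [smul_eq_mul, f, Complex.re_mul_ofReal, Complex.exp_ofReal_mul_I_re]
    congr 1
    rw [← Real.cos_neg]
    congr 1
    ring
  · have h1 : (∫ v : ℝ, Complex.exp (↑(-2 * Real.pi * v * ξ) * Complex.I) • f v).im =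
        ∫ v : ℝ, (Complex.exp (↑(-2 * Real.pi * v * ξ) * Complex.I) • f v).im := by
      have := Complex.imCLM.integral_comp_comm hI
      simpa using this.symm
    rw [h1, Complex.ofReal_im]
    have h2 : ∀ v : ℝ, (Complex.exp (↑(-2 * Real.pi * v * ξ) * Complex.I) • f v).im =
        Real.sin (-2 * Real.pi * v * ξ) * tau v ^ 2 := by
      intro v
      rw [smul_eq_mul, f, Complex.im_mul_ofReal, Complex.exp_ofReal_mul_I_im]
    simp_rw [h2]
    have h3 := integral_neg_eq_self (fun v => Real.sin (-2 * Real.pi * v * ξ) * tau v ^ 2)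
      (volume : Measure ℝ)
    have h4 : ∀ v : ℝ, Real.sin (-2 * Real.pi * (-v) * ξ) * tau (-v) ^ 2 =
        -(Real.sin (-2 * Real.pi * v * ξ) * tau v ^ 2) := by
      intro v
      rw [tau_neg]
      have : -2 * Real.pi * (-v) * ξ = -(-2 * Real.pi * v * ξ) := by ring
      rw [this, Real.sin_neg]
      ring
    simp_rw [h4] at h3
    rw [integral_neg] at h3
    linarith

theorem ka_int : Integrable ka := by
  unfold ka
  simpa using integrable_inv_one_add_sq

theorem kk_int (hKK : S_KK) : Integrable kk := by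
  obtain ⟨C, hC1, hc, h0, hev, hnn, -, hb, -⟩ := hKK
  refine Integrable.mono' (ka_int.const_mul C) hc.aestronglyMeasurable
    (Eventually.of_forall fun x => ?_)
  rw [Real.norm_eq_abs, abs_of_nonneg (hnn x)]
  exact hb x

theorem kk_scale_int (hKK : S_KK) {c : ℝ} (hc : c ≠ 0) : Integrable (fun u => kk (c * u)) := by
  exact (kk_int hKK).comp_mul_left' hc

theorem inv_f (hKK : S_KK) (v : ℝ) :
    ∫ ξ, kk (2 * Real.pi * ξ) * Real.cos (2 * Real.pi * v * ξ) = tau v ^ 2 := by
  have hpi : (2 * Real.pi) ≠ 0 := by positivity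
  have hI : Integrable (fun u => kk (2 * Real.pi * u)) := kk_scale_int hKK hpi
  have hF : 𝓕 f = fun ξ => ((kk (2 * Real.pi * ξ) : ℝ) : ℂ) := funext fourier_f
  have hFI : Integrable (𝓕 f) := by
    rw [hF]
    exact hI.ofReal
  have h1 := Continuous.fourierInv_fourier_eq f_cont f_int hFI
  have h2 := congrFun h1 v
  rw [Real.fourierInv_eq', hF] at h2
  have h3 := congrArg Complex.re h2
  have hI2 : Integrable (fun w : ℝ => Complex.exp (↑(2 * Real.pi * inner ℝ w v) * Complex.I) •
      ((kk (2 * Real.pi * w) : ℝ) : ℂ)) := by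
    have hkc : Continuous kk := by
      obtain ⟨C, hC1, hc, -⟩ := hKK
      exact hc
    refine Integrable.mono' hI.norm ?_ (Eventually.of_forall fun w => ?_)
    · apply Continuous.aestronglyMeasurable
      have h5 : Continuous (fun w : ℝ => ((kk (2 * Real.pi * w) : ℝ) : ℂ)) :=
        Complex.continuous_ofReal.comp (hkc.comp (by fun_prop))
      have h6 : Continuous (fun w : ℝ => Complex.exp (↑(2 * Real.pi * inner ℝ w v) * Complex.I)) := by
        fun_prop
      exact h6.smul h5
    · rw [norm_smul, Complex.norm_exp_ofReal_mul_I, one_mul]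
      simp
  have h4 : (∫ w : ℝ, Complex.exp (↑(2 * Real.pi * inner ℝ w v) * Complex.I) •
      ((kk (2 * Real.pi * w) : ℝ) : ℂ)).re =
      ∫ w : ℝ, (Complex.exp (↑(2 * Real.pi * inner ℝ w v) * Complex.I) •
      ((kk (2 * Real.pi * w) : ℝ) : ℂ)).re := by
    have := Complex.reCLM.integral_comp_comm hI2
    simpa using this.symm
  rw [h4, f, Complex.ofReal_re] at h3
  rw [← h3]
  congr 1
  ext w
  rw [smul_eq_mul, Complex.re_mul_ofReal, Complex.exp_ofReal_mul_I_re, mul_comm]
  congr 2
  simp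
  ring

/-- `sinc²` as a cosine integral -/
theorem sinc_sq {u : ℝ} (hu : u ≠ 0) :
    (Real.sin (Real.pi * u) / (Real.pi * u)) ^ 2 =
      2 * ∫ a in (0 : ℝ)..1, (1 - a) * Real.cos (2 * Real.pi * a * u) := by
  set c : ℝ := 2 * Real.pi * u with hc
  have hc0 : c ≠ 0 := by
    rw [hc]
    positivity
  have h1 : ∀ a ∈ Set.uIcc (0 : ℝ) 1, HasDerivAt
      (fun a => (1 - a) * Real.sin (c * a) / c - Real.cos (c * a) / c ^ 2)
      ((1 - a) * Real.cos (2 * Real.pi * a * u)) a := by
    intro a _
    have e1 : HasDerivAt (fun a : ℝ => c * a) c a := by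
      simpa using (hasDerivAt_id a).const_mul c
    have e2 : HasDerivAt (fun a : ℝ => Real.sin (c * a)) (Real.cos (c * a) * c) a := e1.sin
    have e3 : HasDerivAt (fun a : ℝ => Real.cos (c * a)) (-Real.sin (c * a) * c) a := e1.cos
    have e4 : HasDerivAt (fun a : ℝ => 1 - a) (-1) a := by
      simpa using (hasDerivAt_id a).const_sub 1
    have e5 := ((e4.mul e2).div_const c).sub (e3.div_const (c ^ 2))
    refine e5.congr_deriv ?_
    have : 2 * Real.pi * a * u = c * a := by rw [hc]; ring
    rw [this]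
    field_simp
    ring
  have hint : IntervalIntegrable (fun a => (1 - a) * Real.cos (2 * Real.pi * a * u)) volume 0 1 :=
    Continuous.intervalIntegrable (by fun_prop) _ _
  rw [intervalIntegral.integral_eq_sub_of_hasDerivAt h1 hint]
  have hcos : Real.cos c = 1 - 2 * Real.sin (Real.pi * u) ^ 2 := by
    have : c = 2 * (Real.pi * u) := by rw [hc]; ring
    rw [this, Real.cos_two_mul]
    have := Real.sin_sq_add_cos_sq (Real.pi * u)
    linarith
  have hpu : Real.pi * u ≠ 0 := mul_ne_zero Real.pi_ne_zero hu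
  simp only [mul_one, mul_zero, Real.sin_zero, Real.cos_zero, sub_self, zero_mul, zero_div,
    zero_sub]
  rw [hcos, hc]
  field_simp
  ring

theorem inv_scaled (hKK : S_KK) {b : ℝ} (hb : 0 < b) (a : ℝ) :
    ∫ u, kk (2 * Real.pi * b * u) * Real.cos (2 * Real.pi * a * u) = tau (a / b) ^ 2 / b := by
  have h1 := Measure.integral_comp_mul_left
    (fun ξ => kk (2 * Real.pi * ξ) * Real.cos (2 * Real.pi * (a / b) * ξ)) b
  rw [inv_f hKK (a / b), abs_of_pos (inv_pos.2 hb), smul_eq_mul] at h1
  rw [div_eq_inv_mul (tau (a / b) ^ 2) b, ← h1]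
  congr 1
  ext u
  have e1 : 2 * Real.pi * b * u = 2 * Real.pi * (b * u) := by ring
  have e2 : 2 * Real.pi * a * u = 2 * Real.pi * (a / b) * (b * u) := by
    field_simp
  rw [e1, e2]

theorem poly_int {b : ℝ} (hb : 0 < b) (hb1 : b ≤ 1) :
    ∫ a in (0 : ℝ)..1, (1 - a) * (tau (a / b) ^ 2 / b) = 1 / 3 - b / 12 := by
  have hc : Continuous (fun a : ℝ => (1 - a) * (tau (a / b) ^ 2 / b)) := by
    have : Continuous (fun a : ℝ => tau (a / b)) := tau_cont.comp (continuous_id.div_const b)
    fun_prop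
  rw [← intervalIntegral.integral_add_adjacent_intervals (b := b) (hc.intervalIntegrable _ _)
    (hc.intervalIntegrable _ _)]
  have h2 : ∫ a in b..1, (1 - a) * (tau (a / b) ^ 2 / b) = 0 := by
    rw [intervalIntegral.integral_congr (g := fun _ => (0 : ℝ))]
    · simp
    · intro a ha
      rw [Set.uIcc_of_le hb1] at ha
      have h3 : 1 ≤ |a / b| := by
        rw [abs_of_nonneg (div_nonneg (hb.le.trans ha.1) hb.le)]
        rw [le_div_iff₀ hb]
        linarith [ha.1]
      simp [tau_eq_zero h3]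
  have h1 : ∫ a in (0 : ℝ)..b, (1 - a) * (tau (a / b) ^ 2 / b) =
      ∫ a in (0 : ℝ)..b, (1 - a) * (b - a) ^ 2 / b ^ 3 := by
    apply intervalIntegral.integral_congr
    intro a ha
    rw [Set.uIcc_of_le hb.le] at ha
    have h3 : |a / b| = a / b := abs_of_nonneg (div_nonneg ha.1 hb.le)
    have h4 : |a / b| ≤ 1 := by
      rw [h3, div_le_one hb]
      exact ha.2
    simp only [tau_eq h4, h3]
    field_simp
  rw [h1, h2, add_zero]
  have hd : ∀ a ∈ Set.uIcc (0 : ℝ) b, HasDerivAt
      (fun a => (-(1 - a) * (b - a) ^ 3 / 3 + (b - a) ^ 4 / 12) / b ^ 3)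
      ((1 - a) * (b - a) ^ 2 / b ^ 3) a := by
    intro a _
    have e1 : HasDerivAt (fun a : ℝ => -(1 - a)) 1 a :=
      (((hasDerivAt_id' a).const_sub (1 : ℝ)).neg).congr_deriv (by norm_num)
    have e2 : HasDerivAt (fun a : ℝ => b - a) (-1) a := by
      simpa using (hasDerivAt_id a).const_sub b
    have e3 := ((((e1.mul (e2.pow 3)).div_const 3).add ((e2.pow 4).div_const 12)).div_const
      (b ^ 3))
    refine e3.congr_deriv ?_
    simp only [Nat.cast_ofNat, Pi.pow_apply]
    ring
  rw [intervalIntegral.integral_eq_sub_of_hasDerivAt hd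
    (Continuous.intervalIntegrable (by fun_prop) _ _)]
  field_simp
  ring

theorem sinc_sq_nonneg (u : ℝ) : 0 ≤ (Real.sin (Real.pi * u) / (Real.pi * u)) ^ 2 := sq_nonneg _

theorem sinc_sq_le_one (u : ℝ) : (Real.sin (Real.pi * u) / (Real.pi * u)) ^ 2 ≤ 1 := by
  rw [sq_le_one_iff_abs_le_one, abs_div]
  exact div_le_one_of_le₀ Real.abs_sin_le_abs (abs_nonneg _)

theorem sinc_meas : Measurable (fun u : ℝ => (Real.sin (Real.pi * u) / (Real.pi * u)) ^ 2) := by
  fun_prop

theorem kk_sinc_int (hKK : S_KK) {b : ℝ} (hb : 0 < b) :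
    Integrable (fun u => kk (2 * Real.pi * b * u) *
      (Real.sin (Real.pi * u) / (Real.pi * u)) ^ 2) := by
  have hI : Integrable (fun u => kk (2 * Real.pi * b * u)) :=
    kk_scale_int hKK (by positivity)
  refine Integrable.mono' hI.norm (hI.aestronglyMeasurable.mul
    sinc_meas.aestronglyMeasurable) (Eventually.of_forall fun u => ?_)
  rw [norm_mul]
  calc ‖kk (2 * Real.pi * b * u)‖ * ‖(Real.sin (Real.pi * u) / (Real.pi * u)) ^ 2‖
      ≤ ‖kk (2 * Real.pi * b * u)‖ * 1 := by
        apply mul_le_mul_of_nonneg_left _ (norm_nonneg _)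
        rw [Real.norm_eq_abs, abs_of_nonneg (sinc_sq_nonneg u)]
        exact sinc_sq_le_one u
    _ = ‖kk (2 * Real.pi * b * u)‖ := mul_one _

theorem kk_sinc (hKK : S_KK) {b : ℝ} (hb : 0 < b) (hb1 : b ≤ 1) :
    ∫ u, kk (2 * Real.pi * b * u) * (Real.sin (Real.pi * u) / (Real.pi * u)) ^ 2 =
      2 / 3 - b / 6 := by
  have hI : Integrable (fun u => kk (2 * Real.pi * b * u)) :=
    kk_scale_int hKK (by positivity)
  have h1 : ∫ u, kk (2 * Real.pi * b * u) * (Real.sin (Real.pi * u) / (Real.pi * u)) ^ 2 =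
      ∫ u, 2 * ∫ a in Set.Ioc (0 : ℝ) 1, kk (2 * Real.pi * b * u) *
        ((1 - a) * Real.cos (2 * Real.pi * a * u)) := by
    apply integral_congr_ae
    have h0 : ∀ᵐ u : ℝ, u ≠ 0 := by
      simp [ae_iff, measure_singleton]
    filter_upwards [h0] with u hu
    rw [sinc_sq hu, intervalIntegral.integral_of_le zero_le_one, integral_const_mul]
    ring
  rw [h1, integral_const_mul]
  have h2 : ∫ u, ∫ a in Set.Ioc (0 : ℝ) 1, kk (2 * Real.pi * b * u) *
        ((1 - a) * Real.cos (2 * Real.pi * a * u)) =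
      ∫ a in Set.Ioc (0 : ℝ) 1, ∫ u, kk (2 * Real.pi * b * u) *
        ((1 - a) * Real.cos (2 * Real.pi * a * u)) := by
    apply integral_integral_swap
    have hg : Integrable (fun a : ℝ => 1 - a) (volume.restrict (Set.Ioc (0 : ℝ) 1)) :=
      (Continuous.integrableOn_Ioc (by fun_prop))
    have hprod := hI.mul_prod hg
    refine Integrable.mono' hprod.norm ?_ (Eventually.of_forall fun z => ?_)
    · have hm1 : AEStronglyMeasurable (fun z : ℝ × ℝ => kk (2 * Real.pi * b * z.1) * (1 - z.2))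
        (volume.prod (volume.restrict (Set.Ioc (0 : ℝ) 1))) := hprod.aestronglyMeasurable
      have hm2 : AEStronglyMeasurable (fun z : ℝ × ℝ => Real.cos (2 * Real.pi * z.2 * z.1))
        (volume.prod (volume.restrict (Set.Ioc (0 : ℝ) 1))) :=
        Continuous.aestronglyMeasurable (by fun_prop)
      refine (hm1.mul hm2).congr (Eventually.of_forall fun z => ?_)
      simp only [Function.uncurry, Pi.mul_apply]
      ring
    · simp only [Function.uncurry]
      rw [← mul_assoc, norm_mul]
      calc ‖kk (2 * Real.pi * b * z.1) * (1 - z.2)‖ * ‖Real.cos (2 * Real.pi * z.2 * z.1)‖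
          ≤ ‖kk (2 * Real.pi * b * z.1) * (1 - z.2)‖ * 1 := by
            apply mul_le_mul_of_nonneg_left _ (norm_nonneg _)
            rw [Real.norm_eq_abs]
            exact Real.abs_cos_le_one _
        _ = _ := mul_one _
  rw [h2]
  have h3 : ∫ a in Set.Ioc (0 : ℝ) 1, ∫ u, kk (2 * Real.pi * b * u) *
        ((1 - a) * Real.cos (2 * Real.pi * a * u)) =
      ∫ a in Set.Ioc (0 : ℝ) 1, (1 - a) * (tau (a / b) ^ 2 / b) := by
    congr 1
    ext a
    rw [← inv_scaled hKK hb a, ← integral_const_mul]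
    congr 1
    ext u
    ring
  rw [h3, ← intervalIntegral.integral_of_le zero_le_one, poly_int hb hb1]
  ring

theorem kk_total (hKK : S_KK) {b : ℝ} (hb : 0 < b) :
    ∫ u, kk (2 * Real.pi * b * u) = 1 / b := by
  have h := inv_scaled hKK hb 0
  simpa [tau] using h

theorem t_GUE (hKK : S_KK) : S_GUE := by
  intro b hb hb1
  have hI : Integrable (fun u => kk (2 * Real.pi * b * u)) :=
    kk_scale_int hKK (by positivity)
  have hIs := kk_sinc_int hKK hb
  have hsub : (fun u => kk (2 * Real.pi * b * u) * Fg u) =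
      fun u => kk (2 * Real.pi * b * u) - kk (2 * Real.pi * b * u) *
        (Real.sin (Real.pi * u) / (Real.pi * u)) ^ 2 := by
    ext u
    unfold Fg
    ring
  have hIF : Integrable (fun u => kk (2 * Real.pi * b * u) * Fg u) := by
    rw [hsub]
    exact hI.sub hIs
  refine ⟨hIF.integrableOn, ?_⟩
  have hev : ∀ x, kk (-x) = kk x := by
    obtain ⟨C, hC1, hc, h0, hev, -⟩ := hKK
    exact hev
  have hFev : ∀ u, Fg (-u) = Fg u := by
    intro u
    unfold Fg
    rw [mul_neg, Real.sin_neg, neg_div_neg_eq]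
  have habs : ∀ u : ℝ, kk (2 * Real.pi * b * |u|) * Fg |u| = kk (2 * Real.pi * b * u) * Fg u := by
    intro u
    rcases le_total 0 u with h | h
    · rw [abs_of_nonneg h]
    · rw [abs_of_nonpos h, hFev, mul_neg, hev]
  have h1 := integral_comp_abs (f := fun u => kk (2 * Real.pi * b * u) * Fg u)
  simp only [habs] at h1
  rw [← h1, hsub, integral_sub hI hIs, kk_total hKK hb, kk_sinc hKK hb hb1]
  ring

end Pool.Agent.H606.OS.P.GUE
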