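import Pool.Agent.H606.OS.Stm

open MeasureTheory Filter Topology Finset
open Pool.Agent.H606.OS

namespace Pool.Agent.H606.OS.P.INTS

/-! ## Part 1: tails of `ka` -/

lemma ka_eq (x : ℝ) : ka x = (1 + x ^ 2)⁻¹ := by
  unfold ka
  rw [one_div]

lemma ka_pos (x : ℝ) : 0 < ka x := by
  unfold ka
  positivity

lemma ka_int : Integrable ka := by
  have h := integrable_inv_one_add_sq
  have e : ka = fun x : ℝ => (1 + x ^ 2)⁻¹ := by
    funext x
    exact ka_eq x
  rw [e]
  exact h

lemma arctan_tail (q : ℝ) (hq : 0 ≤ q) : Real.pi / 2 - Real.arctan q ≤ 4 / (1 + q) := by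
  rcases le_or_gt 1 q with h | h
  · have hq0 : 0 < q := by linarith
    have h1 : Real.arctan q⁻¹ = Real.pi / 2 - Real.arctan q := Real.arctan_inv_of_pos hq0
    have h2 : Real.arctan q⁻¹ ≤ q⁻¹ := by
      have h3 := Real.le_tan (x := Real.arctan q⁻¹) (Real.arctan_nonneg.2 (by positivity))
        (Real.arctan_lt_pi_div_two _)
      rwa [Real.tan_arctan] at h3
    rw [← h1]
    refine h2.trans ?_
    rw [inv_eq_one_div, div_le_div_iff₀ hq0 (by linarith)]
    linarith
  · have h1 : 0 ≤ Real.arctan q := Real.arctan_nonneg.2 hq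
    have h2 : (2 : ℝ) ≤ 4 / (1 + q) := by
      rw [le_div_iff₀ (by linarith)]
      linarith
    have h3 := Real.pi_lt_four
    linarith

lemma tail_right (q : ℝ) (hq : 0 ≤ q) : ∫ x in Set.Ioi q, ka x ≤ 4 / (1 + q) := by
  have e : ∫ x in Set.Ioi q, ka x = Real.pi / 2 - Real.arctan q := by
    rw [← integral_Ioi_inv_one_add_sq]
    exact integral_congr_ae (Filter.Eventually.of_forall fun x => ka_eq x)
  rw [e]
  exact arctan_tail q hq

lemma tail_left (p : ℝ) (hp : p ≤ 0) : ∫ x in Set.Iic p, ka x ≤ 4 / (1 + (-p)) := by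
  have e : ∫ x in Set.Iic p, ka x = Real.arctan p + Real.pi / 2 := by
    rw [← integral_Iic_inv_one_add_sq]
    exact integral_congr_ae (Filter.Eventually.of_forall fun x => ka_eq x)
  rw [e]
  have h := arctan_tail (-p) (by linarith)
  rw [Real.arctan_neg] at h
  linarith

lemma part1 (hFJ : S_FJ) : ∃ C : ℝ, 0 < C ∧
    (∀ a c U V : ℝ, 0 < a → U ≤ c → c ≤ V →
    2 * Real.pi / a - C / a * (1 / (1 + a * (c - U)) + 1 / (1 + a * (V - c))) ≤
      ∫ t in U..V, fj (a * (c - t))) := by
  obtain ⟨C, hC1, hfc, -, hfb, hfi, hft, -⟩ := hFJ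
  refine ⟨4 * C, by linarith, ?_⟩
  intro a c U V ha hU hV
  have hsub : ∫ t in U..V, fj (a * (c - t)) = a⁻¹ * ∫ x in (a * (c - V))..(a * (c - U)), fj x := by
    have h := intervalIntegral.integral_comp_sub_mul (a := U) (b := V) fj (c := a) ha.ne' (a * c)
    rw [smul_eq_mul] at h
    rw [mul_sub, mul_sub, ← h]
    refine intervalIntegral.integral_congr fun t _ => ?_
    simp only [mul_sub]
  rw [hsub]
  set p := a * (c - V) with hp
  set q := a * (c - U) with hq
  have hp0 : p ≤ 0 := mul_nonpos_of_nonneg_of_nonpos ha.le (by linarith)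
  have hq0 : 0 ≤ q := mul_nonneg ha.le (by linarith)
  have hpn : a * (V - c) = -p := by
    rw [hp]
    ring
  rw [hpn]
  have h1 : (∫ x in Set.Iic p, fj x) + ∫ x in Set.Ioi p, fj x = ∫ x, fj x :=
    intervalIntegral.integral_Iic_add_Ioi hfi.integrableOn hfi.integrableOn
  have h2 : (∫ x in p..q, fj x) + ∫ x in Set.Ioi q, fj x = ∫ x in Set.Ioi p, fj x :=
    intervalIntegral.integral_interval_add_Ioi hfi.integrableOn hfi.integrableOn
  have h3 : ∫ x in Set.Ioi q, fj x ≤ C * (4 / (1 + q)) := by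
    calc ∫ x in Set.Ioi q, fj x ≤ ∫ x in Set.Ioi q, C * ka x :=
          integral_mono hfi.integrableOn (ka_int.const_mul C).integrableOn fun x => (hfb x).2
      _ = C * ∫ x in Set.Ioi q, ka x := integral_const_mul _ _
      _ ≤ C * (4 / (1 + q)) := mul_le_mul_of_nonneg_left (tail_right q hq0) (by linarith)
  have h4 : ∫ x in Set.Iic p, fj x ≤ C * (4 / (1 + (-p))) := by
    calc ∫ x in Set.Iic p, fj x ≤ ∫ x in Set.Iic p, C * ka x :=
          integral_mono hfi.integrableOn (ka_int.const_mul C).integrableOn fun x => (hfb x).2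
      _ = C * ∫ x in Set.Iic p, ka x := integral_const_mul _ _
      _ ≤ C * (4 / (1 + (-p))) := mul_le_mul_of_nonneg_left (tail_left p hp0) (by linarith)
  have h5 : 2 * Real.pi - C * (4 / (1 + q)) - C * (4 / (1 + (-p))) ≤ ∫ x in p..q, fj x := by
    rw [hft] at h1
    linarith
  have ha' : 0 < a⁻¹ := inv_pos.2 ha
  have h6 := mul_le_mul_of_nonneg_left h5 ha'.le
  refine le_trans (le_of_eq ?_) h6
  rw [div_eq_mul_inv, div_eq_mul_inv, div_eq_mul_inv 4 (1 + q), div_eq_mul_inv 4 (1 + -p),
    one_div, one_div]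
  ring

/-! ## Part 2: the antiderivative of `pp` -/

noncomputable def rr (x : ℝ) : ℝ := ∫ u in (-1 : ℝ)..1, u * (1 - |u|) * Real.sin (u * x)

lemma pp_int (p q : ℝ) : ∫ x in p..q, pp x = rr q - rr p := by
  have hcont : Continuous (Function.uncurry fun (x u : ℝ) => u ^ 2 * (1 - |u|) * Real.cos (u * x)) := by
    unfold Function.uncurry
    fun_prop
  have hsw : ∫ x in p..q, pp x =
      ∫ u in (-1 : ℝ)..1, ∫ x in p..q, u ^ 2 * (1 - |u|) * Real.cos (u * x) := by
    unfold pp
    refine intervalIntegral_intervalIntegral_swap ?_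
    refine (hcont.continuousOn.integrableOn_compact (K := Set.uIcc p q ×ˢ Set.uIcc (-1) 1)
      (isCompact_uIcc.prod isCompact_uIcc)).mono_set ?_
    exact Set.prod_mono Set.uIoc_subset_uIcc Set.uIoc_subset_uIcc
  have hin : ∀ u : ℝ, ∫ x in p..q, u ^ 2 * (1 - |u|) * Real.cos (u * x) =
      u * (1 - |u|) * Real.sin (u * q) - u * (1 - |u|) * Real.sin (u * p) := by
    intro u
    refine intervalIntegral.integral_eq_sub_of_hasDerivAt (f := fun x => u * (1 - |u|) * Real.sin (u * x)) ?_ ?_
    · intro x _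
      have h1 : HasDerivAt (fun x : ℝ => u * x) u x := by
        simpa using (hasDerivAt_id x).const_mul u
      have h2 := (h1.sin).const_mul (u * (1 - |u|))
      refine h2.congr_deriv ?_
      ring
    · refine Continuous.intervalIntegrable ?_ _ _
      fun_prop
  rw [hsw]
  simp only [hin]
  unfold rr
  rw [intervalIntegral.integral_sub]
  · refine Continuous.intervalIntegrable ?_ _ _
    fun_prop
  · refine Continuous.intervalIntegrable ?_ _ _
    fun_prop

lemma rr_half (x : ℝ) : rr x = 2 * ∫ u in (0 : ℝ)..1, u * (1 - u) * Real.sin (u * x) := by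
  have hc : Continuous fun u : ℝ => u * (1 - |u|) * Real.sin (u * x) := by fun_prop
  have h1 : rr x = (∫ u in (-1 : ℝ)..0, u * (1 - |u|) * Real.sin (u * x)) +
      ∫ u in (0 : ℝ)..1, u * (1 - |u|) * Real.sin (u * x) :=
    (intervalIntegral.integral_add_adjacent_intervals (hc.intervalIntegrable _ _)
      (hc.intervalIntegrable _ _)).symm
  have h2 : (∫ u in (-1 : ℝ)..0, u * (1 - |u|) * Real.sin (u * x)) =
      ∫ u in (0 : ℝ)..1, u * (1 - |u|) * Real.sin (u * x) := by
    have h := intervalIntegral.integral_comp_neg (a := (0 : ℝ)) (b := 1)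
      (fun u : ℝ => u * (1 - |u|) * Real.sin (u * x))
    rw [neg_zero] at h
    rw [← h]
    refine intervalIntegral.integral_congr fun u _ => ?_
    simp only [abs_neg, neg_mul, Real.sin_neg, mul_neg, neg_neg]
  have h3 : (∫ u in (0 : ℝ)..1, u * (1 - |u|) * Real.sin (u * x)) =
      ∫ u in (0 : ℝ)..1, u * (1 - u) * Real.sin (u * x) := by
    refine intervalIntegral.integral_congr fun u hu => ?_
    rw [Set.uIcc_of_le (by norm_num)] at hu
    simp only [abs_of_nonneg hu.1]
  rw [h1, h2, h3]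
  ring

lemma half_eq (x : ℝ) (hx : x ≠ 0) : ∫ u in (0 : ℝ)..1, u * (1 - u) * Real.sin (u * x) =
    -Real.sin x / x ^ 2 + 2 * (1 - Real.cos x) / x ^ 3 := by
  have h := intervalIntegral.integral_eq_sub_of_hasDerivAt (a := (0 : ℝ)) (b := 1)
    (f := fun u : ℝ => -(u * (1 - u)) * Real.cos (u * x) / x + (1 - 2 * u) * Real.sin (u * x) / x ^ 2
      - 2 * Real.cos (u * x) / x ^ 3)
    (f' := fun u : ℝ => u * (1 - u) * Real.sin (u * x)) ?_ ?_
  · rw [h]
    simp only [one_mul, zero_mul, Real.cos_zero, Real.sin_zero]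
    field_simp
    ring
  · intro u _
    have h1 : HasDerivAt (fun u : ℝ => u * x) x u := by
      simpa using (hasDerivAt_id u).mul_const x
    have h2 : HasDerivAt (fun u : ℝ => -(u * (1 - u))) (-(1 - 2 * u)) u := by
      have h3 := ((hasDerivAt_id u).mul ((hasDerivAt_id u).const_sub 1)).neg
      simp only [id] at h3
      refine h3.congr_deriv ?_
      ring
    have h4 : HasDerivAt (fun u : ℝ => 1 - 2 * u) (-2) u := by
      have h5 := ((hasDerivAt_id u).const_mul (2 : ℝ)).const_sub 1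
      simp only [id] at h5
      refine h5.congr_deriv ?_
      ring
    have h6 := ((((h2.mul h1.cos).div_const x).add ((h4.mul h1.sin).div_const (x ^ 2))).sub
      ((h1.cos.const_mul 2).div_const (x ^ 3)))
    refine h6.congr_deriv ?_
    field_simp
    ring
  · refine Continuous.intervalIntegrable ?_ _ _
    fun_prop

lemma rr_bd2 (x : ℝ) : |rr x| ≤ 2 := by
  have h := intervalIntegral.norm_integral_le_of_norm_le_const (a := (-1 : ℝ)) (b := 1) (C := 1)
    (f := fun u : ℝ => u * (1 - |u|) * Real.sin (u * x)) ?_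
  · rw [Real.norm_eq_abs] at h
    refine h.trans ?_
    norm_num
  · intro u hu
    rw [Set.uIoc_of_le (by norm_num)] at hu
    have hu1 : |u| ≤ 1 := abs_le.2 ⟨hu.1.le, hu.2⟩
    have hu0 := abs_nonneg u
    rw [Real.norm_eq_abs, abs_mul, abs_mul]
    have h1 : abs (1 - |u|) ≤ 1 := by
      rw [abs_of_nonneg (by linarith)]
      linarith
    have h2 : |u| * abs (1 - |u|) ≤ 1 * 1 :=
      mul_le_mul hu1 h1 (abs_nonneg _) (by norm_num)
    have h3 := mul_le_mul h2 (Real.abs_sin_le_one (u * x)) (abs_nonneg _) (by norm_num)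
    linarith

lemma rr_bd (x : ℝ) : |rr x| ≤ 20 * ka x := by
  rcases le_or_gt 1 |x| with h | h
  · have hx : x ≠ 0 := by
      intro h0
      rw [h0, abs_zero] at h
      linarith
    have hax : 0 < |x| := by linarith
    rw [rr_half, half_eq x hx]
    have hs := Real.abs_sin_le_one x
    have hc : |1 - Real.cos x| ≤ 2 := by
      rw [abs_le]
      have h1 := Real.neg_one_le_cos x
      have h2 := Real.cos_le_one x
      constructor <;> linarith
    have e1 : |-Real.sin x / x ^ 2| ≤ 1 / |x| ^ 2 := by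
      rw [abs_div, abs_neg, abs_pow]
      exact div_le_div_of_nonneg_right hs (by positivity)
    have e2 : |2 * (1 - Real.cos x) / x ^ 3| ≤ 4 / |x| ^ 2 := by
      rw [abs_div, abs_mul, abs_pow, abs_of_pos (by norm_num : (0 : ℝ) < 2)]
      rw [div_le_div_iff₀ (by positivity) (by positivity)]
      have h1 : |x| ^ 2 ≤ |x| ^ 3 := pow_le_pow_right₀ h (by norm_num)
      have h2 : 0 ≤ |x| ^ 2 := by positivity
      nlinarith [mul_le_mul hc (le_refl (|x| ^ 2)) h2 (by norm_num : (0 : ℝ) ≤ 2)]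
    have e3 : |2 * (-Real.sin x / x ^ 2 + 2 * (1 - Real.cos x) / x ^ 3)| ≤ 10 / |x| ^ 2 := by
      rw [abs_mul, abs_of_pos (by norm_num : (0 : ℝ) < 2)]
      have h1 := abs_add_le (-Real.sin x / x ^ 2) (2 * (1 - Real.cos x) / x ^ 3)
      have h2 : (10 : ℝ) / |x| ^ 2 = 2 * (1 / |x| ^ 2 + 4 / |x| ^ 2) := by ring
      rw [h2]
      linarith
    refine e3.trans ?_
    unfold ka
    rw [sq_abs, mul_one_div, div_le_div_iff₀ (by positivity) (by positivity)]
    have h1 : 1 ≤ x ^ 2 := by
      rw [← sq_abs]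
      nlinarith
    linarith
  · refine (rr_bd2 x).trans ?_
    unfold ka
    rw [mul_one_div, le_div_iff₀ (by positivity)]
    have h1 : x ^ 2 ≤ 1 := by
      rw [← sq_abs]
      have := abs_nonneg x
      nlinarith
    linarith

lemma part2 (a c U V : ℝ) (ha : 0 < a) : |∫ t in U..V, pp (a * (c - t))| ≤
    20 / a * (ka (a * (c - U)) + ka (a * (c - V))) := by
  have hsub : ∫ t in U..V, pp (a * (c - t)) = a⁻¹ * ∫ x in (a * (c - V))..(a * (c - U)), pp x := by
    have h := intervalIntegral.integral_comp_sub_mul (a := U) (b := V) pp (c := a) ha.ne' (a * c)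
    rw [smul_eq_mul] at h
    rw [mul_sub, mul_sub, ← h]
    refine intervalIntegral.integral_congr fun t _ => ?_
    simp only [mul_sub]
  rw [hsub, pp_int, abs_mul, abs_of_pos (inv_pos.2 ha)]
  have h1 : |rr (a * (c - U)) - rr (a * (c - V))| ≤
      20 * (ka (a * (c - U)) + ka (a * (c - V))) := by
    have h2 := abs_sub (rr (a * (c - U))) (rr (a * (c - V)))
    have h3 := rr_bd (a * (c - U))
    have h4 := rr_bd (a * (c - V))
    linarith
  have h5 := mul_le_mul_of_nonneg_left h1 (inv_pos.2 ha).le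
  refine h5.trans (le_of_eq ?_)
  rw [div_eq_mul_inv]
  ring

theorem t_INTS (hFJ : S_FJ) : S_INTS := by
  obtain ⟨C, hC, h1⟩ := part1 hFJ
  refine ⟨C + 20, by linarith, ?_, ?_⟩
  · intro a c U V ha hU hV
    refine le_trans ?_ (h1 a c U V ha hU hV)
    have hb : 0 ≤ 1 / (1 + a * (c - U)) + 1 / (1 + a * (V - c)) := by
      have e1 : 0 ≤ a * (c - U) := mul_nonneg ha.le (by linarith)
      have e2 : 0 ≤ a * (V - c) := mul_nonneg ha.le (by linarith)
      positivity
    have h2 : C / a * (1 / (1 + a * (c - U)) + 1 / (1 + a * (V - c))) ≤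
        (C + 20) / a * (1 / (1 + a * (c - U)) + 1 / (1 + a * (V - c))) :=
      mul_le_mul_of_nonneg_right (div_le_div_of_nonneg_right (by linarith) ha.le) hb
    linarith
  · intro a c U V ha
    refine (part2 a c U V ha).trans ?_
    have hb : 0 ≤ ka (a * (c - U)) + ka (a * (c - V)) :=
      add_nonneg (ka_pos _).le (ka_pos _).le
    exact mul_le_mul_of_nonneg_right (div_le_div_of_nonneg_right (by linarith) ha.le) hb

end Pool.Agent.H606.OS.P.INTS
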