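import Pool.Agent.H606.OS.Stm

open MeasureTheory Filter Topology Finset
open Pool.Agent.H606.OS

namespace Pool.Agent.H606.OS.P.KK

theorem nonpos_of {f f' : ℝ → ℝ} {b : ℝ} (hd : ∀ w, HasDerivAt f (f' w) w) (h0 : f 0 = 0)
    (hm : ∀ a, 0 ≤ a → a ≤ b → f' a ≤ 0) {w : ℝ} (hw : 0 ≤ w) (hwb : w ≤ b) : f w ≤ 0 := by
  rcases hw.eq_or_lt with rfl | hw
  · rw [h0]
  obtain ⟨c, hc, he⟩ := exists_hasDerivAt_eq_slope f f' hw
    (fun x _ => (hd x).continuousAt.continuousWithinAt) (fun x _ => hd x)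
  rw [h0, sub_zero, sub_zero] at he
  have h1 := hm c hc.1.le (hc.2.le.trans hwb)
  rw [he, div_le_iff₀ hw] at h1
  linarith

theorem ge_of {f f' : ℝ → ℝ} {b M : ℝ} (hd : ∀ w, HasDerivAt f (f' w) w) (h0 : f 0 = 0)
    (hm : ∀ a, 0 ≤ a → a ≤ b → -M ≤ f' a) {w : ℝ} (hw : 0 ≤ w) (hwb : w ≤ b) :
    -(w * M) ≤ f w := by
  rcases hw.eq_or_lt with rfl | hw
  · rw [h0, zero_mul, neg_zero]
  obtain ⟨c, hc, he⟩ := exists_hasDerivAt_eq_slope f f' hw
    (fun x _ => (hd x).continuousAt.continuousWithinAt) (fun x _ => hd x)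
  rw [h0, sub_zero, sub_zero] at he
  have h1 := hm c hc.1.le (hc.2.le.trans hwb)
  rw [he, le_div_iff₀ hw] at h1
  linarith

noncomputable def sf (x : ℝ) : ℝ := x * Real.cos x - Real.sin x
noncomputable def rf (x : ℝ) : ℝ := 2 * Real.cos x - 2 + x * Real.sin x
noncomputable def qf (x : ℝ) : ℝ := 3 * Real.sin x - 2 * x - x * Real.cos x

theorem sf_d (x : ℝ) : HasDerivAt sf (-(x * Real.sin x)) x := by
  refine (((hasDerivAt_id x).mul (Real.hasDerivAt_cos x)).sub (Real.hasDerivAt_sin x)).congr_deriv ?_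
  simp

theorem rf_d (x : ℝ) : HasDerivAt rf (sf x) x := by
  refine ((((Real.hasDerivAt_cos x).const_mul 2).sub_const 2).add
    ((hasDerivAt_id x).mul (Real.hasDerivAt_sin x))).congr_deriv ?_
  simp [sf]
  ring

theorem qf_d (x : ℝ) : HasDerivAt qf (rf x) x := by
  refine ((((Real.hasDerivAt_sin x).const_mul 3).sub ((hasDerivAt_id x).const_mul 2)).sub
    ((hasDerivAt_id x).mul (Real.hasDerivAt_cos x))).congr_deriv ?_
  simp [rf]
  ring

theorem sf_0 : sf 0 = 0 := by simp [sf]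
theorem rf_0 : rf 0 = 0 := by simp [rf]
theorem qf_0 : qf 0 = 0 := by simp [qf]

theorem sf_nonpos {x : ℝ} (h0 : 0 ≤ x) (h1 : x ≤ Real.pi) : sf x ≤ 0 :=
  nonpos_of sf_d sf_0 (fun a ha hb => by
    have := mul_nonneg ha (Real.sin_nonneg_of_nonneg_of_le_pi ha hb)
    linarith) h0 h1

theorem rf_nonpos {x : ℝ} (h0 : 0 ≤ x) (h1 : x ≤ Real.pi) : rf x ≤ 0 :=
  nonpos_of rf_d rf_0 (fun _ ha hb => sf_nonpos ha hb) h0 h1

theorem qf_nonpos {x : ℝ} (h0 : 0 ≤ x) : qf x ≤ 0 := by
  rcases le_total x Real.pi with h | h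
  · exact nonpos_of qf_d qf_0 (fun _ ha hb => rf_nonpos ha hb) h0 h
  · unfold qf
    have h1 := Real.sin_le_one x
    have h2 : 0 ≤ x * (1 + Real.cos x) := mul_nonneg h0 (by linarith [Real.neg_one_le_cos x])
    have h3 := Real.pi_gt_three
    nlinarith

theorem sf_ge {x : ℝ} (h0 : 0 ≤ x) : -(x * x) ≤ sf x :=
  ge_of (b := x) sf_d sf_0 (fun a ha hb => by
    have h1 := Real.sin_le_one a
    have h2 : a * Real.sin a ≤ a * 1 := mul_le_mul_of_nonneg_left h1 ha
    linarith) h0 le_rfl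

theorem rf_ge {x : ℝ} (h0 : 0 ≤ x) : -(x * (x * x)) ≤ rf x :=
  ge_of (b := x) rf_d rf_0 (fun a ha hb => by
    have := sf_ge ha
    nlinarith) h0 le_rfl

theorem qf_ge {x : ℝ} (h0 : 0 ≤ x) : -(x * (x * (x * x))) ≤ qf x :=
  ge_of (b := x) qf_d qf_0 (fun a ha hb => by
    have h1 := rf_ge ha
    have h2 : a * a ≤ x * x := by nlinarith
    have h3 : a * (a * a) ≤ x * (x * x) := mul_le_mul hb h2 (by positivity) h0
    linarith) h0 le_rfl

theorem qf_abs {x : ℝ} (h0 : 0 ≤ x) : |qf x| ≤ 6 * x := by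
  rw [abs_of_nonpos (qf_nonpos h0)]
  unfold qf
  have h1 : |Real.sin x| ≤ |x| := Real.abs_sin_le_abs
  rw [abs_of_nonneg h0, abs_le] at h1
  have h2 : x * Real.cos x ≤ x * 1 := mul_le_mul_of_nonneg_left (Real.cos_le_one x) h0
  linarith [h1.1]

/-- the explicit kernel -/
noncomputable def g (x : ℝ) : ℝ := 4 * ((x - Real.sin x) / x ^ 3)

theorem g_d {x : ℝ} (hx : x ≠ 0) : HasDerivAt g (4 * (qf x / x ^ 4)) x := by
  have h1 : HasDerivAt (fun x => x - Real.sin x) (1 - Real.cos x) x :=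
    (hasDerivAt_id x).sub (Real.hasDerivAt_sin x)
  have h2 := (h1.div (hasDerivAt_pow 3 x) (by positivity)).const_mul 4
  refine h2.congr_deriv ?_
  unfold qf
  field_simp
  ring

theorem even_int {g : ℝ → ℝ} (hc : Continuous g) (he : ∀ u, g (-u) = g u) :
    ∫ u in (-1 : ℝ)..1, g u = 2 * ∫ u in (0 : ℝ)..1, g u := by
  have h1 : ∫ u in (-1 : ℝ)..0, g u = ∫ u in (0 : ℝ)..1, g u := by
    have := intervalIntegral.integral_comp_neg (f := g) (a := (0:ℝ)) (b := 1)
    rw [neg_zero] at this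
    rw [← this]
    exact intervalIntegral.integral_congr fun u _ => he u
  rw [← intervalIntegral.integral_add_adjacent_intervals (b := 0) (hc.intervalIntegrable _ _)
    (hc.intervalIntegrable _ _), h1]
  ring

theorem kk_half (x : ℝ) : kk x = 2 * ∫ u in (0 : ℝ)..1, (1 - u) ^ 2 * Real.cos (u * x) := by
  unfold kk
  rw [even_int (by fun_prop) (fun u => by rw [abs_neg, neg_mul, Real.cos_neg])]
  congr 1
  refine intervalIntegral.integral_congr fun u hu => ?_
  rw [Set.uIcc_of_le zero_le_one] at hu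
  rw [abs_of_nonneg hu.1]

theorem kk_eq {x : ℝ} (hx : x ≠ 0) : kk x = g x := by
  rw [kk_half]
  have hux : ∀ u : ℝ, HasDerivAt (fun u => u * x) x u := fun u => by
    simpa using (hasDerivAt_id u).mul_const x
  have h : ∀ u ∈ Set.uIcc (0:ℝ) 1, HasDerivAt
      (fun u => (1 - u) ^ 2 * (Real.sin (u * x) / x) - 2 * (1 - u) * (Real.cos (u * x) / x ^ 2)
        - 2 * (Real.sin (u * x) / x ^ 3)) ((1 - u) ^ 2 * Real.cos (u * x)) u := by
    intro u _
    have a1 : HasDerivAt (fun u : ℝ => (1 - u)) (-1) u := by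
      simpa using (hasDerivAt_id u).const_sub 1
    have a2 := (a1.pow 2).mul ((hux u).sin.div_const x)
    have a3 := (a1.const_mul 2).mul ((hux u).cos.div_const (x ^ 2))
    have a4 := ((hux u).sin.div_const (x ^ 3)).const_mul 2
    refine ((a2.sub a3).sub a4).congr_deriv ?_
    simp only [Pi.pow_apply]
    field_simp
    ring
  rw [intervalIntegral.integral_eq_sub_of_hasDerivAt h
    (Continuous.intervalIntegrable (by fun_prop) _ _)]
  unfold g
  simp
  field_simp
  ring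

theorem kk_zero : kk 0 = 2 / 3 := by
  rw [kk_half]
  have h : ∀ u ∈ Set.uIcc (0:ℝ) 1, HasDerivAt (fun u : ℝ => -(1 - u) ^ 3 / 3)
      ((1 - u) ^ 2 * Real.cos (u * 0)) u := by
    intro u _
    have a1 : HasDerivAt (fun u : ℝ => (1 - u)) (-1) u := by
      simpa using (hasDerivAt_id u).const_sub 1
    refine ((a1.pow 3).neg.div_const 3).congr_deriv ?_
    simp
  rw [intervalIntegral.integral_eq_sub_of_hasDerivAt h
    (Continuous.intervalIntegrable (by fun_prop) _ _)]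
  norm_num

theorem kk_even (x : ℝ) : kk (-x) = kk x := by
  unfold kk
  refine intervalIntegral.integral_congr fun u _ => ?_
  rw [mul_neg, Real.cos_neg]

theorem kk_abs (x : ℝ) : kk |x| = kk x := by
  rcases abs_cases x with ⟨h, _⟩ | ⟨h, _⟩
  · rw [h]
  · rw [h, kk_even]

theorem kk_cont : Continuous kk := by
  unfold kk
  exact intervalIntegral.continuous_parametric_intervalIntegral_of_continuous'
    (f := fun x u => (1 - |u|) ^ 2 * Real.cos (u * x)) (by unfold Function.uncurry; fun_prop) _ _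

theorem kk_nonneg (x : ℝ) : 0 ≤ kk x := by
  rw [← kk_abs]
  rcases (abs_nonneg x).eq_or_lt with h | h
  · rw [← h, kk_zero]; norm_num
  · rw [kk_eq h.ne']
    unfold g
    have : Real.sin |x| ≤ |x| := Real.sin_le h.le
    have h2 : 0 ≤ |x| - Real.sin |x| := by linarith
    positivity

theorem kk_anti : AntitoneOn kk (Set.Ici 0) := by
  refine antitoneOn_of_deriv_nonpos (convex_Ici 0) kk_cont.continuousOn ?_ ?_
  · intro x hx
    rw [interior_Ici, Set.mem_Ioi] at hx
    have h1 : kk =ᶠ[𝓝 x] g := by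
      filter_upwards [isOpen_ne.mem_nhds hx.ne'] with y hy
      exact kk_eq hy
    exact (h1.differentiableAt_iff.2 (g_d hx.ne').differentiableAt).differentiableWithinAt
  · intro x hx
    rw [interior_Ici, Set.mem_Ioi] at hx
    have h1 : kk =ᶠ[𝓝 x] g := by
      filter_upwards [isOpen_ne.mem_nhds hx.ne'] with y hy
      exact kk_eq hy
    rw [h1.deriv_eq, (g_d hx.ne').deriv]
    have h2 := qf_nonpos hx.le
    have h3 : qf x / x ^ 4 ≤ 0 := div_nonpos_of_nonpos_of_nonneg h2 (by positivity)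
    linarith

theorem kk_le (x : ℝ) : kk x ≤ 9 * ka x := by
  have h0 : kk |x| ≤ kk 0 := kk_anti (by simp) (abs_nonneg x) (abs_nonneg x)
  rw [kk_abs, kk_zero] at h0
  have h1 : x ^ 2 * kk x ≤ 8 := by
    rw [← kk_abs, ← sq_abs]
    rcases (abs_nonneg x).eq_or_lt with h | h
    · rw [← h]; norm_num
    · rw [kk_eq h.ne']
      unfold g
      have h2 : abs (Real.sin (abs x)) ≤ abs (abs x) := Real.abs_sin_le_abs
      rw [abs_abs, abs_le] at h2
      have h3 : |x| ^ 2 * (4 * ((|x| - Real.sin |x|) / |x| ^ 3)) =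
          4 * ((|x| - Real.sin |x|) / |x|) := by field_simp
      rw [h3]
      have h4 : (|x| - Real.sin |x|) / |x| ≤ 2 := by
        rw [div_le_iff₀ h]; linarith [h2.1]
      linarith
  unfold ka
  rw [mul_one_div, le_div_iff₀ (by positivity)]
  nlinarith

theorem diff_int (x : ℝ) : kk 0 - kk x =
    2 * ∫ u in (0 : ℝ)..1, (1 - u) ^ 2 * (1 - Real.cos (u * x)) := by
  rw [kk_half, kk_half, ← mul_sub, ← intervalIntegral.integral_sub
    (Continuous.intervalIntegrable (by fun_prop) _ _)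
    (Continuous.intervalIntegrable (by fun_prop) _ _)]
  congr 1
  refine intervalIntegral.integral_congr fun u _ => ?_
  simp
  ring

theorem diff_le (x : ℝ) : kk 0 - kk x ≤ x ^ 2 := by
  rw [diff_int]
  have h1 : ∫ u in (0 : ℝ)..1, (1 - u) ^ 2 * (1 - Real.cos (u * x)) ≤
      ∫ _u in (0 : ℝ)..1, x ^ 2 / 2 := by
    refine intervalIntegral.integral_mono_on zero_le_one
      (Continuous.intervalIntegrable (by fun_prop) _ _)
      (Continuous.intervalIntegrable (by fun_prop) _ _) fun u hu => ?_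
    have h2 := Real.one_sub_sq_div_two_le_cos (x := u * x)
    have h3 : 1 - Real.cos (u * x) ≤ x ^ 2 / 2 := by
      have : u ^ 2 * x ^ 2 ≤ 1 * x ^ 2 := by
        gcongr
        exact pow_le_one₀ hu.1 hu.2
      nlinarith
    have h4 : (1 - u) ^ 2 ≤ 1 := by nlinarith [hu.1, hu.2]
    have h5 : 0 ≤ 1 - Real.cos (u * x) := by linarith [Real.cos_le_one (u * x)]
    calc (1 - u) ^ 2 * (1 - Real.cos (u * x)) ≤ 1 * (x ^ 2 / 2) :=
          mul_le_mul h4 h3 h5 zero_le_one
      _ = x ^ 2 / 2 := one_mul _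
  rw [intervalIntegral.integral_const] at h1
  simp at h1
  linarith

theorem le_diff {x : ℝ} (hx : |x| ≤ 1) : x ^ 2 / 60 ≤ kk 0 - kk x := by
  rw [diff_int]
  have h1 : ∫ u in (0 : ℝ)..1, (1 - u) ^ 2 * ((7 / 16) * (u ^ 2 * x ^ 2)) ≤
      ∫ u in (0 : ℝ)..1, (1 - u) ^ 2 * (1 - Real.cos (u * x)) := by
    refine intervalIntegral.integral_mono_on zero_le_one
      (Continuous.intervalIntegrable (by fun_prop) _ _)
      (Continuous.intervalIntegrable (by fun_prop) _ _) fun u hu => ?_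
    have hux : |u * x| ≤ 1 := by
      rw [abs_mul, abs_of_nonneg hu.1]
      exact mul_le_one₀ hu.2 (abs_nonneg _) hx
    have h2 := Real.cos_bound hux
    rw [abs_le] at h2
    have h3 : |u * x| ^ 4 ≤ (u * x) ^ 2 := by
      have : |u * x| ^ 4 = (u * x) ^ 2 * (u * x) ^ 2 := by rw [← sq_abs (u * x)]; ring
      rw [this]
      have h4 : (u * x) ^ 2 ≤ 1 := by
        rw [← sq_abs]
        exact pow_le_one₀ (abs_nonneg _) hux
      nlinarith [sq_nonneg (u * x)]
    have h5 : 7 / 16 * (u ^ 2 * x ^ 2) ≤ 1 - Real.cos (u * x) := by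
      have : (u * x) ^ 2 = u ^ 2 * x ^ 2 := by ring
      nlinarith [h2.2, sq_nonneg (u * x)]
    exact mul_le_mul_of_nonneg_left h5 (sq_nonneg _)
  have h6 : ∫ u in (0 : ℝ)..1, (1 - u) ^ 2 * ((7 / 16) * (u ^ 2 * x ^ 2)) =
      7 / 480 * x ^ 2 := by
    have h : ∀ u ∈ Set.uIcc (0:ℝ) 1, HasDerivAt
        (fun u : ℝ => (7 / 16 * x ^ 2) * (u ^ 3 / 3 - u ^ 4 / 2 + u ^ 5 / 5))
        ((1 - u) ^ 2 * ((7 / 16) * (u ^ 2 * x ^ 2))) u := by
      intro u _
      refine (((((hasDerivAt_pow 3 u).div_const 3).sub ((hasDerivAt_pow 4 u).div_const 2)).add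
        ((hasDerivAt_pow 5 u).div_const 5)).const_mul (7 / 16 * x ^ 2)).congr_deriv ?_
      norm_num
      ring
    rw [intervalIntegral.integral_eq_sub_of_hasDerivAt h
      (Continuous.intervalIntegrable (by fun_prop) _ _)]
    norm_num
    ring
  rw [h6] at h1
  nlinarith [sq_nonneg x]

theorem ka_scale {x t : ℝ} (ht : 1 / 2 ≤ t) : ka (t * x) ≤ 4 * ka x := by
  unfold ka
  rw [mul_one_div, div_le_div_iff₀ (by positivity) (by positivity)]
  have : 1 / 4 ≤ t ^ 2 := by nlinarith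
  nlinarith [sq_nonneg x, mul_le_mul_of_nonneg_right this (sq_nonneg x)]

theorem wder {w : ℝ} (hw : 0 < w) : |w * (4 * (qf w / w ^ 4))| ≤ 48 * ka w := by
  have e : w * (4 * (qf w / w ^ 4)) = 4 * qf w / w ^ 3 := by field_simp
  rw [e, abs_div, abs_mul, abs_of_pos (show (0:ℝ) < 4 by norm_num),
    abs_of_pos (show (0:ℝ) < w ^ 3 by positivity)]
  unfold ka
  rw [mul_one_div, div_le_div_iff₀ (by positivity) (by positivity)]
  have h1 := qf_abs hw.le
  have h2 : |qf w| ≤ w ^ 4 := by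
    rw [abs_of_nonpos (qf_nonpos hw.le)]
    have := qf_ge hw.le
    nlinarith
  rcases le_total w 1 with h | h
  · have h3 : w ^ 4 ≤ w ^ 3 := pow_le_pow_of_le_one hw.le h (by norm_num)
    have h4 : w ^ 2 ≤ 1 := pow_le_one₀ hw.le h
    have h5 : |qf w| * (1 + w ^ 2) ≤ w ^ 3 * 2 := by
      refine mul_le_mul (h2.trans h3) (by linarith) (by positivity) (by positivity)
    nlinarith [pow_pos hw 3]
  · have h4 : 1 ≤ w ^ 2 := one_le_pow₀ h
    have h5 : |qf w| * (1 + w ^ 2) ≤ 6 * w * (2 * w ^ 2) := by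
      refine mul_le_mul h1 (by linarith) (by positivity) (by positivity)
    nlinarith

theorem kk_theta {x θ : ℝ} (h1 : 1 / 2 ≤ θ) (h2 : θ ≤ 2) :
    |kk (θ * x) - kk x| ≤ 384 * |θ - 1| * ka x := by
  have hmain : ∀ x : ℝ, 0 < x → |kk (θ * x) - kk x| ≤ 384 * |θ - 1| * ka x := by
    intro x hx
    have hθ : 0 < θ := by linarith
    rw [kk_eq (mul_pos hθ hx).ne', kk_eq hx.ne']
    have hd : ∀ t ∈ Set.Icc (1/2:ℝ) 2, HasDerivWithinAt (fun t => g (t * x))
        (x * (4 * (qf (t * x) / (t * x) ^ 4))) (Set.Icc (1/2:ℝ) 2) t := by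
      intro t ht
      have ht0 : 0 < t := by linarith [ht.1]
      have a1 : HasDerivAt (fun t => t * x) x t := by simpa using (hasDerivAt_id t).mul_const x
      have a2 := (g_d (mul_pos ht0 hx).ne').comp t a1
      refine (a2.congr_deriv ?_).hasDerivWithinAt
      ring
    have hb : ∀ t ∈ Set.Icc (1/2:ℝ) 2, ‖x * (4 * (qf (t * x) / (t * x) ^ 4))‖ ≤ 384 * ka x := by
      intro t ht
      have ht0 : 0 < t := by linarith [ht.1]
      have a1 := wder (mul_pos ht0 hx)
      have a2 : x * (4 * (qf (t * x) / (t * x) ^ 4)) =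
          t⁻¹ * (t * x * (4 * (qf (t * x) / (t * x) ^ 4))) := by
        field_simp
      rw [Real.norm_eq_abs, a2, abs_mul, abs_of_pos (inv_pos.2 ht0)]
      have a3 : t⁻¹ ≤ 2 := by
        rw [inv_le_comm₀ ht0 (by norm_num)]
        linarith [ht.1]
      have a4 := ka_scale (x := x) ht.1
      calc t⁻¹ * |t * x * (4 * (qf (t * x) / (t * x) ^ 4))| ≤ 2 * (48 * (4 * ka x)) := by
            refine mul_le_mul a3 (a1.trans (by linarith)) (abs_nonneg _) (by norm_num)
        _ = 384 * ka x := by ring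
    have key := Convex.norm_image_sub_le_of_norm_hasDerivWithin_le hd hb (convex_Icc _ _)
      (show (1:ℝ) ∈ Set.Icc (1/2:ℝ) 2 by constructor <;> norm_num)
      (show θ ∈ Set.Icc (1/2:ℝ) 2 from ⟨h1, h2⟩)
    rw [one_mul, Real.norm_eq_abs, Real.norm_eq_abs] at key
    calc _ ≤ 384 * ka x * |θ - 1| := key
      _ = 384 * |θ - 1| * ka x := by ring
  rcases lt_trichotomy x 0 with hx | hx | hx
  · have := hmain (-x) (by linarith)
    rw [mul_neg, kk_even, kk_even] at this
    have e : ka (-x) = ka x := by unfold ka; rw [neg_sq]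
    rwa [e] at this
  · rw [hx, mul_zero, sub_self, abs_zero]
    have : 0 ≤ ka 0 := by unfold ka; positivity
    positivity
  · exact hmain x hx

theorem t_KK : S_KK := by
  refine ⟨384, by norm_num, kk_cont, kk_zero, kk_even, kk_nonneg, kk_anti, fun x => ?_, diff_le,
    fun x hx => le_diff hx, fun x θ h1 h2 => kk_theta h1 h2⟩
  have := kk_le x
  have h0 : 0 ≤ ka x := by unfold ka; positivity
  linarith

end Pool.Agent.H606.OS.P.KK
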