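import Pool.Agent.H606.OS.Stm

/-!
# OS-LP (helper287, for helper606): square function estimate for the quadratic terms
-/

set_option autoImplicit false

open MeasureTheory Filter Topology Finset
open Pool.Agent.H606.OS

namespace Pool.Agent.H606.OS.P.LP

/-- the function whose transform is `pp` -/
noncomputable def ph (u : ℝ) : ℝ := u ^ 2 * max (1 - |u|) 0

theorem ph_cont : Continuous ph := by
  unfold ph
  fun_prop

theorem ph_even (u : ℝ) : ph (-u) = ph u := by
  unfold ph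
  rw [abs_neg, neg_sq]

theorem ph_zero (u : ℝ) (h : 1 ≤ |u|) : ph u = 0 := by
  unfold ph
  rw [max_eq_right (by linarith), mul_zero]

theorem ph_pp (x : ℝ) : ∫ u in (-1 : ℝ)..1, ph u * Real.cos (u * x) = pp x := by
  unfold pp
  refine intervalIntegral.integral_congr fun u hu => ?_
  rw [Set.uIcc_of_le (by norm_num)] at hu
  have h1 : |u| ≤ 1 := abs_le.2 hu
  simp only [ph]
  rw [max_eq_left (by linarith)]

theorem ph_sq_le (x : ℝ) : ph x ^ 2 ≤ x ^ 4 := by
  unfold ph
  have h1 : max (1 - |x|) 0 ≤ 1 := max_le (by have := abs_nonneg x; linarith) zero_le_one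
  have h2 : 0 ≤ max (1 - |x|) 0 := le_max_right _ _
  have h3 : (max (1 - |x|) 0) ^ 2 ≤ 1 := pow_le_one₀ h2 h1
  have h4 : 0 ≤ x ^ 4 := by positivity
  calc (x ^ 2 * max (1 - |x|) 0) ^ 2 = x ^ 4 * (max (1 - |x|) 0) ^ 2 := by ring
    _ ≤ x ^ 4 * 1 := mul_le_mul_of_nonneg_left h3 h4
    _ = x ^ 4 := mul_one _

/-- the sum over the dyadic scales -/
theorem dyad (n : ℕ) : ∀ x : ℝ, (1 ≤ |x| → ∑ i ∈ range n, ph (x * 2 ^ i) ^ 2 = 0) ∧
    (|x| ≤ 1 → ∑ i ∈ range n, ph (x * 2 ^ i) ^ 2 ≤ 16 / 15 - x ^ 4 / 15) := by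
  induction n with
  | zero =>
    intro x
    refine ⟨fun _ => by simp, fun h => ?_⟩
    have h1 : x ^ 4 ≤ 1 := by
      have : x ^ 4 = |x| ^ 4 := by rw [← abs_pow, abs_of_nonneg (by positivity)]
      rw [this]
      exact pow_le_one₀ (abs_nonneg _) h
    rw [range_zero, sum_empty]
    linarith
  | succ n ih =>
    intro x
    have hs : ∑ i ∈ range (n + 1), ph (x * 2 ^ i) ^ 2 =
        (∑ i ∈ range n, ph (2 * x * 2 ^ i) ^ 2) + ph x ^ 2 := by
      rw [sum_range_succ', pow_zero, mul_one]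
      congr 1
      refine sum_congr rfl fun i _ => ?_
      congr 2
      ring
    have h2x : |2 * x| = 2 * |x| := by rw [abs_mul, abs_two]
    rw [hs]
    constructor
    · intro h
      rw [(ih (2 * x)).1 (by rw [h2x]; linarith), ph_zero x h]
      norm_num
    · intro h
      have hx4 : x ^ 4 ≤ 1 := by
        have : x ^ 4 = |x| ^ 4 := by rw [← abs_pow, abs_of_nonneg (by positivity)]
        rw [this]
        exact pow_le_one₀ (abs_nonneg _) h
      have h3 := ph_sq_le x
      by_cases h1 : 1 ≤ |2 * x|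
      · rw [(ih (2 * x)).1 h1]
        linarith
      · have h4 := (ih (2 * x)).2 (not_le.1 h1).le
        have h5 : (2 * x) ^ 4 = 16 * x ^ 4 := by ring
        rw [h5] at h4
        linarith

theorem dyad_exp (b0 : ℝ) (hb0 : 0 < b0) (hb1 : b0 ≤ 1) (n : ℕ) (v : ℝ) :
    ∑ i ∈ range n, ph (v / (b0 / 2 ^ i)) ^ 2 ≤ 16 / 15 * Real.exp 1 * Real.exp (-v ^ 2) := by
  have h1 : ∑ i ∈ range n, ph (v / (b0 / 2 ^ i)) ^ 2 = ∑ i ∈ range n, ph (v / b0 * 2 ^ i) ^ 2 := by
    refine sum_congr rfl fun i _ => ?_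
    congr 2
    field_simp
  rw [h1]
  have hpos : 0 ≤ 16 / 15 * Real.exp 1 * Real.exp (-v ^ 2) := by positivity
  by_cases h : 1 ≤ |v / b0|
  · rw [((dyad n) (v / b0)).1 h]
    exact hpos
  · have h2 := ((dyad n) (v / b0)).2 (not_le.1 h).le
    have h3 : |v| ≤ 1 := by
      have h4 := not_le.1 h
      rw [abs_div, abs_of_pos hb0, div_lt_one hb0] at h4
      linarith
    have h5 : v ^ 2 ≤ 1 := by
      rw [← sq_abs]
      exact pow_le_one₀ (abs_nonneg _) h3
    have h6 : 1 ≤ Real.exp 1 * Real.exp (-v ^ 2) := by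
      rw [← Real.exp_add]
      exact Real.one_le_exp (by linarith)
    have h7 : 0 ≤ (v / b0) ^ 4 := by positivity
    calc _ ≤ 16 / 15 - (v / b0) ^ 4 / 15 := h2
      _ ≤ 16 / 15 * 1 := by linarith
      _ ≤ 16 / 15 * (Real.exp 1 * Real.exp (-v ^ 2)) :=
          mul_le_mul_of_nonneg_left h6 (by norm_num)
      _ = _ := by ring

/-- the Fourier transform of the Gaussian -/
theorem gauss (x : ℝ) : ∫ v : ℝ, Real.exp (-v ^ 2) * Real.cos (v * x) =
    Real.sqrt Real.pi * Real.exp (-x ^ 2 / 4) := by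
  have h := fourierIntegral_gaussian (b := 1) (by norm_num) (x : ℂ)
  have h1 : ∀ v : ℝ, Complex.exp (Complex.I * x * v) * Complex.exp (-1 * (v : ℂ) ^ 2) =
      ((Real.exp (-v ^ 2) * Real.cos (v * x) : ℝ) : ℂ) +
        ((Real.exp (-v ^ 2) * Real.sin (v * x) : ℝ) : ℂ) * Complex.I := by
    intro v
    have e1 : Complex.I * x * v = ((v * x : ℝ) : ℂ) * Complex.I := by
      push_cast
      ring
    rw [e1, Complex.exp_mul_I]
    push_cast
    ring_nf
  have h2 : Integrable fun v : ℝ => Real.exp (-v ^ 2) := by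
    have := integrable_exp_neg_mul_sq (b := 1) one_pos
    simpa using this
  have hA : Integrable fun v : ℝ => ((Real.exp (-v ^ 2) * Real.cos (v * x) : ℝ) : ℂ) := by
    refine Integrable.ofReal (h2.mul_bdd (c := 1) ?_ ?_)
    · exact (Real.continuous_cos.comp (by fun_prop)).aestronglyMeasurable
    · exact Eventually.of_forall fun v => by
        rw [Real.norm_eq_abs]
        exact Real.abs_cos_le_one _
  have hB : Integrable fun v : ℝ => ((Real.exp (-v ^ 2) * Real.sin (v * x) : ℝ) : ℂ) := by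
    refine Integrable.ofReal (h2.mul_bdd (c := 1) ?_ ?_)
    · exact (Real.continuous_sin.comp (by fun_prop)).aestronglyMeasurable
    · exact Eventually.of_forall fun v => by
        rw [Real.norm_eq_abs]
        exact Real.abs_sin_le_one _
  simp only [h1] at h
  rw [integral_add hA (hB.mul_const _), integral_mul_const, integral_complex_ofReal,
    integral_complex_ofReal] at h
  have h3 : ((Real.pi : ℂ) / 1) ^ (1 / 2 : ℂ) * Complex.exp (-(x : ℂ) ^ 2 / (4 * 1)) =
      ((Real.sqrt Real.pi * Real.exp (-x ^ 2 / 4) : ℝ) : ℂ) := by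
    have e1 : ((Real.pi : ℂ) / 1) ^ (1 / 2 : ℂ) = ((Real.sqrt Real.pi : ℝ) : ℂ) := by
      rw [div_one, Real.sqrt_eq_rpow, Complex.ofReal_cpow Real.pi_pos.le]
      norm_num
    rw [e1]
    push_cast
    rw [mul_one]
  rw [h3] at h
  have h4 := congrArg Complex.re h
  rw [Complex.add_re, Complex.ofReal_re, Complex.ofReal_re, Complex.re_ofReal_mul, Complex.I_re,
    mul_zero, add_zero] at h4
  exact h4

theorem gauss_int (x : ℝ) : Integrable fun v : ℝ => Real.exp (-v ^ 2) * Real.cos (v * x) := by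
  have h1 : Integrable fun v : ℝ => Real.exp (-v ^ 2) := by
    have := integrable_exp_neg_mul_sq (b := 1) one_pos
    simpa using this
  refine h1.mul_bdd (c := 1) ?_ ?_
  · exact (Real.continuous_cos.comp (by fun_prop)).aestronglyMeasurable
  · exact Eventually.of_forall fun v => by
      rw [Real.norm_eq_abs]
      exact Real.abs_cos_le_one _

theorem full (f : ℝ → ℝ) (hf : ∀ u, 1 ≤ |u| → f u = 0) :
    ∫ u in (-1 : ℝ)..1, f u = ∫ u, f u := by
  rw [intervalIntegral.integral_of_le (by norm_num)]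
  refine setIntegral_eq_integral_of_forall_compl_eq_zero fun u hu => ?_
  apply hf
  by_contra h
  rw [not_le, abs_lt] at h
  exact hu ⟨h.1, h.2.le⟩

theorem pair (hFJ : S_FJ) (hPL : S_PL) (x y : ℝ) :
    Integrable (fun t : ℝ => pp (x - t) * pp (y - t)) ∧
    (∫ t : ℝ, pp (x - t) * pp (y - t)) =
      2 * Real.pi * ∫ u : ℝ, ph u ^ 2 * Real.cos (u * (x - y)) := by
  obtain ⟨C, _, _, _, _, _, _, _, _, hC⟩ := hFJ
  have h := hPL ph ph_cont ph_even ph_zero C (fun x => by rw [ph_pp]; exact hC x) x y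
  simp only [ph_pp] at h
  rw [full _ (fun u hu => by rw [ph_zero u hu]; ring)] at h
  exact h

theorem pair_scaled (hFJ : S_FJ) (hPL : S_PL) (a x y : ℝ) (ha : 0 < a) :
    Integrable (fun t : ℝ => pp (a * (x - t)) * pp (a * (y - t))) ∧
    (∫ t : ℝ, pp (a * (x - t)) * pp (a * (y - t))) =
      2 * Real.pi / a * ∫ u : ℝ, ph u ^ 2 * Real.cos (u * (a * (x - y))) := by
  obtain ⟨h1, h2⟩ := pair hFJ hPL (a * x) (a * y)
  have e : (fun t : ℝ => pp (a * (x - t)) * pp (a * (y - t))) =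
      fun t => (fun t => pp (a * x - t) * pp (a * y - t)) (a * t) := by
    funext t
    simp only [mul_sub]
  rw [e]
  refine ⟨h1.comp_mul_left' ha.ne', ?_⟩
  have h3 := Measure.integral_comp_mul_left (fun t : ℝ => pp (a * x - t) * pp (a * y - t)) a
  refine h3.trans ?_
  rw [h2, abs_of_pos (inv_pos.2 ha), smul_eq_mul, mul_sub]
  generalize (∫ u : ℝ, ph u ^ 2 * Real.cos (u * (a * x - a * y))) = I
  field_simp

/-- the pair sum -/
noncomputable def W {ι : Type} (Z : Finset ι) (c p : ι → ℝ) (ξ : ℝ) : ℝ :=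
  ∑ s ∈ Z, ∑ s' ∈ Z, c s * c s' * Real.cos (ξ * (p s - p s'))

theorem W_nonneg {ι : Type} (Z : Finset ι) (c p : ι → ℝ) (ξ : ℝ) : 0 ≤ W Z c p ξ := by
  have h : W Z c p ξ = (∑ s ∈ Z, c s * Real.cos (ξ * p s)) ^ 2 +
      (∑ s ∈ Z, c s * Real.sin (ξ * p s)) ^ 2 := by
    unfold W
    rw [sq, sq, sum_mul_sum, sum_mul_sum, ← sum_add_distrib]
    refine sum_congr rfl fun s _ => ?_
    rw [← sum_add_distrib]
    refine sum_congr rfl fun s' _ => ?_
    rw [mul_sub, Real.cos_sub]
    ring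
  rw [h]
  positivity

theorem comp_int (g : ℝ → ℝ) (hg : Continuous g) (b : ℝ) (hb : 0 < b) :
    Integrable fun v => ph (v / b) ^ 2 * g v := by
  have hc : Continuous fun v => ph (v / b) ^ 2 * g v :=
    ((ph_cont.comp (by fun_prop)).pow 2).mul hg
  refine hc.integrable_of_hasCompactSupport ?_
  refine HasCompactSupport.intro (isCompact_Icc (a := -b) (b := b)) fun v hv => ?_
  have h1 : 1 ≤ |v / b| := by
    rw [abs_div, abs_of_pos hb, one_le_div hb]
    by_contra h
    rw [not_le, abs_lt] at h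
    exact hv ⟨h.1.le, h.2.le⟩
  rw [ph_zero _ h1]
  ring

/-- one term of the square function -/
theorem term (hFJ : S_FJ) (hPL : S_PL) {ι : Type} (Z : Finset ι) (c p : ι → ℝ) (L b : ℝ)
    (hL : 0 < L) (hb : 0 < b) :
    (∫ t : ℝ, (∑ s ∈ Z, c s * (b ^ 2 / 2 * pp (b * L * (p s - t)))) ^ 2) / b ^ 2 =
      Real.pi / (2 * L) * ∫ v : ℝ, ph (v / b) ^ 2 * W Z c p (L * v) := by
  have ha : 0 < b * L := mul_pos hb hL
  have h1 : ∀ t : ℝ, (∑ s ∈ Z, c s * (b ^ 2 / 2 * pp (b * L * (p s - t)))) ^ 2 =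
      ∑ s ∈ Z, ∑ s' ∈ Z, c s * c s' * (b ^ 2 / 2) ^ 2 *
        (pp (b * L * (p s - t)) * pp (b * L * (p s' - t))) := by
    intro t
    rw [sq, sum_mul_sum]
    refine sum_congr rfl fun s _ => sum_congr rfl fun s' _ => ?_
    ring
  have h2 : ∀ x : ℝ, ∫ v : ℝ, ph (v / b) ^ 2 * Real.cos (L * v * x) =
      b * ∫ u : ℝ, ph u ^ 2 * Real.cos (u * (b * L * x)) := by
    intro x
    have e := Measure.integral_comp_mul_left
      (fun v : ℝ => ph (v / b) ^ 2 * Real.cos (L * v * x)) b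
    rw [abs_of_pos (inv_pos.2 hb), smul_eq_mul] at e
    have e2 : (fun u : ℝ => ph (b * u / b) ^ 2 * Real.cos (L * (b * u) * x)) =
        fun u => ph u ^ 2 * Real.cos (u * (b * L * x)) := by
      funext u
      rw [mul_div_cancel_left₀ _ hb.ne']
      congr 2
      ring
    rw [← e2, e, ← mul_assoc, mul_inv_cancel₀ hb.ne', one_mul]
  simp only [h1]
  rw [integral_finsetSum _ fun s _ => integrable_finsetSum _ fun s' _ =>
    (pair_scaled hFJ hPL (b * L) (p s) (p s') ha).1.const_mul _]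
  have h3 : ∀ s ∈ Z, ∫ t : ℝ, ∑ s' ∈ Z, c s * c s' * (b ^ 2 / 2) ^ 2 *
        (pp (b * L * (p s - t)) * pp (b * L * (p s' - t))) =
      ∑ s' ∈ Z, b ^ 2 * (Real.pi / (2 * L) *
        ∫ v : ℝ, ph (v / b) ^ 2 * (c s * c s' * Real.cos (L * v * (p s - p s')))) := by
    intro s _
    rw [integral_finsetSum _ fun s' _ =>
      (pair_scaled hFJ hPL (b * L) (p s) (p s') ha).1.const_mul _]
    refine sum_congr rfl fun s' _ => ?_
    rw [integral_const_mul, (pair_scaled hFJ hPL (b * L) (p s) (p s') ha).2]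
    have e3 : (fun v : ℝ => ph (v / b) ^ 2 * (c s * c s' * Real.cos (L * v * (p s - p s')))) =
        fun v => (c s * c s') * (ph (v / b) ^ 2 * Real.cos (L * v * (p s - p s'))) := by
      funext v
      ring
    rw [e3, integral_const_mul, h2]
    generalize (∫ u : ℝ, ph u ^ 2 * Real.cos (u * (b * L * (p s - p s')))) = I
    field_simp
  rw [sum_congr rfl h3]
  have h4 : ∫ v : ℝ, ph (v / b) ^ 2 * W Z c p (L * v) =
      ∑ s ∈ Z, ∑ s' ∈ Z, ∫ v : ℝ, ph (v / b) ^ 2 *
        (c s * c s' * Real.cos (L * v * (p s - p s'))) := by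
    unfold W
    simp only [mul_sum]
    have hi : ∀ s s' : ι, Integrable fun v : ℝ => ph (v / b) ^ 2 *
        (c s * c s' * Real.cos (L * v * (p s - p s'))) := fun s s' =>
      comp_int _ (by fun_prop) b hb
    rw [integral_finsetSum _ fun s _ => integrable_finsetSum _ fun s' _ => hi s s']
    exact sum_congr rfl fun s _ => integral_finsetSum _ fun s' _ => hi s s'
  rw [h4]
  simp only [← mul_sum]
  field_simp

theorem t_LP (hFJ : S_FJ) (hPL : S_PL) : S_LP := by
  refine ⟨Real.pi / 2 * (16 / 15 * Real.exp 1) * Real.sqrt Real.pi, by positivity, ?_⟩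
  intro ι Z c p L b0 n hL hb0 hb1
  have hb : ∀ i : ℕ, 0 < b0 / 2 ^ i := fun i => by positivity
  rw [sum_congr rfl fun i _ => term hFJ hPL Z c p L (b0 / 2 ^ i) hL (hb i), ← mul_sum]
  have hWc : Continuous fun v : ℝ => W Z c p (L * v) := by
    unfold W
    fun_prop
  rw [← integral_finsetSum _ fun i _ => comp_int _ hWc (b0 / 2 ^ i) (hb i)]
  have hi : ∀ s s' : ι, Integrable fun v : ℝ => Real.exp (-v ^ 2) *
      (c s * c s' * Real.cos (L * v * (p s - p s'))) := by
    intro s s'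
    have h := (gauss_int (L * (p s - p s'))).const_mul (c s * c s')
    refine h.congr (Eventually.of_forall fun v => ?_)
    simp only
    rw [show L * v * (p s - p s') = v * (L * (p s - p s')) by ring]
    ring
  have hWi : Integrable fun v : ℝ => Real.exp (-v ^ 2) * W Z c p (L * v) := by
    unfold W
    simp only [mul_sum]
    exact integrable_finsetSum _ fun s _ => integrable_finsetSum _ fun s' _ => hi s s'
  have hWe : ∫ v : ℝ, Real.exp (-v ^ 2) * W Z c p (L * v) =
      Real.sqrt Real.pi * ∑ s ∈ Z, ∑ s' ∈ Z, c s * c s' * Real.exp (-(L * (p s - p s')) ^ 2 / 4) := by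
    unfold W
    simp only [mul_sum]
    rw [integral_finsetSum _ fun s _ => integrable_finsetSum _ fun s' _ => hi s s']
    refine sum_congr rfl fun s _ => ?_
    rw [integral_finsetSum _ fun s' _ => hi s s']
    refine sum_congr rfl fun s' _ => ?_
    have e : (fun v : ℝ => Real.exp (-v ^ 2) * (c s * c s' * Real.cos (L * v * (p s - p s')))) =
        fun v => (c s * c s') * (Real.exp (-v ^ 2) * Real.cos (v * (L * (p s - p s')))) := by
      funext v
      rw [show L * v * (p s - p s') = v * (L * (p s - p s')) by ring]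
      ring
    rw [e, integral_const_mul, gauss]
    ring
  have hle : ∫ v : ℝ, ∑ i ∈ range n, ph (v / (b0 / 2 ^ i)) ^ 2 * W Z c p (L * v) ≤
      ∫ v : ℝ, (16 / 15 * Real.exp 1) * (Real.exp (-v ^ 2) * W Z c p (L * v)) := by
    refine integral_mono (integrable_finsetSum _ fun i _ => comp_int _ hWc (b0 / 2 ^ i) (hb i))
      (hWi.const_mul _) fun v => ?_
    simp only
    rw [← sum_mul, ← mul_assoc]
    exact mul_le_mul_of_nonneg_right (dyad_exp b0 hb0 hb1 n v) (W_nonneg _ _ _ _)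
  rw [integral_const_mul, hWe] at hle
  calc Real.pi / (2 * L) * ∫ v : ℝ, ∑ i ∈ range n, ph (v / (b0 / 2 ^ i)) ^ 2 * W Z c p (L * v)
      ≤ Real.pi / (2 * L) * (16 / 15 * Real.exp 1 * (Real.sqrt Real.pi *
        ∑ s ∈ Z, ∑ s' ∈ Z, c s * c s' * Real.exp (-(L * (p s - p s')) ^ 2 / 4))) :=
        mul_le_mul_of_nonneg_left hle (by positivity)
    _ = _ := by
        field_simp

end Pool.Agent.H606.OS.P.LP
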