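import Pool.Agent.H606.OS.Stm

open MeasureTheory Filter Topology Finset
open Pool.Agent.H606.OS

namespace Pool.Agent.H606.OS.P.N1G

lemma geo_le (K : ℕ) : ∑ k ∈ range K, (2 / 3 : ℝ) ^ (k + 1) ≤ 2 := by
  have h : ∀ K : ℕ, ∑ k ∈ range K, (2 / 3 : ℝ) ^ (k + 1) = 2 - 2 * (2 / 3) ^ K := by
    intro K
    induction K with
    | zero => simp
    | succ K ih =>
      rw [Finset.sum_range_succ, ih]
      ring
  rw [h]
  have : (0:ℝ) < (2 / 3) ^ K := by positivity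
  linarith

lemma PW_le {Z : Finset ℂ} {m : ℂ → ℝ} {T b Ck : ℝ} (hm : ∀ s, 0 ≤ m s)
    (hka : ∀ x, kk x ≤ Ck * ka x) :
    PW Z m T b ≤ Ck * ∑ s ∈ Z, ∑ s' ∈ Z, m s * m s' * ka (b * Real.log T * (s.im - s'.im)) := by
  unfold PW
  rw [Finset.mul_sum]
  apply Finset.sum_le_sum
  intro s _
  rw [Finset.mul_sum]
  apply Finset.sum_le_sum
  intro s' _
  have h1 := mul_le_mul_of_nonneg_left (hka (b * Real.log T * (s.im - s'.im)))
    (mul_nonneg (hm s) (hm s'))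
  linarith

theorem t_N1G (hKK : S_KK) (hSTEP : S_STEP) (hTL : S_TL) (hN1W : S_N1W) : S_N1G := by
  intro C0 hC0
  obtain ⟨Ck, hCk, -, -, -, -, -, hka, -⟩ := hKK
  obtain ⟨Ct, hCt, htl⟩ := hTL C0 hC0
  obtain ⟨Cw, hCw, hw⟩ := hN1W C0 hC0
  have hCk0 : 0 < Ck := by linarith
  have hpi := Real.pi_pos
  refine ⟨4 * Real.pi * Cw + 1, by positivity, ?_⟩
  intro D n b0 hb0 hb1
  have hbpos : ∀ i : ℕ, 0 < b0 / 2 ^ i := fun i => by positivity
  have hble : ∀ i : ℕ, b0 / 2 ^ i ≤ 1 / 12 := by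
    intro i
    refine le_trans (div_le_self hb0.le ?_) hb1
    exact one_le_pow₀ (by norm_num)
  obtain ⟨b, hb⟩ : ∃ b : ℕ → ℝ, b = fun i => b0 / 2 ^ i := ⟨_, rfl⟩
  have hbi : ∀ i, b0 / 2 ^ i = b i := fun i => by rw [hb]
  simp only [hbi] at hbpos hble ⊢
  have hT' : ∀ i, ∃ B : ℝ, 0 < B ∧ ∀ T : ℝ, 10 ≤ T → ∀ T' : ℝ, 1 ≤ T' → T' ≤ T →
    ∑ s ∈ D.ZG T', ∑ s' ∈ D.ZG T', D.m s * D.m s' * ka (b i * Real.log T * (s.im - s'.im)) ≤
      Ct / b i * (T' * Real.log T) + B * (Real.log T) ^ 3 := fun i =>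
    htl D (b i) (hbpos i) ((hble i).trans (by norm_num))
  choose B hB hBt using hT'
  -- the three sums
  obtain ⟨S1, hS1⟩ : ∃ S : ℝ, S = ∑ i ∈ range n, 1 / (b i) ^ 2 := ⟨_, rfl⟩
  obtain ⟨S2, hS2⟩ : ∃ S : ℝ, S = ∑ i ∈ range n, 1 / (b i) ^ 3 := ⟨_, rfl⟩
  obtain ⟨S3, hS3⟩ : ∃ S : ℝ, S = ∑ i ∈ range n, B i / (b i) ^ 2 := ⟨_, rfl⟩
  have hS10 : 0 ≤ S1 := by
    rw [hS1]
    exact Finset.sum_nonneg fun i _ => by positivity
  have hS20 : 0 ≤ S2 := by
    rw [hS2]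
    exact Finset.sum_nonneg fun i _ => div_nonneg zero_le_one (pow_nonneg (hbpos i).le 3)
  have hS30 : 0 ≤ S3 := by
    rw [hS3]
    exact Finset.sum_nonneg fun i _ => div_nonneg (hB i).le (pow_nonneg (hbpos i).le 2)
  obtain ⟨K, hK⟩ : ∃ K : ℕ, Ck * Ct * S2 * (2 / 3) ^ K ≤ 1 / (6 * Real.pi) := by
    have ht : Tendsto (fun K : ℕ => Ck * Ct * S2 * (2 / 3 : ℝ) ^ K) atTop (𝓝 0) := by
      have := (tendsto_pow_atTop_nhds_zero_of_lt_one (by norm_num : (0:ℝ) ≤ 2 / 3)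
        (by norm_num)).const_mul (Ck * Ct * S2)
      simpa using this
    exact (ht.eventually (ge_mem_nhds (by positivity))).exists
  obtain ⟨η, hη, hη2⟩ : ∃ η : ℝ, 0 < η ∧ K * η * S1 ≤ 1 / (6 * Real.pi) := by
    refine ⟨1 / (6 * Real.pi) / (K * S1 + 1), by positivity, ?_⟩
    have h1 : (0:ℝ) ≤ K * S1 := by positivity
    have h2 : (0:ℝ) < K * S1 + 1 := by positivity
    rw [mul_assoc, mul_comm, mul_assoc, div_mul_eq_mul_div, div_le_iff₀ h2]
    apply mul_le_mul_of_nonneg_left _ (by positivity)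
    linarith
  -- eventual facts
  have ev1 : ∀ᶠ T in atTop, ∀ k ∈ range K, ∀ i ∈ range n,
      |PW (D.ZG ((2 / 3) ^ k * T)) D.m T (b i) - PW (D.ZG (2 / 3 * (2 / 3) ^ k * T)) D.m T (b i) -
      PW (zw D.ZG (2 / 3 * (2 / 3) ^ k * T)) D.m (2 / 3 * (2 / 3) ^ k * T) (b i)| ≤
        η * (T * Real.log T) := by
    rw [Filter.eventually_all_finset]
    intro k _
    rw [Filter.eventually_all_finset]
    intro i _
    exact hSTEP C0 hC0 D (b i) ((2 / 3) ^ k) (hbpos i) (hble i) (by positivity)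
      (pow_le_one₀ (by norm_num) (by norm_num)) η hη
  have ev2 : ∀ᶠ T in atTop, ∀ k ∈ range K, ∑ i ∈ range n,
      (PW (zw D.ZG (2 / 3 * (2 / 3) ^ k * T)) D.m (2 / 3 * (2 / 3) ^ k * T) (b i) -
      (2 / 3 * (2 / 3) ^ k * T) * Real.log (2 / 3 * (2 / 3) ^ k * T) / (4 * Real.pi) *
        (1 / (b i) + b i / 6)) / (b i) ^ 2 ≤
      Cw * (Real.sqrt n + 1) * ((2 / 3 * (2 / 3) ^ k * T) * Real.log (2 / 3 * (2 / 3) ^ k * T)) := by
    rw [Filter.eventually_all_finset]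
    intro k _
    have h1 := hw D n b0 hb0 hb1
    simp only [hbi] at h1
    have h2 : Tendsto (fun T : ℝ => (2 / 3 * (2 / 3) ^ k) * T) atTop atTop :=
      tendsto_id.const_mul_atTop (by positivity)
    exact h2.eventually h1
  have ev3 : ∀ᶠ T : ℝ in atTop, 10 ≤ T := eventually_ge_atTop 10
  have ev4 : ∀ᶠ T : ℝ in atTop, 1 ≤ (2 / 3) ^ K * T :=
    (tendsto_id.const_mul_atTop (by positivity : (0:ℝ) < (2 / 3) ^ K)).eventually_ge_atTop 1
  have ev5 : ∀ᶠ T : ℝ in atTop, Ck * S3 * Real.log T ^ 3 ≤ 1 / (6 * Real.pi) * T := by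
    have h1 : (fun T : ℝ => Real.log T ^ 3) =o[atTop] (fun T : ℝ => T) :=
      Real.isLittleO_pow_log_id_atTop
    have h2 := h1.def (c := 1 / (6 * Real.pi) / (Ck * S3 + 1)) (by positivity)
    filter_upwards [h2, eventually_ge_atTop 10] with T h3 h4
    have h5 : 0 ≤ Real.log T := Real.log_nonneg (by linarith)
    rw [Real.norm_eq_abs, Real.norm_eq_abs, abs_of_nonneg (by positivity),
      abs_of_nonneg (by linarith)] at h3
    have h6 : (0:ℝ) < Ck * S3 + 1 := by positivity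
    have h7 : Real.log T ^ 3 * (Ck * S3 + 1) ≤ 1 / (6 * Real.pi) * T := by
      calc Real.log T ^ 3 * (Ck * S3 + 1) ≤ 1 / (6 * Real.pi) / (Ck * S3 + 1) * T * (Ck * S3 + 1) :=
            mul_le_mul_of_nonneg_right h3 h6.le
        _ = 1 / (6 * Real.pi) * T := by field_simp
    have h8 : 0 ≤ Real.log T ^ 3 := by positivity
    nlinarith
  filter_upwards [ev1, ev2, ev3, ev4, ev5] with T h1 h2 h3 h4 h5
  obtain ⟨L, hL⟩ : ∃ L : ℝ, L = Real.log T := ⟨_, rfl⟩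
  have hL1 : 1 ≤ L := by
    rw [hL, Real.le_log_iff_exp_le (by linarith)]
    have := Real.exp_one_lt_d9
    linarith
  have hT0 : 0 < T := by linarith
  have hTk : ∀ k : ℕ, 0 < 2 / 3 * (2 / 3 : ℝ) ^ k * T := fun k => by positivity
  have hTk2 : ∀ k : ℕ, 2 / 3 * (2 / 3 : ℝ) ^ k * T ≤ T := by
    intro k
    have : 2 / 3 * (2 / 3 : ℝ) ^ k ≤ 1 := by
      rw [← pow_succ']
      exact pow_le_one₀ (by norm_num) (by norm_num)
    nlinarith
  have hlog : ∀ k : ℕ, Real.log (2 / 3 * (2 / 3 : ℝ) ^ k * T) ≤ L := fun k => by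
    rw [hL]
    exact Real.log_le_log (hTk k) (hTk2 k)
  rw [← hL] at h5 ⊢
  simp only [← hL] at h1
  -- sum of the `T_k log T_k`
  have hsum : ∑ k ∈ range K, (2 / 3 * (2 / 3 : ℝ) ^ k * T) *
      Real.log (2 / 3 * (2 / 3 : ℝ) ^ k * T) ≤ 2 * (T * L) := by
    calc _ ≤ ∑ k ∈ range K, (2 / 3 : ℝ) ^ (k + 1) * (T * L) := by
          apply Finset.sum_le_sum
          intro k _
          calc _ ≤ (2 / 3 * (2 / 3 : ℝ) ^ k * T) * L :=
                mul_le_mul_of_nonneg_left (hlog k) (hTk k).le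
            _ = _ := by rw [pow_succ']; ring
      _ = (∑ k ∈ range K, (2 / 3 : ℝ) ^ (k + 1)) * (T * L) := by rw [Finset.sum_mul]
      _ ≤ 2 * (T * L) := mul_le_mul_of_nonneg_right (geo_le K) (by positivity)
  -- the bound for each `i`
  have hi : ∀ i ∈ range n, PW (D.ZG T) D.m T (b i) ≤
      ∑ k ∈ range K, PW (zw D.ZG (2 / 3 * (2 / 3) ^ k * T)) D.m (2 / 3 * (2 / 3) ^ k * T) (b i) +
      K * η * (T * L) + Ck * (Ct / b i * ((2 / 3) ^ K * T * L) + B i * L ^ 3) := by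
    intro i hi
    obtain ⟨G, hG⟩ : ∃ G : ℕ → ℝ, G = fun k => PW (D.ZG ((2 / 3) ^ k * T)) D.m T (b i) := ⟨_, rfl⟩
    have g1 : ∑ k ∈ range K, (G k - G (k + 1)) = G 0 - G K := Finset.sum_range_sub' G K
    have g2 : ∑ k ∈ range K, (G k - G (k + 1)) ≤ ∑ k ∈ range K,
        (PW (zw D.ZG (2 / 3 * (2 / 3) ^ k * T)) D.m (2 / 3 * (2 / 3) ^ k * T) (b i) +
          η * (T * L)) := by
      apply Finset.sum_le_sum
      intro k hk
      have h6 := (abs_le.mp (h1 k hk i hi)).2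
      rw [hG]
      simp only
      rw [pow_succ' (2 / 3 : ℝ) k]
      linarith
    rw [Finset.sum_add_distrib, Finset.sum_const, card_range, nsmul_eq_mul, g1] at g2
    have g3 : G 0 = PW (D.ZG T) D.m T (b i) := by
      rw [hG]
      simp
    have g4 : G K ≤ Ck * (Ct / b i * ((2 / 3) ^ K * T * L) + B i * L ^ 3) := by
      have h6 := PW_le (Z := D.ZG ((2 / 3) ^ K * T)) (T := T) (b := b i) D.hm hka
      have h7 := hBt i T h3 ((2 / 3) ^ K * T) h4 (by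
        have : (2 / 3 : ℝ) ^ K ≤ 1 := pow_le_one₀ (by norm_num) (by norm_num)
        nlinarith)
      rw [hG]
      simp only
      refine h6.trans (mul_le_mul_of_nonneg_left ?_ hCk0.le)
      rw [hL]
      exact h7
    rw [g3] at g2
    linarith
  -- assembly
  obtain ⟨M, hM⟩ : ∃ M : ℕ → ℝ, M = fun k => (2 / 3 * (2 / 3 : ℝ) ^ k * T) *
    Real.log (2 / 3 * (2 / 3 : ℝ) ^ k * T) := ⟨_, rfl⟩
  obtain ⟨P, hP⟩ : ∃ P : ℕ → ℕ → ℝ, P = fun k i => PW (zw D.ZG (2 / 3 * (2 / 3) ^ k * T)) D.m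
    (2 / 3 * (2 / 3) ^ k * T) (b i) := ⟨_, rfl⟩
  have hMk : ∀ k, (2 / 3 * (2 / 3 : ℝ) ^ k * T) *
    Real.log (2 / 3 * (2 / 3 : ℝ) ^ k * T) = M k := fun k => by rw [hM]
  have hPk : ∀ k i, PW (zw D.ZG (2 / 3 * (2 / 3) ^ k * T)) D.m
    (2 / 3 * (2 / 3) ^ k * T) (b i) = P k i := fun k i => by rw [hP]
  simp only [hMk, hPk] at h2 hsum hi
  have key : ∀ i ∈ range n, (PW (D.ZG T) D.m T (b i) - T * L / (2 * Real.pi) *
      (1 / b i + b i / 6)) / (b i) ^ 2 ≤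
      ∑ k ∈ range K, (P k i - M k / (4 * Real.pi) * (1 / b i + b i / 6)) / (b i) ^ 2 +
      (K * η * (T * L)) * (1 / (b i) ^ 2) + (Ck * Ct * (2 / 3) ^ K * (T * L)) * (1 / (b i) ^ 3) +
      (Ck * L ^ 3) * (B i / (b i) ^ 2) := by
    intro i hi'
    have hb' := hbpos i
    have h6 := hi i hi'
    have h7 : (∑ k ∈ range K, M k) / (4 * Real.pi) * (1 / b i + b i / 6) ≤
        T * L / (2 * Real.pi) * (1 / b i + b i / 6) := by
      apply mul_le_mul_of_nonneg_right _ (by positivity)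
      rw [div_le_div_iff₀ (by positivity) (by positivity)]
      nlinarith
    have h8 : PW (D.ZG T) D.m T (b i) - T * L / (2 * Real.pi) * (1 / b i + b i / 6) ≤
        ∑ k ∈ range K, (P k i - M k / (4 * Real.pi) * (1 / b i + b i / 6)) +
        K * η * (T * L) + Ck * (Ct / b i * ((2 / 3) ^ K * T * L) + B i * L ^ 3) := by
      rw [Finset.sum_sub_distrib, ← Finset.sum_mul, ← Finset.sum_div]
      linarith
    have h9 := div_le_div_of_nonneg_right h8 (pow_nonneg hb'.le 2)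
    refine h9.trans (le_of_eq ?_)
    rw [← Finset.sum_div]
    generalize ∑ k ∈ range K, (P k i - M k / (4 * Real.pi) * (1 / b i + b i / 6)) = Q
    field_simp
    ring
  have h10 := Finset.sum_le_sum key
  rw [Finset.sum_add_distrib, Finset.sum_add_distrib, Finset.sum_add_distrib, ← Finset.mul_sum,
    ← Finset.mul_sum, ← Finset.mul_sum, ← hS1, ← hS2, ← hS3, Finset.sum_comm] at h10
  have h11 : ∑ k ∈ range K, ∑ i ∈ range n, (P k i - M k / (4 * Real.pi) *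
      (1 / b i + b i / 6)) / (b i) ^ 2 ≤ ∑ k ∈ range K, Cw * (Real.sqrt n + 1) * M k :=
    Finset.sum_le_sum h2
  rw [← Finset.mul_sum] at h11
  have hCw' : 0 ≤ Cw * (Real.sqrt n + 1) := by positivity
  have h12 := mul_le_mul_of_nonneg_left hsum hCw'
  have hTL0 : 0 < T * L := by positivity
  have h13 : (K * η * (T * L)) * S1 ≤ 1 / (6 * Real.pi) * (T * L) := by
    calc _ = (K * η * S1) * (T * L) := by ring
      _ ≤ _ := mul_le_mul_of_nonneg_right hη2 hTL0.le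
  have h14 : (Ck * Ct * (2 / 3) ^ K * (T * L)) * S2 ≤ 1 / (6 * Real.pi) * (T * L) := by
    calc _ = (Ck * Ct * S2 * (2 / 3) ^ K) * (T * L) := by ring
      _ ≤ _ := mul_le_mul_of_nonneg_right hK hTL0.le
  have h15 : (Ck * L ^ 3) * S3 ≤ 1 / (6 * Real.pi) * (T * L) := by
    calc (Ck * L ^ 3) * S3 = Ck * S3 * L ^ 3 := by ring
      _ ≤ 1 / (6 * Real.pi) * T := h5
      _ ≤ 1 / (6 * Real.pi) * (T * L) := by
        apply mul_le_mul_of_nonneg_left _ (by positivity)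
        nlinarith
  have h16 : 3 * (1 / (6 * Real.pi) * (T * L)) = T * L / (2 * Real.pi) := by
    field_simp
    norm_num
  have h17 : Cw * (Real.sqrt n + 1) * (2 * (T * L)) = 4 * Real.pi * Cw * (Real.sqrt n + 1) *
      (T * L / (2 * Real.pi)) := by
    field_simp
    ring
  have h18 : T * L / (2 * Real.pi) ≤ (Real.sqrt n + 1) * (T * L / (2 * Real.pi)) := by
    have : 0 ≤ Real.sqrt n := Real.sqrt_nonneg _
    have h19 : 0 < T * L / (2 * Real.pi) := by positivity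
    nlinarith
  calc _ ≤ _ := h10
    _ ≤ 4 * Real.pi * Cw * (Real.sqrt n + 1) * (T * L / (2 * Real.pi)) +
        (Real.sqrt n + 1) * (T * L / (2 * Real.pi)) := by linarith
    _ = _ := by ring

end Pool.Agent.H606.OS.P.N1G
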