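import Pool.Agent.H606.OS.Stm

set_option autoImplicit false

open MeasureTheory Filter Topology Finset
open Pool.Agent.H606.OS

namespace Pool.Agent.H606.OS.P.N1W

theorem sum_b (n : ℕ) (b0 : ℝ) : ∑ i ∈ range n, b0 / 2 ^ i = 2 * b0 * (1 - 1 / 2 ^ n) := by
  induction n with
  | zero => simp
  | succ n ih =>
    rw [Finset.sum_range_succ, ih, pow_succ]
    have : (2 : ℝ) ^ n ≠ 0 := by positivity
    field_simp
    ring

theorem sum_b_le (n : ℕ) {b0 : ℝ} (hb : 0 < b0) (hb' : b0 ≤ 1 / 12) :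
    ∑ i ∈ range n, b0 / 2 ^ i ≤ 1 := by
  rw [sum_b]
  have h1 : (0 : ℝ) < 1 / 2 ^ n := by positivity
  nlinarith

/-- Cauchy-Schwarz. -/
theorem cs (n : ℕ) (I b : ℕ → ℝ) (hI : ∀ i, 0 ≤ I i) {S : ℝ}
    (h : ∑ i ∈ range n, I i / b i ^ 2 ≤ S) :
    ∑ i ∈ range n, Real.sqrt (I i) / b i ≤ Real.sqrt n * Real.sqrt S := by
  have h1 := sq_sum_le_card_mul_sum_sq (s := range n) (f := fun i => Real.sqrt (I i) / b i)
  have h2 : ∑ i ∈ range n, (Real.sqrt (I i) / b i) ^ 2 = ∑ i ∈ range n, I i / b i ^ 2 :=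
    Finset.sum_congr rfl fun i _ => by rw [div_pow, Real.sq_sqrt (hI i)]
  rw [h2, Finset.card_range] at h1
  rw [← Real.sqrt_mul (Nat.cast_nonneg n)]
  apply Real.le_sqrt_of_sq_le
  exact h1.trans (mul_le_mul_of_nonneg_left h (Nat.cast_nonneg n))

/-- One scale. -/
theorem scale {T L b A P Q C η : ℝ} (hL : 0 < L) (hb : 0 < b)
    (hA : A = 2 * Real.pi / (b * L) * P)
    (h : A ≤ (1 / b ^ 2 + 1 / 6) * (T / 2) + C * Real.sqrt T * Q + C * b ^ 2 * T + η * T) :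
    (P - T * L / (4 * Real.pi) * (1 / b + b / 6)) / b ^ 2 ≤
      L / (2 * Real.pi) * (C * Real.sqrt T * (Q / b) + C * T * b + η * T * (1 / b)) := by
  have hpi := Real.pi_pos
  have hP : P = b * L / (2 * Real.pi) * A := by
    rw [hA]
    field_simp
  have e1 : (P - T * L / (4 * Real.pi) * (1 / b + b / 6)) / b ^ 2 =
      L / (2 * Real.pi * b) * (A - (1 / b ^ 2 + 1 / 6) * (T / 2)) := by
    rw [hP]
    field_simp
    ring
  have e2 : L / (2 * Real.pi) * (C * Real.sqrt T * (Q / b) + C * T * b + η * T * (1 / b)) =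
      L / (2 * Real.pi * b) * (C * Real.sqrt T * Q + C * b ^ 2 * T + η * T) := by
    field_simp
  rw [e1, e2]
  apply mul_le_mul_of_nonneg_left _ (by positivity)
  linarith

theorem t_N1W (hPAR : S_PAR) (hW4 : S_W4) (hW5 : S_W5) : S_N1W := by
  intro C0 hC0
  obtain ⟨C4, hC4, h4⟩ := hW4 C0 hC0
  obtain ⟨C5, hC5, h5⟩ := hW5 C0 hC0
  refine ⟨C4 * Real.sqrt C5 + C4 + 1, by positivity, ?_⟩
  intro D n b0 hb0 hb0'
  have hb : ∀ i : ℕ, 0 < b0 / 2 ^ i := fun i => by positivity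
  have hb' : ∀ i : ℕ, b0 / 2 ^ i ≤ 1 / 12 := by
    intro i
    refine le_trans ?_ hb0'
    exact div_le_self hb0.le (one_le_pow₀ (by norm_num))
  set H : ℝ := ∑ i ∈ range n, 1 / (b0 / 2 ^ i) with hH
  have hH0 : 0 ≤ H := Finset.sum_nonneg fun i _ => by positivity
  set η : ℝ := 1 / (1 + H) with hη
  have hη0 : 0 < η := by positivity
  have hηH : η * H ≤ 1 := by
    rw [hη, one_div, inv_mul_eq_div, div_le_one (by positivity)]
    linarith
  have hev : ∀ᶠ T in atTop, ∀ i ∈ range n,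
      ∫ t : ℝ, AF (zw D.ZG T) D.m T (b0 / 2 ^ i) t ^ 2 ≤
        (1 / (b0 / 2 ^ i) ^ 2 + 1 / 6) * (T / 2) +
        C4 * Real.sqrt T * Real.sqrt (∫ t : ℝ, QF (zw D.ZG T) D.m T (b0 / 2 ^ i) t ^ 2) +
        C4 * (b0 / 2 ^ i) ^ 2 * T + η * T :=
    (Filter.eventually_all_finset (range n)).mpr fun i _ => h4 D _ (hb i) (hb' i) η hη0
  filter_upwards [hev, h5 D n b0 hb0 hb0', eventually_gt_atTop 1] with T e4 e5 hT
  have hT0 : 0 < T := by linarith
  have hL : 0 < Real.log T := Real.log_pos hT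
  set I : ℕ → ℝ := fun i => ∫ t : ℝ, QF (zw D.ZG T) D.m T (b0 / 2 ^ i) t ^ 2 with hI
  have hI0 : ∀ i, 0 ≤ I i := fun i => integral_nonneg fun t => sq_nonneg _
  have hcs := cs n I (fun i => b0 / 2 ^ i) hI0 e5
  have h1 : ∑ i ∈ range n, (PW (zw D.ZG T) D.m T (b0 / 2 ^ i) -
      T * Real.log T / (4 * Real.pi) * (1 / (b0 / 2 ^ i) + b0 / 2 ^ i / 6)) / (b0 / 2 ^ i) ^ 2 ≤
      ∑ i ∈ range n, Real.log T / (2 * Real.pi) *
        (C4 * Real.sqrt T * (Real.sqrt (I i) / (b0 / 2 ^ i)) + C4 * T * (b0 / 2 ^ i) +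
          η * T * (1 / (b0 / 2 ^ i))) := by
    apply Finset.sum_le_sum
    intro i hi
    exact scale hL (hb i) (hPAR _ _ _ _ hT (hb i)) (e4 i hi)
  refine h1.trans ?_
  rw [← Finset.mul_sum, Finset.sum_add_distrib, Finset.sum_add_distrib, ← Finset.mul_sum,
    ← Finset.mul_sum, ← Finset.mul_sum, ← hH]
  have hsT : Real.sqrt T * Real.sqrt T = T := Real.mul_self_sqrt hT0.le
  have t1 : C4 * Real.sqrt T * ∑ i ∈ range n, Real.sqrt (I i) / (b0 / 2 ^ i) ≤
      C4 * Real.sqrt C5 * Real.sqrt n * T := by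
    calc C4 * Real.sqrt T * ∑ i ∈ range n, Real.sqrt (I i) / (b0 / 2 ^ i)
        ≤ C4 * Real.sqrt T * (Real.sqrt n * Real.sqrt (C5 * T)) :=
          mul_le_mul_of_nonneg_left hcs (by positivity)
      _ = C4 * Real.sqrt C5 * Real.sqrt n * (Real.sqrt T * Real.sqrt T) := by
          rw [Real.sqrt_mul hC5.le]
          ring
      _ = C4 * Real.sqrt C5 * Real.sqrt n * T := by rw [hsT]
  have t2 : C4 * T * ∑ i ∈ range n, b0 / 2 ^ i ≤ C4 * T := by
    calc C4 * T * ∑ i ∈ range n, b0 / 2 ^ i ≤ C4 * T * 1 :=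
          mul_le_mul_of_nonneg_left (sum_b_le n hb0 hb0') (by positivity)
      _ = C4 * T := mul_one _
  have t3 : η * T * H ≤ T := by
    calc η * T * H = (η * H) * T := by ring
      _ ≤ 1 * T := mul_le_mul_of_nonneg_right hηH hT0.le
      _ = T := one_mul _
  have hsn : 0 ≤ Real.sqrt n := Real.sqrt_nonneg _
  have hs5 : 0 ≤ Real.sqrt C5 := Real.sqrt_nonneg _
  have hLpi : Real.log T / (2 * Real.pi) ≤ Real.log T := by
    apply div_le_self hL.le
    have := Real.pi_gt_three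
    linarith
  calc Real.log T / (2 * Real.pi) *
        (C4 * Real.sqrt T * ∑ i ∈ range n, Real.sqrt (I i) / (b0 / 2 ^ i) +
          C4 * T * ∑ i ∈ range n, b0 / 2 ^ i + η * T * H)
      ≤ Real.log T / (2 * Real.pi) * (C4 * Real.sqrt C5 * Real.sqrt n * T + C4 * T + T) := by
        apply mul_le_mul_of_nonneg_left _ (by positivity)
        linarith
    _ ≤ Real.log T * (C4 * Real.sqrt C5 * Real.sqrt n * T + C4 * T + T) :=
        mul_le_mul_of_nonneg_right hLpi (by positivity)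
    _ = (C4 * Real.sqrt C5 * Real.sqrt n + C4 + 1) * (T * Real.log T) := by ring
    _ ≤ (C4 * Real.sqrt C5 + C4 + 1) * (Real.sqrt n + 1) * (T * Real.log T) := by
        apply mul_le_mul_of_nonneg_right _ (by positivity)
        have a1 : 0 ≤ C4 * Real.sqrt n := by positivity
        have a2 : 0 ≤ C4 * Real.sqrt C5 := by positivity
        linarith

end Pool.Agent.H606.OS.P.N1W
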