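import Pool.Agent.H606.OS.Stm

/-!
# Project OS (helper606), task N2G (helper353): the lower bound for the pair sums of all zeros
-/

open MeasureTheory Filter Topology Finset
open Pool.Agent.H606.OS

namespace Pool.Agent.H606.OS.P.N2G

lemma PW_nonneg (hKK : S_KK) (Z : Finset ℂ) (m : ℂ → ℝ) (hm : ∀ s, 0 ≤ m s) (T b : ℝ) :
    0 ≤ PW Z m T b := by
  obtain ⟨C, -, -, -, -, hk, -⟩ := hKK
  unfold PW
  exact sum_nonneg fun s _ => sum_nonneg fun s' _ => mul_nonneg (mul_nonneg (hm s) (hm s')) (hk _)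

/-- the lower bound in one window -/
lemma win (hN2W : S_N2W) {C0 : ℝ} (h0 : 0 < C0) (D : ZD C0) (b : ℝ) (hb : 0 < b)
    (hb1 : b ≤ 1 / 12) (c : ℝ) (hc : 0 < c) (hc1 : c ≤ 1) (ε : ℝ) (hε : 0 < ε) :
    ∀ᶠ T in atTop, 1 / b * c * (T * Real.log T / (4 * Real.pi)) - ε * (T * Real.log T) ≤
      PW (zw D.ZG (c * T)) D.m (c * T) b := by
  have h1 := hN2W C0 h0 D b hb hb1 ε hε
  have ht : Tendsto (fun T : ℝ => c * T) atTop atTop := tendsto_id.const_mul_atTop hc
  have h2 := ht.eventually h1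
  obtain ⟨E, hE⟩ : ∃ E, E = (1 / b - ε) * c * Real.log c / (4 * Real.pi) := ⟨_, rfl⟩
  have h3 : ∀ᶠ T in atTop, 2 * |E| / ε ≤ Real.log T := Real.tendsto_log_atTop.eventually_ge_atTop _
  filter_upwards [h2, h3, eventually_ge_atTop (1 : ℝ)] with T h4 h5 h6
  refine le_trans ?_ h4
  rw [Real.log_mul hc.ne' (by linarith)]
  have hpi := Real.pi_gt_three
  have hL : 0 ≤ Real.log T := Real.log_nonneg h6
  have h7 : 2 * |E| ≤ ε * Real.log T := by
    rw [div_le_iff₀ hε] at h5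
    linarith
  have h8 : -|E| ≤ E := neg_abs_le E
  have h9 : c / (4 * Real.pi) ≤ 1 / 2 := by
    rw [div_le_div_iff₀ (by positivity) (by norm_num)]
    linarith
  have h10 : 0 ≤ T * (ε * Real.log T * (1 - c / (4 * Real.pi)) + E) := by
    apply mul_nonneg (by linarith)
    have h11 : ε * Real.log T * (1 / 2) ≤ ε * Real.log T * (1 - c / (4 * Real.pi)) :=
      mul_le_mul_of_nonneg_left (by linarith) (mul_nonneg hε.le hL)
    linarith
  have h12 : (1 / b - ε) * (c * T * (Real.log c + Real.log T) / (4 * Real.pi)) -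
      (1 / b * c * (T * Real.log T / (4 * Real.pi)) - ε * (T * Real.log T)) =
      T * (ε * Real.log T * (1 - c / (4 * Real.pi)) + E) := by
    rw [hE]
    ring
  linarith

/-- the sum of the windows -/
lemma steps (hSTEP : S_STEP) (hN2W : S_N2W) {C0 : ℝ} (h0 : 0 < C0) (D : ZD C0) (b : ℝ)
    (hb : 0 < b) (hb1 : b ≤ 1 / 12) (K : ℕ) : ∀ ε : ℝ, 0 < ε → ∀ᶠ T in atTop,
      1 / b * (1 - (2 / 3) ^ K) * (T * Real.log T / (2 * Real.pi)) +
        PW (D.ZG ((2 / 3) ^ K * T)) D.m T b - ε * (T * Real.log T) ≤ PW (D.ZG T) D.m T b := by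
  induction K with
  | zero =>
    intro ε hε
    filter_upwards [eventually_ge_atTop (1 : ℝ)] with T hT
    have hL : 0 ≤ Real.log T := Real.log_nonneg hT
    have : 0 ≤ ε * (T * Real.log T) := mul_nonneg hε.le (mul_nonneg (by linarith) hL)
    rw [pow_zero, sub_self, mul_zero, zero_mul, zero_add, one_mul]
    linarith
  | succ K ih =>
    intro ε hε
    have hK0 : (0 : ℝ) < (2 / 3) ^ K := by positivity
    have hK1 : ((2 : ℝ) / 3) ^ K ≤ 1 := pow_le_one₀ (by norm_num) (by norm_num)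
    have hc0 : (0 : ℝ) < 2 / 3 * (2 / 3) ^ K := by positivity
    have h1 := ih (ε / 3) (by positivity)
    have h2 := hSTEP C0 h0 D b ((2 / 3) ^ K) hb hb1 hK0 hK1 (ε / 3) (by positivity)
    have h3 := win hN2W h0 D b hb hb1 (2 / 3 * (2 / 3) ^ K) hc0 (by linarith) (ε / 3) (by positivity)
    filter_upwards [h1, h2, h3] with T h4 h5 h6
    have h7 := (abs_le.1 h5).1
    have h8 : ((2 : ℝ) / 3) ^ (K + 1) * T = 2 / 3 * (2 / 3) ^ K * T := by
      rw [pow_succ]
      ring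
    rw [h8]
    have h9 : 1 / b * (2 / 3 * (2 / 3) ^ K) * (T * Real.log T / (4 * Real.pi)) =
        1 / b * (1 - (2 / 3) ^ (K + 1)) * (T * Real.log T / (2 * Real.pi)) -
        1 / b * (1 - (2 / 3) ^ K) * (T * Real.log T / (2 * Real.pi)) := by
      rw [pow_succ]
      have := Real.pi_ne_zero
      field_simp
      ring
    linarith

theorem t_N2G (hKK : S_KK) (hSTEP : S_STEP) (hN2W : S_N2W) : S_N2G := by
  intro C0 h0 D b hb hb1 η hη
  obtain ⟨K, hK⟩ := exists_pow_lt_of_lt_one (show (0 : ℝ) < b * (η / 2) by positivity)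
    (show (2 : ℝ) / 3 < 1 by norm_num)
  have hpi := Real.pi_gt_three
  have h1 := steps hSTEP hN2W h0 D b hb hb1 K (η / (4 * Real.pi)) (by positivity)
  filter_upwards [h1, eventually_ge_atTop (1 : ℝ)] with T h2 hT
  have h3 := PW_nonneg hKK (D.ZG ((2 / 3) ^ K * T)) D.m D.hm T b
  have hL : 0 ≤ Real.log T := Real.log_nonneg hT
  have hX : 0 ≤ T * Real.log T / (2 * Real.pi) :=
    div_nonneg (mul_nonneg (by linarith) hL) (by positivity)
  have h4 : η / (4 * Real.pi) * (T * Real.log T) = η / 2 * (T * Real.log T / (2 * Real.pi)) := by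
    field_simp
    ring
  have h5 : 1 / b * (2 / 3) ^ K ≤ η / 2 := by
    rw [one_div, inv_mul_le_iff₀ hb]
    exact hK.le
  have h6 : (1 / b - η) * (T * Real.log T / (2 * Real.pi)) ≤
      (1 / b * (1 - (2 / 3) ^ K) - η / 2) * (T * Real.log T / (2 * Real.pi)) :=
    mul_le_mul_of_nonneg_right (by linarith) hX
  rw [h4] at h2
  linarith

end Pool.Agent.H606.OS.P.N2G
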