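import Pool.Agent.H606.OS.Stm

open MeasureTheory Filter Topology Finset
open Pool.Agent.H606.OS

namespace Pool.Agent.H606.OS.P.N2W

/-- Cauchy-Schwarz on an interval -/
theorem cs (f : ℝ → ℝ) (hf : Continuous f) (a b : ℝ) (hab : a < b) :
    (∫ t in a..b, f t) ^ 2 / (b - a) ≤ ∫ t in a..b, f t ^ 2 := by
  set I := ∫ t in a..b, f t with hI
  have hd : 0 < b - a := by linarith
  set c := I / (b - a) with hc
  have h0 : 0 ≤ ∫ t in a..b, (f t - c) ^ 2 :=
    intervalIntegral.integral_nonneg hab.le fun t _ => sq_nonneg _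
  have e : ∫ t in a..b, (f t - c) ^ 2 = (∫ t in a..b, f t ^ 2) - 2 * c * I + c ^ 2 * (b - a) := by
    have e1 : (fun t => (f t - c) ^ 2) = fun t => (f t ^ 2 - 2 * c * f t) + c ^ 2 := by
      funext t; ring
    rw [e1, intervalIntegral.integral_add, intervalIntegral.integral_sub,
      intervalIntegral.integral_const_mul, intervalIntegral.integral_const, smul_eq_mul, ← hI]
    · ring
    · exact (hf.pow 2).intervalIntegrable _ _
    · exact (continuous_const.mul hf).intervalIntegrable _ _
    · exact ((hf.pow 2).sub (continuous_const.mul hf)).intervalIntegrable _ _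
    · exact continuous_const.intervalIntegrable _ _
  rw [e] at h0
  have e2 : c * (b - a) = I := by rw [hc]; field_simp
  have e3 : I ^ 2 / (b - a) = c * I := by rw [hc]; ring
  have e5 : c ^ 2 * (b - a) = c * I := by rw [← e2]; ring
  rw [e5] at h0
  rw [e3]
  linarith

theorem t_N2W (hNICE : S_NICE) (hPAR : S_PAR) (hW2 : S_W2) : S_N2W := by
  intro C0 hC0 D b hb hb1 η hη
  obtain ⟨_, hmul, _, _, hint, hfield⟩ := hNICE
  set η' := min (η / 2) (1 / b) with hη'
  have hη0 : 0 < η' := lt_min (by linarith) (by positivity)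
  filter_upwards [hW2 C0 hC0 D b hb hb1 η' hη0, eventually_gt_atTop (Real.exp 1)] with T hw hT
  have hT0 : 0 < T := lt_trans (Real.exp_pos 1) hT
  have hL : 1 < Real.log T := by
    rw [Real.lt_log_iff_exp_lt hT0]
    exact hT
  have hL0 : 0 < Real.log T := by linarith
  have hT1 : 1 < T := by
    have := Real.add_one_le_exp (1 : ℝ)
    linarith
  set Z := zw D.ZG T with hZ
  obtain ⟨hA, -, -⟩ := hfield Z D.m T b hT1 hb
  have hA2 : Integrable (fun t => AF Z D.m T b t ^ 2) := by
    have := hint _ (hmul _ _ hA hA)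
    simpa only [sq] using this
  have h1 := cs (AF Z D.m T b) hA.1 T (3 * T / 2) (by linarith)
  have h2 : ∫ t in T..(3 * T / 2), AF Z D.m T b t ^ 2 ≤ ∫ t : ℝ, AF Z D.m T b t ^ 2 := by
    rw [intervalIntegral.integral_of_le (by linarith)]
    exact setIntegral_le_integral hA2 (Filter.Eventually.of_forall fun t => sq_nonneg _)
  rw [hPAR Z D.m T b hT1 hb] at h2
  have h3 := hw.2
  have h5 : 0 ≤ 1 / b - η' := by
    have := min_le_right (η / 2) (1 / b)
    linarith
  set I := ∫ t in T..(3 * T / 2), AF Z D.m T b t with hI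
  have h6 : ((1 / b - η') * (T / 2)) ^ 2 ≤ I ^ 2 := pow_le_pow_left₀ (by positivity) h3 2
  have e1 : 3 * T / 2 - T = T / 2 := by ring
  rw [e1] at h1
  have h7 : (1 / b - η') ^ 2 * (T / 2) ≤ 2 * Real.pi / (b * Real.log T) * PW Z D.m T b := by
    refine le_trans ?_ (h1.trans h2)
    rw [le_div_iff₀ (by linarith)]
    calc (1 / b - η') ^ 2 * (T / 2) * (T / 2) = ((1 / b - η') * (T / 2)) ^ 2 := by ring
      _ ≤ I ^ 2 := h6
  have hpi := Real.pi_pos
  have h8 : b * Real.log T / (2 * Real.pi) * ((1 / b - η') ^ 2 * (T / 2)) ≤ PW Z D.m T b := by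
    have := mul_le_mul_of_nonneg_left h7 (show 0 ≤ b * Real.log T / (2 * Real.pi) by positivity)
    have e2 : b * Real.log T / (2 * Real.pi) * (2 * Real.pi / (b * Real.log T) * PW Z D.m T b) =
        PW Z D.m T b := by
      field_simp
    rwa [e2] at this
  refine le_trans ?_ h8
  have e3 : b * Real.log T / (2 * Real.pi) * ((1 / b - η') ^ 2 * (T / 2)) =
      (b * (1 / b - η') ^ 2) * (T * Real.log T / (4 * Real.pi)) := by ring
  rw [e3]
  refine mul_le_mul_of_nonneg_right ?_ (by positivity)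
  have e4 : b * (1 / b - η') ^ 2 = 1 / b - 2 * η' + b * η' ^ 2 := by
    field_simp
    ring
  rw [e4]
  have h9 := min_le_left (η / 2) (1 / b)
  have h10 : 0 ≤ b * η' ^ 2 := by positivity
  linarith

end Pool.Agent.H606.OS.P.N2W
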