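import Pool.Agent.H606.OS.Stm

open MeasureTheory Filter Topology Finset
open Pool.Agent.H606.OS

namespace Pool.Agent.H606.OS.P.NICE

lemma ka_pos (x : ℝ) : 0 < ka x := by
  unfold ka; positivity

lemma ka_le_one (x : ℝ) : ka x ≤ 1 := by
  unfold ka
  rw [div_le_one (by positivity)]
  nlinarith [sq_nonneg x]

lemma integrable_ka : Integrable ka := by
  have h := integrable_inv_one_add_sq
  refine h.congr (Filter.Eventually.of_forall fun x => ?_)
  simp [ka, one_div]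

lemma nice_mul {f g : ℝ → ℝ} (hf : Nice f) (hg : Nice g) : Nice (fun t => f t * g t) := by
  obtain ⟨hfc, K, hK⟩ := hf
  obtain ⟨hgc, M, hM⟩ := hg
  refine ⟨hfc.mul hgc, |K| * |M|, fun t => ?_⟩
  have h1 : |f t| ≤ |K| * ka t :=
    (hK t).trans (mul_le_mul_of_nonneg_right (le_abs_self K) (ka_pos t).le)
  have h2 : |g t| ≤ |M| * ka t :=
    (hM t).trans (mul_le_mul_of_nonneg_right (le_abs_self M) (ka_pos t).le)
  have h3 : |g t| ≤ |M| * 1 :=
    h2.trans (mul_le_mul_of_nonneg_left (ka_le_one t) (abs_nonneg M))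
  rw [abs_mul]
  calc |f t| * |g t| ≤ (|K| * ka t) * (|M| * 1) :=
        mul_le_mul h1 h3 (abs_nonneg _) (mul_nonneg (abs_nonneg _) (ka_pos t).le)
    _ = |K| * |M| * ka t := by ring

lemma nice_add {f g : ℝ → ℝ} (hf : Nice f) (hg : Nice g) : Nice (fun t => f t + g t) := by
  obtain ⟨hfc, K, hK⟩ := hf
  obtain ⟨hgc, M, hM⟩ := hg
  refine ⟨hfc.add hgc, K + M, fun t => ?_⟩
  calc |f t + g t| ≤ |f t| + |g t| := abs_add_le _ _
    _ ≤ K * ka t + M * ka t := add_le_add (hK t) (hM t)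
    _ = (K + M) * ka t := by ring

lemma nice_const_mul {f : ℝ → ℝ} (c : ℝ) (hf : Nice f) : Nice (fun t => c * f t) := by
  obtain ⟨hfc, K, hK⟩ := hf
  refine ⟨continuous_const.mul hfc, |c| * K, fun t => ?_⟩
  rw [abs_mul]
  calc |c| * |f t| ≤ |c| * (K * ka t) := mul_le_mul_of_nonneg_left (hK t) (abs_nonneg c)
    _ = |c| * K * ka t := by ring

lemma nice_integrable {f : ℝ → ℝ} (hf : Nice f) : Integrable f := by
  obtain ⟨hfc, K, hK⟩ := hf
  refine Integrable.mono' (integrable_ka.const_mul K) hfc.aestronglyMeasurable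
    (Filter.Eventually.of_forall fun t => ?_)
  rw [Real.norm_eq_abs]
  exact hK t

lemma nice_zero : Nice (fun _ => (0 : ℝ)) := by
  refine ⟨continuous_const, 0, fun t => ?_⟩
  simp

lemma nice_sum {ι : Type*} (Z : Finset ι) (f : ι → ℝ → ℝ) (h : ∀ s ∈ Z, Nice (f s)) :
    Nice (fun t => ∑ s ∈ Z, f s t) := by
  classical
  induction Z using Finset.induction_on with
  | empty => simpa using nice_zero
  | insert a Z ha ih =>
    have h1 : Nice (f a) := h a (Finset.mem_insert_self a Z)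
    have h2 : Nice (fun t => ∑ s ∈ Z, f s t) := ih fun s hs => h s (Finset.mem_insert_of_mem hs)
    have h3 := nice_add h1 h2
    have h4 : (fun t => ∑ s ∈ insert a Z, f s t) = fun t => f a t + ∑ s ∈ Z, f s t := by
      funext t
      rw [Finset.sum_insert ha]
    rw [h4]
    exact h3

/-- shift and scale -/
lemma ka_shift (a γ : ℝ) (ha : 0 < a) : ∃ K : ℝ, 0 ≤ K ∧ ∀ t, ka (a * (γ - t)) ≤ K * ka t := by
  refine ⟨1 + 2 * γ ^ 2 + 2 / a ^ 2, by positivity, fun t => ?_⟩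
  unfold ka
  rw [mul_one_div, div_le_div_iff₀ (by positivity) (by positivity)]
  have ha2 : 0 < a ^ 2 := by positivity
  have h1 : t ^ 2 ≤ 2 * (γ - t) ^ 2 + 2 * γ ^ 2 := by nlinarith [sq_nonneg (γ - t - γ), sq_nonneg (γ - t + γ), sq_nonneg (2 * γ - t)]
  have h2 : 2 / a ^ 2 * (1 + (a * (γ - t)) ^ 2) = 2 / a ^ 2 + 2 * (γ - t) ^ 2 := by
    field_simp
  have h3 : (1 + 2 * γ ^ 2) * 1 ≤ (1 + 2 * γ ^ 2) * (1 + (a * (γ - t)) ^ 2) :=
    mul_le_mul_of_nonneg_left (by nlinarith [sq_nonneg (a * (γ - t))]) (by positivity)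
  have h4 : 0 < 2 / a ^ 2 := by positivity
  nlinarith [h1, h2, h3, h4]

lemma nice_comp {f : ℝ → ℝ} (hf : Nice f) (a γ : ℝ) (ha : 0 < a) :
    Nice (fun t => f (a * (γ - t))) := by
  obtain ⟨hfc, K, hK⟩ := hf
  obtain ⟨M, hM0, hM⟩ := ka_shift a γ ha
  refine ⟨hfc.comp (by fun_prop), |K| * M, fun t => ?_⟩
  calc |f (a * (γ - t))| ≤ K * ka (a * (γ - t)) := hK _
    _ ≤ |K| * ka (a * (γ - t)) := mul_le_mul_of_nonneg_right (le_abs_self K) (ka_pos _).le
    _ ≤ |K| * (M * ka t) := mul_le_mul_of_nonneg_left (hM t) (abs_nonneg K)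
    _ = |K| * M * ka t := by ring

theorem t_NICE (hFJ : S_FJ) (hFC : S_FC) : S_NICE := by
  obtain ⟨C, hC1, hfjc, -, hfjb, -, -, hppc, -, hppb⟩ := hFJ
  obtain ⟨C', hC', hfcc, -, hfcb⟩ := hFC
  have hfj : Nice fj := ⟨hfjc, C, fun t => by
    rw [abs_of_nonneg (hfjb t).1]; exact (hfjb t).2⟩
  have hpp : Nice pp := ⟨hppc, C, hppb⟩
  have hfc : ∀ v, Nice (fun x => fc x v) := fun v => ⟨hfcc v, C' * Real.exp (2 * |v|), fun x => hfcb x v⟩
  refine ⟨integrable_ka, fun f g hf hg => nice_mul hf hg, fun f g hf hg => nice_add hf hg,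
    fun f c hf => nice_const_mul c hf, fun f hf => nice_integrable hf, ?_⟩
  intro Z m T b hT hb
  have ha : 0 < b * Real.log T := mul_pos hb (Real.log_pos hT)
  refine ⟨?_, ?_, ?_⟩
  · have h : Nice (fun t => ∑ s ∈ Z, m s * fj (b * Real.log T * (s.im - t))) :=
      nice_sum Z _ fun s _ => nice_const_mul (m s) (nice_comp hfj _ s.im ha)
    exact h
  · have h : Nice (fun t => ∑ s ∈ Z, m s *
        fc (b * Real.log T * (s.im - t)) (b * Real.log T * (s.re - 1 / 2))) :=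
      nice_sum Z _ fun s _ => nice_const_mul (m s)
        (nice_comp (hfc (b * Real.log T * (s.re - 1 / 2))) _ s.im ha)
    exact h
  · have h : Nice (fun t => ∑ s ∈ Z, m s *
        ((b * Real.log T * (s.re - 1 / 2)) ^ 2 / 2 * pp (b * Real.log T * (s.im - t)))) :=
      nice_sum Z _ fun s _ => nice_const_mul (m s)
        (nice_const_mul _ (nice_comp hpp _ s.im ha))
    exact h

end Pool.Agent.H606.OS.P.NICE
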