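import Pool.Agent.H606.OS.Stm

open MeasureTheory Filter Topology Finset
open Pool.Agent.H606.OS
open scoped FourierTransform

namespace Pool.Agent.H606.OS.P.PL

theorem odd_int {g : ℝ → ℝ} (h : ∀ s, g (-s) = -g s) : ∫ s, g s = 0 := by
  have h1 := integral_neg_eq_self g volume
  have h2 : ∫ s, g (-s) = -∫ s, g s := by
    rw [← integral_neg]
    exact integral_congr_ae (Eventually.of_forall h)
  linarith

/-- Fourier integrals of even functions -/
theorem even_fourier {g : ℝ → ℝ} (hg : Integrable g) (he : ∀ s, g (-s) = g s) (c : ℝ) :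
    ∫ s, Complex.exp (((c * s : ℝ) : ℂ) * Complex.I) * (g s : ℂ) =
      ((∫ s, Real.cos (c * s) * g s : ℝ) : ℂ) := by
  have hcos : Integrable (fun s => Real.cos (c * s) * g s) := by
    refine hg.bdd_mul (c := 1) (by fun_prop) (Eventually.of_forall fun s => ?_)
    exact Real.abs_cos_le_one _
  have hsin : Integrable (fun s => Real.sin (c * s) * g s) := by
    refine hg.bdd_mul (c := 1) (by fun_prop) (Eventually.of_forall fun s => ?_)
    exact Real.abs_sin_le_one _
  have e1 : ∀ s, Complex.exp (((c * s : ℝ) : ℂ) * Complex.I) * (g s : ℂ) =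
      ((Real.cos (c * s) * g s : ℝ) : ℂ) + ((Real.sin (c * s) * g s : ℝ) : ℂ) * Complex.I := by
    intro s
    rw [Complex.exp_mul_I, ← Complex.ofReal_cos, ← Complex.ofReal_sin]
    push_cast
    ring
  simp only [e1]
  rw [integral_add hcos.ofReal (hsin.ofReal.mul_const _), integral_mul_const, integral_complex_ofReal,
    integral_complex_ofReal, odd_int (g := fun s => Real.sin (c * s) * g s)]
  · simp
  · intro s
    rw [he, mul_neg, Real.sin_neg]
    ring

theorem ka_int : Integrable ka := by
  unfold ka
  simpa using integrable_inv_one_add_sq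

theorem t_PL : S_PL := by
  intro φ hc he hs K hK x y
  have hsupp : ∀ g : ℝ → ℝ, ∫ u in (-1 : ℝ)..1, φ u * g u = ∫ u, φ u * g u := by
    intro g
    refine intervalIntegral.integral_eq_integral_of_support_subset fun u hu => ?_
    have h1 : φ u ≠ 0 := fun h => hu (by simp [h])
    have h2 : |u| < 1 := by
      by_contra h
      exact h1 (hs u (not_lt.1 h))
    rw [abs_lt] at h2
    exact ⟨h2.1, h2.2.le⟩
  set Φ : ℝ → ℝ := fun x => ∫ u in (-1 : ℝ)..1, φ u * Real.cos (u * x) with hΦ
  have hφi : Integrable φ := by
    refine hc.integrable_of_hasCompactSupport (HasCompactSupport.intro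
      (isCompact_Icc (a := -1) (b := 1)) fun u hu => hs u ?_)
    by_contra h
    rw [not_le, abs_lt] at h
    exact hu ⟨h.1.le, h.2.le⟩
  have hΦc : Continuous Φ :=
    intervalIntegral.continuous_parametric_intervalIntegral_of_continuous'
      (f := fun x u => φ u * Real.cos (u * x)) (by unfold Function.uncurry; fun_prop) _ _
  have hΦe : ∀ x, Φ (-x) = Φ x := by
    intro x
    refine intervalIntegral.integral_congr fun u _ => ?_
    rw [mul_neg, Real.cos_neg]
  have hΦi : Integrable Φ := (ka_int.const_mul K).mono' hΦc.aestronglyMeasurable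
    (Eventually.of_forall fun x => hK x)
  have hka : ∀ x, 0 ≤ ka x ∧ ka x ≤ 1 := by
    intro x
    unfold ka
    refine ⟨by positivity, ?_⟩
    rw [div_le_one (by positivity)]
    nlinarith [sq_nonneg x]
  have hK0 : 0 ≤ K := by
    by_contra h
    have h1 := hK 0
    have h2 : ka 0 = 1 := by unfold ka; norm_num
    rw [h2] at h1
    linarith [abs_nonneg (Φ 0), not_le.1 h]
  -- Fourier transform of φ
  have hF : ∀ w, 𝓕 (fun u => (φ u : ℂ)) w = (Φ (2 * Real.pi * w) : ℂ) := by
    intro w
    rw [Real.fourier_real_eq_integral_exp_smul]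
    have e1 := even_fourier hφi he (-2 * Real.pi * w)
    have e2 : ∫ v : ℝ, Complex.exp (((-2 * Real.pi * v * w : ℝ) : ℂ) * Complex.I) • (φ v : ℂ) =
        ∫ s, Complex.exp (((-2 * Real.pi * w * s : ℝ) : ℂ) * Complex.I) * (φ s : ℂ) := by
      refine integral_congr_ae (Eventually.of_forall fun s => ?_)
      simp only [smul_eq_mul]
      congr 3
      push_cast
      ring
    rw [e2, e1]
    congr 1
    rw [hΦ]
    beta_reduce
    rw [hsupp]
    refine integral_congr_ae (Eventually.of_forall fun s => ?_)
    beta_reduce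
    rw [mul_comm, ← Real.cos_neg]
    congr 2
    ring
  have hΦi2 : Integrable (fun w => Φ (2 * Real.pi * w)) := hΦi.comp_mul_left' (by positivity)
  have hinv : ∀ u, ∫ s, Real.cos (u * s) * Φ s = 2 * Real.pi * φ u := by
    intro u
    have h1 : 𝓕⁻ (𝓕 (fun u => (φ u : ℂ))) = fun u => (φ u : ℂ) := by
      refine Continuous.fourierInv_fourier_eq (by fun_prop) hφi.ofReal ?_
      have : 𝓕 (fun u => (φ u : ℂ)) = fun w => (Φ (2 * Real.pi * w) : ℂ) := funext hF
      rw [this]
      exact hΦi2.ofReal
    have h2 := congrFun h1 u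
    rw [Real.fourierInv_eq'] at h2
    simp only [hF] at h2
    have e1 := even_fourier hΦi2 (fun s => by rw [mul_neg, hΦe]) (2 * Real.pi * u)
    have e2 : ∫ v : ℝ, Complex.exp (((2 * Real.pi * inner ℝ v u : ℝ) : ℂ) * Complex.I) •
        (Φ (2 * Real.pi * v) : ℂ) =
        ∫ s, Complex.exp (((2 * Real.pi * u * s : ℝ) : ℂ) * Complex.I) *
          (Φ (2 * Real.pi * s) : ℂ) := by
      refine integral_congr_ae (Eventually.of_forall fun s => ?_)
      simp only [smul_eq_mul, RCLike.inner_apply, conj_trivial]
      congr 3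
      push_cast
      ring
    rw [e2, e1] at h2
    have h3 : ∫ s, Real.cos (2 * Real.pi * u * s) * Φ (2 * Real.pi * s) = φ u := by
      exact_mod_cast h2
    have h4 := Measure.integral_comp_mul_left (fun s => Real.cos (u * s) * Φ s) (2 * Real.pi)
    have h5 : ∫ s, Real.cos (u * (2 * Real.pi * s)) * Φ (2 * Real.pi * s) = φ u := by
      rw [← h3]
      refine integral_congr_ae (Eventually.of_forall fun s => ?_)
      beta_reduce
      congr 2
      ring
    rw [h5, smul_eq_mul, abs_of_pos (by positivity)] at h4
    rw [h4]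
    field_simp
  have hsin : ∀ u, ∫ s, Real.sin (u * s) * Φ s = 0 := fun u =>
    odd_int (g := fun s => Real.sin (u * s) * Φ s) fun s => by
      rw [hΦe, mul_neg, Real.sin_neg]; ring
  have hint : ∀ d : ℝ, Integrable (fun s => Φ (d + s) * Φ s) := by
    intro d
    refine hΦi.bdd_mul (c := K) (by fun_prop) (Eventually.of_forall fun s => ?_)
    refine (hK (d + s)).trans ?_
    calc K * ka (d + s) ≤ K * 1 := mul_le_mul_of_nonneg_left (hka _).2 hK0
      _ = K := mul_one K
  have hmain : ∀ d : ℝ, ∫ s, Φ (d + s) * Φ s =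
      2 * Real.pi * ∫ u in (-1 : ℝ)..1, φ u ^ 2 * Real.cos (u * d) := by
    intro d
    have e1 : ∀ s, Φ (d + s) * Φ s = ∫ u, φ u * Real.cos (u * (d + s)) * Φ s := by
      intro s
      rw [integral_mul_const, ← hsupp]
    simp only [e1]
    rw [integral_integral_swap]
    · have e2 : ∀ u, ∫ s, φ u * Real.cos (u * (d + s)) * Φ s =
          2 * Real.pi * (φ u * (φ u * Real.cos (u * d))) := by
        intro u
        have hcos : Integrable (fun s => Real.cos (u * s) * Φ s) := by
          refine hΦi.bdd_mul (c := 1) (by fun_prop) (Eventually.of_forall fun s => ?_)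
          exact Real.abs_cos_le_one _
        have hsin' : Integrable (fun s => Real.sin (u * s) * Φ s) := by
          refine hΦi.bdd_mul (c := 1) (by fun_prop) (Eventually.of_forall fun s => ?_)
          exact Real.abs_sin_le_one _
        have e3 : ∀ s, φ u * Real.cos (u * (d + s)) * Φ s =
            φ u * Real.cos (u * d) * (Real.cos (u * s) * Φ s) -
            φ u * Real.sin (u * d) * (Real.sin (u * s) * Φ s) := by
          intro s
          rw [mul_add, Real.cos_add]
          ring
        simp only [e3]
        rw [integral_sub (hcos.const_mul _) (hsin'.const_mul _), integral_const_mul,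
          integral_const_mul, hinv, hsin]
        ring
      simp only [e2]
      rw [integral_const_mul, ← hsupp]
      congr 1
      refine intervalIntegral.integral_congr fun u _ => ?_
      ring
    · have h1 : Integrable (fun p : ℝ × ℝ => Φ p.1 * φ p.2) := hΦi.mul_prod hφi
      refine (h1.bdd_mul (f := fun p : ℝ × ℝ => Real.cos (p.2 * (d + p.1))) (c := 1)
        (Continuous.aestronglyMeasurable (by fun_prop))
        (Eventually.of_forall fun p => Real.abs_cos_le_one _)).congr
        (Eventually.of_forall fun p => ?_)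
      simp only [Function.uncurry]
      ring
  have hsub : ∀ t, Φ (x - t) * Φ (y - t) = (fun s => Φ ((x - y) + s) * Φ s) (y - t) := by
    intro t
    beta_reduce
    congr 2
    ring
  have hsub' : (fun t => Φ (x - t) * Φ (y - t)) = fun t =>
      (fun s => Φ ((x - y) + s) * Φ s) (y - t) := funext hsub
  constructor
  · show Integrable (fun t => Φ (x - t) * Φ (y - t))
    rw [hsub']
    exact (hint (x - y)).comp_sub_left y
  · show ∫ t, Φ (x - t) * Φ (y - t) = _
    rw [hsub', integral_sub_left_eq_self (fun s => Φ ((x - y) + s) * Φ s) volume y]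
    exact hmain (x - y)

end Pool.Agent.H606.OS.P.PL
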