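import Pool.Agent.H606.OS.Stm

open MeasureTheory Filter Topology Finset
open Pool.Agent.H606.OS

namespace Pool.Agent.H606.OS.P.STEP

lemma dbl (A Z : Finset ℂ) (h : Disjoint A Z) (f : ℂ → ℂ → ℝ) :
    ∑ s ∈ A ∪ Z, ∑ s' ∈ A ∪ Z, f s s' =
      (∑ s ∈ A, ∑ s' ∈ A, f s s') + (∑ s ∈ Z, ∑ s' ∈ Z, f s s') +
      (∑ s ∈ A, ∑ s' ∈ Z, f s s') + ∑ s ∈ Z, ∑ s' ∈ A, f s s' := by
  simp only [sum_union h, sum_add_distrib]
  ring

/-- the error of the scale in the window -/
lemma scale_err (C : ℝ) (hC : 0 ≤ C)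
    (hθ : ∀ x θ : ℝ, 1 / 2 ≤ θ → θ ≤ 2 → |kk (θ * x) - kk x| ≤ C * |θ - 1| * ka x)
    (Z : Finset ℂ) (m : ℂ → ℝ) (hm : ∀ s, 0 ≤ m s) (b T S θ : ℝ) (h1 : 1 / 2 ≤ θ) (h2 : θ ≤ 2)
    (hTS : Real.log T = θ * Real.log S) (B : ℝ)
    (hB : ∑ s ∈ Z, ∑ s' ∈ Z, m s * m s' * ka (b * Real.log S * (s.im - s'.im)) ≤ B) :
    |PW Z m T b - PW Z m S b| ≤ C * |θ - 1| * B := by
  have hkey : PW Z m T b - PW Z m S b = ∑ s ∈ Z, ∑ s' ∈ Z, m s * m s' *
      (kk (b * Real.log T * (s.im - s'.im)) - kk (b * Real.log S * (s.im - s'.im))) := by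
    unfold PW
    rw [← sum_sub_distrib]
    refine sum_congr rfl fun s _ => ?_
    rw [← sum_sub_distrib]
    refine sum_congr rfl fun s' _ => ?_
    ring
  rw [hkey]
  calc |∑ s ∈ Z, ∑ s' ∈ Z, m s * m s' *
      (kk (b * Real.log T * (s.im - s'.im)) - kk (b * Real.log S * (s.im - s'.im)))|
      ≤ ∑ s ∈ Z, ∑ s' ∈ Z, |m s * m s' *
      (kk (b * Real.log T * (s.im - s'.im)) - kk (b * Real.log S * (s.im - s'.im)))| :=
        (abs_sum_le_sum_abs _ _).trans (sum_le_sum fun s _ => abs_sum_le_sum_abs _ _)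
    _ ≤ ∑ s ∈ Z, ∑ s' ∈ Z, C * |θ - 1| *
        (m s * m s' * ka (b * Real.log S * (s.im - s'.im))) := by
        refine sum_le_sum fun s _ => sum_le_sum fun s' _ => ?_
        have hmm : 0 ≤ m s * m s' := mul_nonneg (hm s) (hm s')
        rw [abs_mul, abs_of_nonneg hmm]
        have := hθ (b * Real.log S * (s.im - s'.im)) θ h1 h2
        have he : θ * (b * Real.log S * (s.im - s'.im)) = b * Real.log T * (s.im - s'.im) := by
          rw [hTS]; ring
        rw [he] at this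
        calc m s * m s' * |kk (b * Real.log T * (s.im - s'.im)) -
              kk (b * Real.log S * (s.im - s'.im))|
            ≤ m s * m s' * (C * |θ - 1| * ka (b * Real.log S * (s.im - s'.im))) :=
              mul_le_mul_of_nonneg_left this hmm
          _ = _ := by ring
    _ = C * |θ - 1| * ∑ s ∈ Z, ∑ s' ∈ Z,
        (m s * m s' * ka (b * Real.log S * (s.im - s'.im))) := by
        rw [mul_sum]
        refine sum_congr rfl fun s _ => ?_
        rw [mul_sum]
    _ ≤ C * |θ - 1| * B := mul_le_mul_of_nonneg_left hB (mul_nonneg hC (abs_nonneg _))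

/-- the pairs with one element on each side -/
lemma cross_le (C : ℝ) (hC : 0 ≤ C) (hnn : ∀ x, 0 ≤ kk x) (hka : ∀ x, kk x ≤ C * ka x)
    (A A' Z Z' : Finset ℂ) (hA : A ⊆ A') (hZ : Z ⊆ Z') (m : ℂ → ℝ) (hm : ∀ s, 0 ≤ m s)
    (a B : ℝ) (hB : ∑ s ∈ A', ∑ s' ∈ Z', m s * m s' * ka (a * (s.im - s'.im)) ≤ B) :
    0 ≤ ∑ s ∈ A, ∑ s' ∈ Z, m s * m s' * kk (a * (s.im - s'.im)) ∧
    ∑ s ∈ A, ∑ s' ∈ Z, m s * m s' * kk (a * (s.im - s'.im)) ≤ C * B := by
  have hkan : ∀ x, 0 ≤ ka x := fun x => by unfold ka; positivity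
  constructor
  · exact sum_nonneg fun s _ => sum_nonneg fun s' _ =>
      mul_nonneg (mul_nonneg (hm s) (hm s')) (hnn _)
  · calc ∑ s ∈ A, ∑ s' ∈ Z, m s * m s' * kk (a * (s.im - s'.im))
        ≤ ∑ s ∈ A, ∑ s' ∈ Z, C * (m s * m s' * ka (a * (s.im - s'.im))) := by
          refine sum_le_sum fun s _ => sum_le_sum fun s' _ => ?_
          have := mul_le_mul_of_nonneg_left (hka (a * (s.im - s'.im)))
            (mul_nonneg (hm s) (hm s'))
          calc _ ≤ _ := this
            _ = _ := by ring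
      _ = C * ∑ s ∈ A, ∑ s' ∈ Z, (m s * m s' * ka (a * (s.im - s'.im))) := by
          rw [mul_sum]
          refine sum_congr rfl fun s _ => ?_
          rw [mul_sum]
      _ ≤ C * B := by
          refine mul_le_mul_of_nonneg_left (le_trans ?_ hB) hC
          calc ∑ s ∈ A, ∑ s' ∈ Z, (m s * m s' * ka (a * (s.im - s'.im)))
              ≤ ∑ s ∈ A, ∑ s' ∈ Z', (m s * m s' * ka (a * (s.im - s'.im))) :=
                sum_le_sum fun s _ => sum_le_sum_of_subset_of_nonneg hZ fun s' _ _ =>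
                  mul_nonneg (mul_nonneg (hm s) (hm s')) (hkan _)
            _ ≤ _ := sum_le_sum_of_subset_of_nonneg hA fun s _ _ => sum_nonneg fun s' _ =>
                  mul_nonneg (mul_nonneg (hm s) (hm s')) (hkan _)

theorem t_STEP (hKK : S_KK) (hPBW : S_PBW) (hCR : S_CR) : S_STEP := by
  intro C0 hC0 D b ρ hb hb12 hρ hρ1 η hη
  obtain ⟨C, hC1, -, -, heven, hnn, -, hka, -, -, hθ⟩ := hKK
  obtain ⟨C2, hC2, hP⟩ := hPBW C0 hC0
  obtain ⟨C3, hC3, hR⟩ := hCR C0 hC0
  have hb1 : b ≤ 1 := by linarith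
  have hC : 0 ≤ C := by linarith
  have hρ' : 0 < 2 / 3 * ρ := by positivity
  have htend : Tendsto (fun T : ℝ => 2 / 3 * ρ * T) atTop atTop :=
    Tendsto.const_mul_atTop hρ' tendsto_id
  have e1 := htend.eventually (hP D b hb hb1)
  have hlog : Tendsto (fun T : ℝ => Real.log (2 / 3 * ρ * T)) atTop atTop :=
    Real.tendsto_log_atTop.comp htend
  -- the parameter δ
  obtain ⟨δ, hδ0, hδ1, hδ2⟩ : ∃ δ : ℝ, 0 < δ ∧ δ ≤ 1 / 2 ∧ C * δ * (C2 / b) ≤ η / 2 := by
    have hK : 0 < C * (C2 / b) := by positivity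
    refine ⟨min (1 / 2) (η / 2 / (C * (C2 / b))), by positivity, min_le_left _ _, ?_⟩
    calc C * min (1 / 2) (η / 2 / (C * (C2 / b))) * (C2 / b)
        = C * (C2 / b) * min (1 / 2) (η / 2 / (C * (C2 / b))) := by ring
      _ ≤ C * (C2 / b) * (η / 2 / (C * (C2 / b))) :=
          mul_le_mul_of_nonneg_left (min_le_right _ _) hK.le
      _ = η / 2 := by field_simp
  set c : ℝ := Real.log (2 / 3 * ρ) with hc
  have e2 : ∀ᶠ T : ℝ in atTop, |c| / δ + 1 ≤ Real.log (2 / 3 * ρ * T) :=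
    hlog.eventually_ge_atTop _
  -- log T / T small
  have e3 : ∀ᶠ T : ℝ in atTop, 2 * (C * (C3 / b ^ 2)) * Real.log T ≤ η / 2 * T := by
    have h := Real.isLittleO_log_id_atTop
    have hK : 0 < η / 2 / (2 * (C * (C3 / b ^ 2)) + 1) := by positivity
    have h2 := h.bound hK
    filter_upwards [h2, eventually_ge_atTop 1] with T hT hT1
    have hlT : 0 ≤ Real.log T := Real.log_nonneg hT1
    rw [Real.norm_of_nonneg hlT, id, Real.norm_of_nonneg (by linarith)] at hT
    have hK2 : 0 ≤ 2 * (C * (C3 / b ^ 2)) := by positivity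
    calc 2 * (C * (C3 / b ^ 2)) * Real.log T ≤ (2 * (C * (C3 / b ^ 2)) + 1) * Real.log T :=
          mul_le_mul_of_nonneg_right (by linarith) hlT
      _ ≤ (2 * (C * (C3 / b ^ 2)) + 1) * (η / 2 / (2 * (C * (C3 / b ^ 2)) + 1) * T) :=
          mul_le_mul_of_nonneg_left hT (by positivity)
      _ = η / 2 * T := by field_simp
  filter_upwards [e1, e2, e3, eventually_ge_atTop 10] with T h1 h2 h3 hT10
  have hT0 : 0 < T := by linarith
  have hL0 : 0 < Real.log T := Real.log_pos (by linarith)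
  have hLS : Real.log (2 / 3 * ρ * T) = c + Real.log T := by
    rw [hc, Real.log_mul hρ'.ne' hT0.ne']
  set S : ℝ := 2 / 3 * ρ * T with hS
  have hST : S ≤ T := by
    rw [hS]
    have : 2 / 3 * ρ ≤ 1 := by linarith
    calc 2 / 3 * ρ * T ≤ 1 * T := mul_le_mul_of_nonneg_right this hT0.le
      _ = T := one_mul T
  have hS0 : 0 < S := by positivity
  have hSρ : S ≤ ρ * T := by
    rw [hS]
    have : 0 < ρ * T := by positivity
    linarith [this, mul_assoc (2 / 3) ρ T]
  have hρT : ρ * T ≤ T := by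
    calc ρ * T ≤ 1 * T := mul_le_mul_of_nonneg_right hρ1 hT0.le
      _ = T := one_mul T
  have hcd : 0 ≤ |c| / δ := by positivity
  have hLS0 : 0 < Real.log S := by linarith
  have hLSL : Real.log S ≤ Real.log T := Real.log_le_log hS0 hST
  set θ : ℝ := Real.log T / Real.log S with hθd
  have hTS : Real.log T = θ * Real.log S := by rw [hθd]; field_simp
  have hθ1 : |θ - 1| ≤ δ := by
    have : θ - 1 = -c / Real.log S := by
      rw [hθd, hLS]
      have : c + Real.log T ≠ 0 := by rw [← hLS]; exact hLS0.ne'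
      field_simp
      ring
    rw [this, abs_div, abs_neg, abs_of_pos hLS0, div_le_iff₀ hLS0]
    have h4 : |c| / δ ≤ Real.log S := by linarith
    rw [div_le_iff₀ hδ0] at h4
    linarith
  have hθa := abs_le.1 (hθ1.trans hδ1)
  -- the sets
  have hzw : zw D.ZG S = (D.ZG (ρ * T)).filter (fun s => S < s.im) := by
    unfold zw
    have : 3 * S / 2 = ρ * T := by rw [hS]; ring
    rw [this]
  have hAeq : D.ZG S = (D.ZG (ρ * T)).filter (fun s => s.im ≤ S) := by
    ext s
    rw [mem_filter]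
    exact D.coh S (ρ * T) hSρ s
  have hA' : D.ZG S ⊆ (D.ZG T).filter (fun s => s.im ≤ S) := by
    intro s hs
    rw [mem_filter]
    exact (D.coh S T hST s).1 hs
  have hZ' : zw D.ZG S ⊆ (D.ZG T).filter (fun s => S < s.im) := by
    intro s hs
    rw [hzw, mem_filter] at hs
    rw [mem_filter]
    exact ⟨((D.coh (ρ * T) T hρT s).1 hs.1).1, hs.2⟩
  have hdisj : Disjoint (D.ZG S) (zw D.ZG S) := by
    rw [hzw, hAeq, Finset.disjoint_left]
    intro s hs hs'
    rw [mem_filter] at hs hs'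
    exact absurd hs.2 (not_le.2 hs'.2)
  have hun : D.ZG (ρ * T) = D.ZG S ∪ zw D.ZG S := by
    rw [hzw, hAeq]
    ext s
    rw [mem_union, mem_filter, mem_filter]
    constructor
    · intro hs
      rcases le_or_gt s.im S with h | h
      · exact Or.inl ⟨hs, h⟩
      · exact Or.inr ⟨hs, h⟩
    · rintro (h | h)
      · exact h.1
      · exact h.1
  -- the cross terms
  have hcr := cross_le C hC hnn hka (D.ZG S) _ (zw D.ZG S) _ hA' hZ' D.m D.hm
    (b * Real.log T) _ (hR D b hb hb1 T hT10 S)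
  have hcross2 : ∑ s ∈ zw D.ZG S, ∑ s' ∈ D.ZG S,
      D.m s * D.m s' * kk (b * Real.log T * (s.im - s'.im)) =
      ∑ s ∈ D.ZG S, ∑ s' ∈ zw D.ZG S,
      D.m s * D.m s' * kk (b * Real.log T * (s.im - s'.im)) := by
    rw [sum_comm]
    refine sum_congr rfl fun s _ => sum_congr rfl fun s' _ => ?_
    have : b * Real.log T * (s'.im - s.im) = -(b * Real.log T * (s.im - s'.im)) := by ring
    rw [this, heven, mul_comm (D.m s') (D.m s)]
  have hdec : PW (D.ZG (ρ * T)) D.m T b = PW (D.ZG S) D.m T b + PW (zw D.ZG S) D.m T b +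
      2 * ∑ s ∈ D.ZG S, ∑ s' ∈ zw D.ZG S,
      D.m s * D.m s' * kk (b * Real.log T * (s.im - s'.im)) := by
    have := dbl (D.ZG S) (zw D.ZG S) hdisj
      (fun s s' => D.m s * D.m s' * kk (b * Real.log T * (s.im - s'.im)))
    rw [hcross2] at this
    unfold PW
    rw [hun, this]
    ring
  have herr := scale_err C hC hθ (zw D.ZG S) D.m D.hm b T S θ (by linarith) (by linarith) hTS _ h1
  have hfin1 : C * |θ - 1| * (C2 / b * (S * Real.log S)) ≤ η / 2 * (T * Real.log T) := by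
    calc C * |θ - 1| * (C2 / b * (S * Real.log S))
        ≤ C * δ * (C2 / b * (T * Real.log T)) := by
          refine mul_le_mul (mul_le_mul_of_nonneg_left hθ1 hC) ?_ (by positivity) (by positivity)
          refine mul_le_mul_of_nonneg_left ?_ (by positivity)
          exact mul_le_mul hST hLSL hLS0.le hT0.le
      _ = C * δ * (C2 / b) * (T * Real.log T) := by ring
      _ ≤ η / 2 * (T * Real.log T) := mul_le_mul_of_nonneg_right hδ2 (by positivity)
  have hfin2 : 2 * (C * (C3 / b ^ 2 * Real.log T ^ 2)) ≤ η / 2 * (T * Real.log T) := by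
    calc 2 * (C * (C3 / b ^ 2 * Real.log T ^ 2))
        = 2 * (C * (C3 / b ^ 2)) * Real.log T * Real.log T := by ring
      _ ≤ η / 2 * T * Real.log T := mul_le_mul_of_nonneg_right h3 hL0.le
      _ = _ := by ring
  rw [hdec]
  have habs := abs_le.1 (herr.trans hfin1)
  rw [abs_le]
  constructor <;> linarith [hcr.1, hcr.2, habs.1, habs.2, hfin2]

end Pool.Agent.H606.OS.P.STEP
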