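import Pool.Agent.H606.OS.Stm2
import Pool.Agent.H606.OS.P.B2

/-!
# Task DGW of project OS (helper606): few coincidences from the lower half in a window (by helper353)
-/

open MeasureTheory Filter Topology Finset
open Pool.Agent.H606.OS

namespace Pool.Agent.H606.OS.P.DGW

theorem Fg_nonneg (u : ℝ) : 0 ≤ Fg u := by
  unfold Fg
  rw [sub_nonneg, ← sq_abs]
  refine pow_le_one₀ (abs_nonneg _) ?_
  rw [abs_div]
  exact div_le_one_of_le₀ (Real.abs_sin_le_abs) (abs_nonneg _)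

theorem Fg_sq (u : ℝ) (hu : 0 < u) : Fg u ≤ 10 * u ^ 2 := by
  have hpi := Real.pi_pos
  have hx : 0 < Real.pi * u := by positivity
  have hpi2 : Real.pi ^ 2 ≤ 10 := by
    have := Real.pi_lt_d2
    nlinarith
  have hb : (Real.pi * u) ^ 2 ≤ 10 * u ^ 2 := by
    rw [mul_pow]
    gcongr
  refine le_trans ?_ hb
  rcases le_or_gt (Real.pi * u) 1 with h | h
  · unfold Fg
    generalize Real.pi * u = x at *
    have h1 := Real.sin_gt_sub_cube hx
    have h2 : 1 - x ^ 2 / 6 ≤ Real.sin x / x := by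
      rw [le_div_iff₀ hx]
      nlinarith
    have h3 : 0 ≤ 1 - x ^ 2 / 6 := by nlinarith
    have h4 : (1 - x ^ 2 / 6) ^ 2 ≤ (Real.sin x / x) ^ 2 := pow_le_pow_left₀ h3 h2 2
    nlinarith [sq_nonneg (x ^ 2)]
  · have h1 := P.B2.Fg_le u
    nlinarith

/-- the three pieces of the integral -/
theorem pieces (hKK : S_KK) (hGUE : S_GUE) : ∃ C : ℝ, 1 ≤ C ∧ ∀ A B b : ℝ, 0 < A → A < B → 0 < b →
    b ≤ 1 / 12 →
    (∫ u in Set.Ioi (0 : ℝ), kk (2 * Real.pi * b * u) * Fg u) ≤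
      7 * A ^ 3 + (∫ u in A..B, kk (2 * Real.pi * b * u) * Fg u) + C / (b ^ 2 * B) ∧
    2 * (∫ u in A..B, kk (2 * Real.pi * b * u) * Fg u) ≤ 1 / b := by
  obtain ⟨C, hC1, hkc, hk0, hks, hkp, hka, hkC, -, -, -⟩ := hKK
  refine ⟨C, hC1, fun A B b hA hAB hb hb1 => ?_⟩
  have hpi := Real.pi_pos
  have hpi3 := Real.pi_gt_three
  have hB : 0 < B := hA.trans hAB
  obtain ⟨hint, hgue⟩ := hGUE b hb (by linarith)
  obtain ⟨K, hK⟩ : ∃ K : ℝ → ℝ, K = fun u => kk (2 * Real.pi * b * u) := ⟨_, rfl⟩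
  have hK' : ∀ u, kk (2 * Real.pi * b * u) = K u := fun u => by rw [hK]
  simp only [hK'] at hint hgue ⊢
  have hK0 : ∀ u, 0 ≤ K u := fun u => by rw [hK]; exact hkp _
  have hKle : ∀ u, 0 ≤ u → K u ≤ 2 / 3 := by
    intro u hu
    rw [hK, ← hk0]
    exact hka (Set.mem_Ici.2 le_rfl) (Set.mem_Ici.2 (by positivity)) (by positivity)
  have hKd : ∀ u, 0 < u → K u ≤ C / b ^ 2 * u ^ (-2 : ℝ) := by
    intro u hu
    have h1 : K u ≤ C * ka (2 * Real.pi * b * u) := by
      rw [hK]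
      exact hkC _
    refine h1.trans ?_
    rw [div_mul_eq_mul_div, mul_div_assoc]
    refine mul_le_mul_of_nonneg_left ?_ (by linarith)
    have h2 : u ^ (-2 : ℝ) = 1 / u ^ 2 := by
      rw [Real.rpow_neg hu.le, one_div]
      congr 1
      exact Real.rpow_natCast u 2
    rw [h2, div_div]
    unfold ka
    refine one_div_le_one_div_of_le (by positivity) ?_
    have h3 : (2 * Real.pi * b * u) ^ 2 = (2 * Real.pi) ^ 2 * (u ^ 2 * b ^ 2) := by ring
    rw [h3]
    have h4 : (1 : ℝ) ≤ (2 * Real.pi) ^ 2 := by nlinarith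
    have h5 : 0 ≤ u ^ 2 * b ^ 2 := by positivity
    nlinarith
  have hi1 : IntegrableOn (fun u => K u * Fg u) (Set.Ioc 0 A) :=
    hint.mono_set Set.Ioc_subset_Ioi_self
  have hi2 : IntegrableOn (fun u => K u * Fg u) (Set.Ioc A B) :=
    hint.mono_set (Set.Ioc_subset_Ioi_self.trans (Set.Ioi_subset_Ioi hA.le))
  have hi3 : IntegrableOn (fun u => K u * Fg u) (Set.Ioi B) :=
    hint.mono_set (Set.Ioi_subset_Ioi hB.le)
  have hsplit : ∫ u in Set.Ioi (0 : ℝ), K u * Fg u =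
      (∫ u in Set.Ioc (0 : ℝ) A, K u * Fg u) + ((∫ u in A..B, K u * Fg u) +
        ∫ u in Set.Ioi B, K u * Fg u) := by
    have d1 : Disjoint (Set.Ioc A B) (Set.Ioi B) :=
      Set.disjoint_left.2 fun u h1 h2 => not_lt.2 h1.2 h2
    have d2 : Disjoint (Set.Ioc 0 A) (Set.Ioi A) :=
      Set.disjoint_left.2 fun u h1 h2 => not_lt.2 h1.2 h2
    rw [intervalIntegral.integral_of_le hAB.le, ← setIntegral_union d1 measurableSet_Ioi hi2 hi3,
      Set.Ioc_union_Ioi_eq_Ioi hAB.le, ← setIntegral_union d2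
        measurableSet_Ioi hi1 (hint.mono_set (Set.Ioi_subset_Ioi hA.le)),
      Set.Ioc_union_Ioi_eq_Ioi hA.le]
  have hnn : ∀ u, 0 ≤ K u * Fg u := fun u => mul_nonneg (hK0 u) (Fg_nonneg u)
  have h1 : ∫ u in Set.Ioc (0 : ℝ) A, K u * Fg u ≤ 7 * A ^ 3 := by
    calc ∫ u in Set.Ioc (0 : ℝ) A, K u * Fg u ≤ ∫ u in Set.Ioc (0 : ℝ) A, 7 * A ^ 2 := by
          refine setIntegral_mono_on hi1 (integrableOn_const measure_Ioc_lt_top.ne)
            measurableSet_Ioc ?_
          intro u hu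
          have g1 := hK0 u
          have g2 := hKle u hu.1.le
          have g3 := Fg_nonneg u
          have g4 := Fg_sq u hu.1
          have g5 : u ^ 2 ≤ A ^ 2 := pow_le_pow_left₀ hu.1.le hu.2 2
          calc K u * Fg u ≤ 2 / 3 * (10 * u ^ 2) := mul_le_mul g2 g4 g3 (by norm_num)
            _ ≤ 7 * A ^ 2 := by nlinarith [sq_nonneg A]
      _ = 7 * A ^ 3 := by
        rw [setIntegral_const]
        simp only [measureReal_def, Real.volume_Ioc, sub_zero, ENNReal.toReal_ofReal hA.le,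
          smul_eq_mul]
        ring
  have h3 : ∫ u in Set.Ioi B, K u * Fg u ≤ C / (b ^ 2 * B) := by
    calc ∫ u in Set.Ioi B, K u * Fg u ≤ ∫ u in Set.Ioi B, C / b ^ 2 * u ^ (-2 : ℝ) := by
          refine setIntegral_mono_on hi3
            ((integrableOn_Ioi_rpow_of_lt (by norm_num) hB).const_mul _) measurableSet_Ioi ?_
          intro u hu
          have hu0 : 0 < u := hB.trans hu
          have h4 := hKd u hu0
          have h5 := P.B2.Fg_le u
          have h6 := hK0 u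
          nlinarith
      _ = C / (b ^ 2 * B) := by
          rw [integral_const_mul, integral_Ioi_rpow_of_lt (by norm_num) hB]
          have h2 : B ^ ((-2 : ℝ) + 1) = 1 / B := by
            rw [show (-2 : ℝ) + 1 = -1 by norm_num, Real.rpow_neg hB.le, Real.rpow_one, one_div]
          rw [h2]
          field_simp
          norm_num
  have h0 : 0 ≤ ∫ u in Set.Ioc (0 : ℝ) A, K u * Fg u :=
    setIntegral_nonneg measurableSet_Ioc fun u _ => hnn u
  have h0' : 0 ≤ ∫ u in Set.Ioi B, K u * Fg u :=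
    setIntegral_nonneg measurableSet_Ioi fun u _ => hnn u
  constructor
  · rw [hsplit]
    linarith
  · rw [hsplit] at hgue
    linarith

theorem t_DGW (hKK : S_KK) (hGUE : S_GUE) (hLOW : S_LOW) : S_DGW := by
  obtain ⟨C, hC1, hpieces⟩ := pieces hKK hGUE
  obtain ⟨-, -, hkc, hk0, hks, hkp, -⟩ := hKK
  intro C1 hC
  refine ⟨21 + 3 * C + 3 * C1, by positivity, ?_⟩
  intro D l hl A B δ b hA hAB hδ hδ1 hb hb1 hlo ε hε
  obtain ⟨hp1, hp2⟩ := hpieces A B b hA hAB hb hb1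
  obtain ⟨-, hgue⟩ := hGUE b hb (by linarith)
  have hB : 0 < B := hA.trans hAB
  have hlo1 := hLOW C1 D l hl A B δ hA hAB hδ hδ1 hlo (fun u => kk (2 * Real.pi * b * u))
    (hkc.comp (continuous_const.mul continuous_id)) (fun u _ => hkp _) (ε / 3) (by positivity)
  have hn1 := hl (D.n1 1 b hb hb1)
  have hRl := hl D.hR
  filter_upwards [hlo1, hn1, hRl] with T h1 h2 h3
  have h4 := P.B2.ssum_ge (D.x T) (D.R T) b A h3 hA hk0 hks hkp
  simp only [Finset.range_one, Finset.sum_singleton, pow_zero, div_one, Nat.cast_one,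
    Real.sqrt_one] at h2
  rw [div_le_iff₀ (by positivity)] at h2
  generalize (∫ u in Set.Ioi (0 : ℝ), kk (2 * Real.pi * b * u) * Fg u) = I at *
  generalize (∫ u in A..B, kk (2 * Real.pi * b * u) * Fg u) = J at *
  generalize ks (D.x T) (D.R T) A (fun u => kk (2 * Real.pi * b * u)) = S at *
  have h5 : 2 * (δ * J) ≤ δ / b := by
    have := mul_le_mul_of_nonneg_left hp2 hδ
    rw [mul_one_div] at this
    linarith
  have e1 : C / (b ^ 2 * B) = C * (1 / (b ^ 2 * B)) := by ring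
  rw [e1] at hp1
  have hx1 : 0 ≤ A ^ 3 := by positivity
  have hx2 : 0 ≤ b ^ 2 := by positivity
  have hx3 : 0 ≤ 1 / (b ^ 2 * B) := by positivity
  have hx4 : 0 ≤ δ / b := by positivity
  generalize A ^ 3 = x1 at *
  generalize b ^ 2 = x2 at *
  generalize 1 / (x2 * B) = x3 at *
  generalize δ / b = x4 at *
  nlinarith [mul_nonneg hx1 hC.le, mul_nonneg hx3 hC.le, mul_nonneg hx4 hC.le,
    mul_nonneg hx1 (by linarith : (0 : ℝ) ≤ C), mul_nonneg hx2 (by linarith : (0 : ℝ) ≤ C),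
    mul_nonneg hx4 (by linarith : (0 : ℝ) ≤ C)]

end Pool.Agent.H606.OS.P.DGW
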