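import Pool.Agent.H606.OS.Stm2
import Pool.Agent.H606.OS.P.LO

/-!
Project OS part 2 (helper606), task LOW (adapted from `Pool/Agent/H606/OS/P/LO.lean`).
-/

open MeasureTheory Filter Topology Finset
open Pool.Agent.H606.OS
open Pool.Agent.H606.OS.P.LO (Fg_mem Fg_cont Fg_ii fFg_ii pc_eq)

namespace Pool.Agent.H606.OS.P.LOW

theorem claim {C1 : ℝ} (D : Cg C1) (l : Filter ℝ) (hl : l ≤ atTop) {A B dl : ℝ} (hA : 0 < A)
    (hd0 : 0 ≤ dl) (hd1 : dl ≤ 1)
    (hLo : LoW D l A B dl) (f : ℝ → ℝ) (hf : Continuous f) {p q : ℝ} (hAp : A ≤ p) (hpq1 : p < q)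
    (hqB : q ≤ B) (hf0 : ∀ u ∈ Set.Icc p q, 0 ≤ f u) {η : ℝ} (hη : 0 < η) :
    ∀ᶠ T in l, (1 - dl) * (∫ u in p..q, f u * Fg u) - η ≤
      (∑ z : Fin (D.N T) × Fin (D.N T),
        (Set.Ioo p q).indicator f (D.x T z.1 - D.x T z.2)) / D.R T := by
  -- uniform continuity
  have hp0 : 0 < p := by linarith
  have hqp : 0 < q - p := by linarith
  obtain ⟨e1, he1⟩ : ∃ e1 : ℝ, e1 = η / (8 * (q - p)) := ⟨_, rfl⟩
  have he10 : 0 < e1 := by rw [he1]; positivity
  have huc : UniformContinuousOn f (Set.Icc p q) :=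
    isCompact_Icc.uniformContinuousOn_of_continuous hf.continuousOn
  obtain ⟨δ, hδ, hδf⟩ := Metric.uniformContinuousOn_iff.mp huc e1 he10
  obtain ⟨n, hn⟩ := exists_nat_gt ((q - p) / δ)
  have hn0 : (0 : ℝ) < n := lt_trans (by positivity) hn
  obtain ⟨h, hh⟩ : ∃ h : ℝ, h = (q - p) / n := ⟨_, rfl⟩
  have hh0 : 0 < h := by rw [hh]; positivity
  have hhn : h * n = q - p := by rw [hh]; field_simp
  have hhδ : h < δ := by
    rw [hh, div_lt_iff₀ hn0]
    rw [div_lt_iff₀ hδ] at hn
    linarith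
  obtain ⟨t, ht⟩ : ∃ t : ℕ → ℝ, ∀ i, t i = p + i * h := ⟨_, fun _ => rfl⟩
  have ht0 : t 0 = p := by rw [ht]; simp
  have htn : t n = q := by rw [ht]; linarith
  have hts : ∀ i, t (i + 1) = t i + h := fun i => by
    rw [ht, ht]
    push_cast
    ring
  have htmono : ∀ i j, i ≤ j → t i ≤ t j := fun i j hij => by
    rw [ht, ht]
    have : (i : ℝ) ≤ j := by exact_mod_cast hij
    nlinarith
  have htp : ∀ i, p ≤ t i := fun i => by rw [← ht0]; exact htmono 0 i (Nat.zero_le _)
  have htq : ∀ i, i < n → t (i + 1) ≤ q := fun i hi => by rw [← htn]; exact htmono _ _ hi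
  obtain ⟨m, hm⟩ : ∃ m : ℕ → ℝ, ∀ i, m i = max (f (t i) - e1) 0 := ⟨_, fun _ => rfl⟩
  have hm0 : ∀ i, 0 ≤ m i := fun i => by rw [hm]; exact le_max_right _ _
  obtain ⟨Sm, hSm⟩ : ∃ Sm : ℝ, Sm = ∑ i ∈ range n, m i := ⟨_, rfl⟩
  have hSm0 : 0 ≤ Sm := by rw [hSm]; exact Finset.sum_nonneg fun i _ => hm0 i
  obtain ⟨s, hs⟩ : ∃ s : ℝ, s = min (h / 4) (η / (8 * (Sm + 1))) := ⟨_, rfl⟩
  have hs0 : 0 < s := by rw [hs]; exact lt_min (by positivity) (by positivity)
  have hsh : s ≤ h / 4 := by rw [hs]; exact min_le_left _ _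
  have hsS : 2 * s * Sm ≤ η / 4 := by
    have h1 : s ≤ η / (8 * (Sm + 1)) := by rw [hs]; exact min_le_right _ _
    rw [le_div_iff₀ (by positivity)] at h1
    nlinarith
  obtain ⟨e2, he2⟩ : ∃ e2 : ℝ, e2 = η / (4 * (Sm + 1)) := ⟨_, rfl⟩
  have he20 : 0 < e2 := by rw [he2]; positivity
  have he2S : e2 * Sm ≤ η / 4 := by
    have h1 : e2 * (4 * (Sm + 1)) = η := by rw [he2]; field_simp
    nlinarith
  -- closeness of the values
  have hclose : ∀ i, i < n → ∀ u ∈ Set.Icc (t i) (t (i + 1)), m i ≤ f u ∧ f u ≤ m i + 2 * e1 := by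
    intro i hi u hu
    have hup : u ∈ Set.Icc p q := ⟨(htp i).trans hu.1, hu.2.trans (htq i hi)⟩
    have htp' : t i ∈ Set.Icc p q := ⟨htp i, (hu.1.trans hu.2).trans (htq i hi)⟩
    have h1 : dist u (t i) < δ := by
      rw [Real.dist_eq, abs_of_nonneg (by linarith [hu.1])]
      have := hu.2
      rw [hts] at this
      linarith
    have h2 := hδf u hup (t i) htp' h1
    rw [Real.dist_eq] at h2
    have h3 := abs_lt.mp h2
    rw [hm]
    refine ⟨max_le (by linarith) (hf0 u hup), ?_⟩
    have h4 : f (t i) - e1 ≤ max (f (t i) - e1) 0 := le_max_left _ _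
    linarith
  -- the pointwise bound
  have hpoint : ∀ u, ∑ i ∈ range n, m i *
      (Set.Icc (t i + s) (t (i + 1) - s)).indicator (fun _ => (1 : ℝ)) u ≤
      (Set.Ioo p q).indicator f u := by
    intro u
    by_cases hex : ∃ i ∈ range n, u ∈ Set.Icc (t i + s) (t (i + 1) - s)
    · obtain ⟨i, hi, hu⟩ := hex
      have hi' := Finset.mem_range.mp hi
      rw [Finset.sum_eq_single_of_mem i hi]
      · rw [Set.indicator_of_mem hu, mul_one, Set.indicator_of_mem]
        · exact (hclose i hi' u ⟨by linarith [hu.1], by linarith [hu.2]⟩).1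
        · exact ⟨by linarith [hu.1, htp i], by linarith [hu.2, htq i hi']⟩
      · intro j _ hji
        rw [Set.indicator_of_notMem, mul_zero]
        intro hj
        rcases lt_or_gt_of_ne hji with h1 | h1
        · have := htmono (j + 1) i h1
          linarith [hj.2, hu.1]
        · have := htmono (i + 1) j h1
          linarith [hj.1, hu.2]
    · push Not at hex
      rw [Finset.sum_eq_zero]
      · refine Set.indicator_nonneg (fun v hv => hf0 v ⟨hv.1.le, hv.2.le⟩) u
      · intro i hi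
        rw [Set.indicator_of_notMem (hex i hi), mul_zero]
  -- the integral
  have hint : ∫ u in p..q, f u * Fg u ≤
      ∑ i ∈ range n, m i * (∫ u in (t i + s)..(t (i + 1) - s), Fg u) + η / 2 := by
    have h1 : ∑ i ∈ range n, ∫ u in t i..t (i + 1), f u * Fg u = ∫ u in p..q, f u * Fg u := by
      have h2 := intervalIntegral.sum_integral_adjacent_intervals (a := t) (n := n)
        (f := fun u => f u * Fg u) (μ := volume) (fun k _ => fFg_ii hf
          (lt_of_lt_of_le hp0 (htp k)) (lt_of_lt_of_le hp0 (htp (k + 1))))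
      rw [ht0, htn] at h2
      exact h2
    rw [← h1]
    have h3 : ∀ i ∈ range n, ∫ u in t i..t (i + 1), f u * Fg u ≤
        m i * (∫ u in (t i + s)..(t (i + 1) - s), Fg u) + (2 * s * m i + 2 * e1 * h) := by
      intro i hi
      have hi' := Finset.mem_range.mp hi
      have hti0 : 0 < t i := lt_of_lt_of_le hp0 (htp i)
      have hti1 : 0 < t (i + 1) := lt_of_lt_of_le hp0 (htp (i + 1))
      have hle : t i ≤ t (i + 1) := htmono _ _ (Nat.le_succ _)
      have h4 : ∫ u in t i..t (i + 1), f u * Fg u ≤ ∫ u in t i..t (i + 1), (m i * Fg u + 2 * e1) := by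
        refine intervalIntegral.integral_mono_on hle (fFg_ii hf hti0 hti1)
          (((Fg_ii hti0 hti1).const_mul _).add intervalIntegrable_const) fun u hu => ?_
        have h5 := (hclose i hi' u hu).2
        have h6 := Fg_mem u
        nlinarith
      have h5 : ∫ u in t i..t (i + 1), (m i * Fg u + 2 * e1) =
          m i * (∫ u in t i..t (i + 1), Fg u) + 2 * e1 * h := by
        rw [intervalIntegral.integral_add ((Fg_ii hti0 hti1).const_mul _) intervalIntegrable_const,
          intervalIntegral.integral_const_mul, intervalIntegral.integral_const, smul_eq_mul, hts]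
        ring
      have h6 : ∫ u in t i..t (i + 1), Fg u = (∫ u in t i..(t i + s), Fg u) +
          (∫ u in (t i + s)..(t (i + 1) - s), Fg u) + ∫ u in (t (i + 1) - s)..t (i + 1), Fg u := by
        have hs1 : 0 < t i + s := by linarith
        have hs2 : 0 < t (i + 1) - s := by rw [hts]; linarith
        rw [intervalIntegral.integral_add_adjacent_intervals (Fg_ii hti0 hs1) (Fg_ii hs1 hs2),
          intervalIntegral.integral_add_adjacent_intervals (Fg_ii hti0 hs2) (Fg_ii hs2 hti1)]
      have hb : ∀ a b : ℝ, a ≤ b → ∫ u in a..b, Fg u ≤ b - a := by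
        intro a b hab
        have h7 := intervalIntegral.norm_integral_le_of_norm_le_const (a := a) (b := b) (C := 1)
          (f := Fg) (fun u _ => by
            rw [Real.norm_eq_abs, abs_of_nonneg (Fg_mem u).1]
            exact (Fg_mem u).2)
        rw [one_mul, abs_of_nonneg (by linarith)] at h7
        exact (le_abs_self _).trans h7
      have h7 := hb (t i) (t i + s) (by linarith)
      have h8 := hb (t (i + 1) - s) (t (i + 1)) (by linarith)
      have h9 : ∫ u in t i..t (i + 1), Fg u ≤ (∫ u in (t i + s)..(t (i + 1) - s), Fg u) + 2 * s := by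
        rw [h6]
        linarith
      have h10 := mul_le_mul_of_nonneg_left h9 (hm0 i)
      linarith
    refine (Finset.sum_le_sum h3).trans ?_
    rw [Finset.sum_add_distrib, Finset.sum_add_distrib, ← Finset.mul_sum, ← hSm, Finset.sum_const,
      Finset.card_range, nsmul_eq_mul]
    have h4 : (n : ℝ) * (2 * e1 * h) = η / 4 := by
      have h5 : (n : ℝ) * (2 * e1 * h) = 2 * e1 * (h * n) := by ring
      rw [h5, hhn, he1]
      field_simp
      ring
    linarith
  -- the eventual bounds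
  have hev : ∀ᶠ T in l, ∀ i ∈ range n,
      (1 - dl) * (∫ u in (t i + s)..(t (i + 1) - s), Fg u) - e2 ≤
        pc (D.x T) (D.R T) (t i + s) (t (i + 1) - s) := by
    rw [Filter.eventually_all_finset]
    intro i hi
    have hi' := Finset.mem_range.mp hi
    refine hLo _ _ ?_ ?_ ?_ e2 he20
    · linarith [htp i]
    · rw [hts]
      linarith
    · linarith [htq i hi']
  filter_upwards [hev, D.hR.filter_mono hl] with T hT hRT
  have h1 : ∑ i ∈ range n, m i * pc (D.x T) (D.R T) (t i + s) (t (i + 1) - s) ≤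
      (∑ z : Fin (D.N T) × Fin (D.N T),
        (Set.Ioo p q).indicator f (D.x T z.1 - D.x T z.2)) / D.R T := by
    have h2 : ∑ i ∈ range n, m i * pc (D.x T) (D.R T) (t i + s) (t (i + 1) - s) =
        (∑ z : Fin (D.N T) × Fin (D.N T), ∑ i ∈ range n, m i *
          (Set.Icc (t i + s) (t (i + 1) - s)).indicator (fun _ => (1 : ℝ))
            (D.x T z.1 - D.x T z.2)) / D.R T := by
      rw [Finset.sum_comm, Finset.sum_div]
      refine Finset.sum_congr rfl fun i _ => ?_
      rw [pc_eq, ← Finset.mul_sum, mul_div_assoc]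
    rw [h2]
    exact div_le_div_of_nonneg_right (Finset.sum_le_sum fun z _ => hpoint _) hRT.le
  have h2 : ∑ i ∈ range n, m i * ((1 - dl) * (∫ u in (t i + s)..(t (i + 1) - s), Fg u) - e2) ≤
      ∑ i ∈ range n, m i * pc (D.x T) (D.R T) (t i + s) (t (i + 1) - s) :=
    Finset.sum_le_sum fun i hi => mul_le_mul_of_nonneg_left (hT i hi) (hm0 i)
  have h3 : ∑ i ∈ range n, m i * ((1 - dl) * (∫ u in (t i + s)..(t (i + 1) - s), Fg u) - e2) =
      (1 - dl) * ∑ i ∈ range n, m i * (∫ u in (t i + s)..(t (i + 1) - s), Fg u) - e2 * Sm := by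
    rw [hSm, Finset.mul_sum, Finset.mul_sum, ← Finset.sum_sub_distrib]
    refine Finset.sum_congr rfl fun i _ => ?_
    ring
  have h4 := mul_le_mul_of_nonneg_left hint (show 0 ≤ 1 - dl by linarith)
  have h5 : (1 - dl) * (∑ i ∈ range n, m i * (∫ u in (t i + s)..(t (i + 1) - s), Fg u) + η / 2) ≤
      (1 - dl) * ∑ i ∈ range n, m i * (∫ u in (t i + s)..(t (i + 1) - s), Fg u) + η / 2 := by
    nlinarith
  linarith

theorem t_LOW : S_LOW := by
  intro C1 D l hl A B δ hA hAB hδ0 hδ1 hLo K hK hKn ε hε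
  have ev := claim D l hl hA hδ0 hδ1 hLo K hK le_rfl hAB le_rfl
    (fun u hu => hKn u (by linarith [hu.1])) hε
  filter_upwards [ev, D.hR.filter_mono hl] with T h1 hRT
  refine h1.trans ?_
  unfold ks
  rw [Finset.sum_filter]
  refine div_le_div_of_nonneg_right (Finset.sum_le_sum fun z _ => ?_) hRT.le
  by_cases h2 : D.x T z.1 - D.x T z.2 ∈ Set.Ioo A B
  · rw [Set.indicator_of_mem h2, if_pos h2.1.le]
  · rw [Set.indicator_of_notMem h2]
    split_ifs with h3
    · exact hKn _ (by linarith)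
    · exact le_rfl

end Pool.Agent.H606.OS.P.LOW
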