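import Pool.Agent.H606.OS.Stm

open MeasureTheory Filter Topology Finset
open Pool.Agent.H606.OS

namespace Pool.Agent.H606.OS.P.W3

/-- Cauchy-Schwarz in the form needed -/
lemma low_int (R : ℝ → ℝ) (hRc : Continuous R) (hR2 : Integrable (fun t => R t ^ 2)) (u v l : ℝ)
    (huv : u ≤ v) (hl : 0 < l) :
    -(l / 2 * (v - u) + 1 / (2 * l) * ∫ t, R t ^ 2) ≤ ∫ t in u..v, R t := by
  have h1 : ∫ t in u..v, (-(l / 2 + 1 / (2 * l) * R t ^ 2)) ≤ ∫ t in u..v, R t := by
    apply intervalIntegral.integral_mono_on huv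
    · exact (Continuous.intervalIntegrable (by fun_prop) _ _)
    · exact hRc.intervalIntegrable _ _
    · intro t _
      have h : 0 ≤ (l + R t) ^ 2 / (2 * l) := by positivity
      have h' : (l + R t) ^ 2 / (2 * l) = l / 2 + R t + 1 / (2 * l) * R t ^ 2 := by
        field_simp
        ring
      linarith [h, h']
  have h2 : ∫ t in u..v, (-(l / 2 + 1 / (2 * l) * R t ^ 2)) =
      -(l / 2 * (v - u) + 1 / (2 * l) * ∫ t in u..v, R t ^ 2) := by
    rw [intervalIntegral.integral_neg, intervalIntegral.integral_add, intervalIntegral.integral_const,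
      intervalIntegral.integral_const_mul]
    · simp only [smul_eq_mul]; ring
    · exact (Continuous.intervalIntegrable (by fun_prop) _ _)
    · exact (Continuous.intervalIntegrable (by fun_prop) _ _)
  have h3 : ∫ t in u..v, R t ^ 2 ≤ ∫ t, R t ^ 2 := by
    rw [intervalIntegral.integral_of_le huv]
    exact setIntegral_le_integral hR2 (Filter.Eventually.of_forall fun t => sq_nonneg _)
  have h4 : 1 / (2 * l) * ∫ t in u..v, R t ^ 2 ≤ 1 / (2 * l) * ∫ t, R t ^ 2 :=
    mul_le_mul_of_nonneg_left h3 (by positivity)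
  linarith [h1, h2, h4]

lemma expand (F : ℝ → ℝ) (hF : Continuous F) (hF2 : Integrable (fun t => F t ^ 2)) (u v k : ℝ)
    (huv : u ≤ v) :
    ∫ t : ℝ, (F t - (Set.Ioc u v).indicator (fun _ => k) t) ^ 2 =
      (∫ t, F t ^ 2) - 2 * k * (∫ t in u..v, F t) + k ^ 2 * (v - u) := by
  have h1 : ∀ t, (F t - (Set.Ioc u v).indicator (fun _ => k) t) ^ 2 =
      F t ^ 2 + (Set.Ioc u v).indicator (fun t => k ^ 2 - 2 * k * F t) t := by
    intro t
    by_cases ht : t ∈ Set.Ioc u v
    · rw [Set.indicator_of_mem ht, Set.indicator_of_mem ht]; ring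
    · rw [Set.indicator_of_notMem ht, Set.indicator_of_notMem ht]; ring
  have hcont : Continuous (fun t => k ^ 2 - 2 * k * F t) := by fun_prop
  have hii : IntegrableOn (fun t => k ^ 2 - 2 * k * F t) (Set.Ioc u v) := by
    have := (hcont.intervalIntegrable (μ := volume) u v).1
    exact this
  have h2 : ∫ t : ℝ, (F t - (Set.Ioc u v).indicator (fun _ => k) t) ^ 2 =
      ∫ t : ℝ, (F t ^ 2 + (Set.Ioc u v).indicator (fun t => k ^ 2 - 2 * k * F t) t) :=
    integral_congr_ae (Filter.Eventually.of_forall h1)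
  rw [h2, integral_add hF2 (hii.integrable_indicator measurableSet_Ioc),
    integral_indicator measurableSet_Ioc, ← intervalIntegral.integral_of_le huv,
    intervalIntegral.integral_sub, intervalIntegral.integral_const,
    intervalIntegral.integral_const_mul]
  · simp only [smul_eq_mul]; ring
  · exact (Continuous.intervalIntegrable (by fun_prop) _ _)
  · exact (Continuous.intervalIntegrable (by fun_prop) _ _)

theorem t_W3 (hNICE : S_NICE) (hW1 : S_W1) (hW2 : S_W2) : S_W3 := by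
  obtain ⟨-, hmul, hadd, hcm, hint, hN⟩ := hNICE
  intro C0 hC0
  obtain ⟨C1, hC1, hW1⟩ := hW1 C0 hC0
  refine ⟨5 + C1, by positivity, ?_⟩
  intro D b hb hb12
  filter_upwards [hW1 D b hb hb12, hW2 C0 hC0 D b hb hb12 b hb, D.ms b hb hb12 1 one_pos,
    eventually_gt_atTop (1 : ℝ)] with T h1 h2 h3 hT
  obtain ⟨-, hR⟩ := h1
  obtain ⟨hQi, hAi⟩ := h2
  obtain ⟨hA, hC, hQ⟩ := hN (zw D.ZG T) D.m T b hT hb
  set A := AF (zw D.ZG T) D.m T b with hAdef
  set F := CF (zw D.ZG T) D.m T b with hFdef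
  set Q := QF (zw D.ZG T) D.m T b with hQdef
  have hsq : ∀ f : ℝ → ℝ, Nice f → Integrable (fun t => f t ^ 2) := by
    intro f hf
    have := hint _ (hmul f f hf hf)
    simpa [pow_two] using this
  have hRn : Nice (fun t => F t - A t - Q t) := by
    have h := hadd _ _ (hadd F _ hC (hcm A (-1) hA)) (hcm Q (-1) hQ)
    have e : (fun t => F t - A t - Q t) = fun t => F t + -1 * A t + -1 * Q t := by
      funext t; ring
    rw [e]; exact h
  have huv : T ≤ 3 * T / 2 := by linarith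
  have hlow := low_int (fun t => F t - A t - Q t) hRn.1 (hsq _ hRn) T (3 * T / 2) (b ^ 3) huv
    (by positivity)
  have hsplit : ∫ t in T..(3 * T / 2), F t = (∫ t in T..(3 * T / 2), A t) +
      (∫ t in T..(3 * T / 2), Q t) + ∫ t in T..(3 * T / 2), (F t - A t - Q t) := by
    rw [intervalIntegral.integral_sub, intervalIntegral.integral_sub]
    · ring
    · exact hC.1.intervalIntegrable _ _
    · exact hA.1.intervalIntegrable _ _
    · exact (hC.1.sub hA.1).intervalIntegrable _ _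
    · exact hQ.1.intervalIntegrable _ _
  rw [expand F hC.1 (hsq F hC) T (3 * T / 2) (1 / b) huv]
  have hQ' := (abs_le.mp hQi).1
  -- the bound for the remainder
  have hrem : 1 / (2 * b ^ 3) * ∫ t, (F t - A t - Q t) ^ 2 ≤ C1 * b ^ 3 * T / 2 := by
    calc 1 / (2 * b ^ 3) * ∫ t, (F t - A t - Q t) ^ 2 ≤ 1 / (2 * b ^ 3) * (C1 * b ^ 6 * T) :=
          mul_le_mul_of_nonneg_left hR (by positivity)
      _ = C1 * b ^ 3 * T / 2 := by field_simp
  have hFlow : T / (2 * b) - 3 / 2 * b * T - b ^ 3 * T / 4 - C1 * b ^ 3 * T / 2 ≤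
      ∫ t in T..(3 * T / 2), F t := by
    rw [hsplit]
    have e1 : (1 / b - b) * (T / 2) = T / (2 * b) - b * T / 2 := by
      field_simp
    have e2 : b ^ 3 / 2 * (3 * T / 2 - T) = b ^ 3 * T / 4 := by ring
    rw [e1] at hAi
    rw [e2] at hlow
    linarith [hAi, hQ', hlow, hrem]
  have hmain : 2 * (1 / b) * (T / (2 * b) - 3 / 2 * b * T - b ^ 3 * T / 4 - C1 * b ^ 3 * T / 2) ≤
      2 * (1 / b) * ∫ t in T..(3 * T / 2), F t :=
    mul_le_mul_of_nonneg_left hFlow (by positivity)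
  have e3 : 2 * (1 / b) * (T / (2 * b) - 3 / 2 * b * T - b ^ 3 * T / 4 - C1 * b ^ 3 * T / 2) =
      T / b ^ 2 - 3 * T - b ^ 2 * T / 2 - C1 * b ^ 2 * T := by
    field_simp
    ring
  rw [e3] at hmain
  have e4 : (1 / b) ^ 2 * (3 * T / 2 - T) = T / b ^ 2 / 2 := by
    field_simp
    ring
  have e5 : (1 / b ^ 2 + 1 / 6 + 1) * (T / 2) = T / b ^ 2 / 2 + 7 / 12 * T := by
    field_simp
    ring
  rw [e5] at h3
  rw [e4]
  have hb2 : b ^ 2 ≤ 1 := by nlinarith
  have hT0 : 0 < T := by linarith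
  have h6 : b ^ 2 * T ≤ T := by nlinarith
  have h7 : C1 * b ^ 2 * T ≤ C1 * T := by nlinarith [mul_pos hC1 hT0]
  linarith [h3, hmain, h6, h7]

end Pool.Agent.H606.OS.P.W3
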